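import Mathlib

/-! A contour shifting lemma for functions `Φ z / z ^ 2`. -/

namespace Pool.Agent.MP_6f2ed2_nt.H1

open Complex MeasureTheory Set Filter Topology intervalIntegral

/-- boundary integral over a rectangle -/
noncomputable def rectInt (f : ℂ → ℂ) (x₁ x₂ y₁ y₂ : ℝ) : ℂ :=
  (∫ x : ℝ in x₁..x₂, f (x + y₁ * I)) - (∫ x : ℝ in x₁..x₂, f (x + y₂ * I)) +
    I * (∫ y : ℝ in y₁..y₂, f (x₂ + y * I)) - I * (∫ y : ℝ in y₁..y₂, f (x₁ + y * I))

lemma rectInt_eq_zero (f : ℂ → ℂ) (x₁ x₂ y₁ y₂ : ℝ)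
    (H : DifferentiableOn ℂ f (uIcc x₁ x₂ ×ℂ uIcc y₁ y₂)) : rectInt f x₁ x₂ y₁ y₂ = 0 := by
  have := integral_boundary_rect_eq_zero_of_differentiableOn f ⟨x₁, y₁⟩ ⟨x₂, y₂⟩ H
  simpa [rectInt, smul_eq_mul] using this

lemma ne_zero_of_im {x y : ℝ} (hy : y ≠ 0) : (x : ℂ) + y * I ≠ 0 := by
  intro h
  have := congrArg Complex.im h
  simp at this
  exact hy this

lemma ne_zero_of_re {x y : ℝ} (hx : x ≠ 0) : (x : ℂ) + y * I ≠ 0 := by
  intro h
  have := congrArg Complex.re h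
  simp at this
  exact hx this

lemma horiz_ftc (f F : ℂ → ℂ) (x₁ x₂ y : ℝ)
    (hF : ∀ x : ℝ, HasDerivAt F (f (x + y * I)) (x + y * I))
    (hf : Continuous fun x : ℝ => f (x + y * I)) :
    ∫ x : ℝ in x₁..x₂, f (x + y * I) = F (x₂ + y * I) - F (x₁ + y * I) := by
  apply integral_eq_sub_of_hasDerivAt (f := fun x : ℝ => F (x + y * I))
  · intro x _
    have h1 : HasDerivAt (fun z : ℂ => F (z + y * I)) (f (x + y * I)) (x : ℂ) := by
      have := (hF x).comp (x : ℂ) ((hasDerivAt_id (x : ℂ)).add_const (y * I))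
      simpa [Function.comp_def] using this
    exact h1.comp_ofReal
  · exact hf.intervalIntegrable _ _

lemma vert_ftc (f F : ℂ → ℂ) (x y₁ y₂ : ℝ)
    (hF : ∀ y : ℝ, HasDerivAt F (f (x + y * I)) (x + y * I))
    (hf : Continuous fun y : ℝ => f (x + y * I)) :
    I * ∫ y : ℝ in y₁..y₂, f (x + y * I) = F (x + y₂ * I) - F (x + y₁ * I) := by
  rw [← intervalIntegral.integral_const_mul]
  apply integral_eq_sub_of_hasDerivAt (f := fun y : ℝ => F (x + y * I))
  · intro y _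
    have h1 : HasDerivAt (fun z : ℂ => F (x + z * I)) (I * f (x + y * I)) (y : ℂ) := by
      have := (hF y).comp (y : ℂ) (((hasDerivAt_id (y : ℂ)).mul_const I).const_add (x : ℂ))
      simpa [Function.comp_def, mul_comm] using this
    exact h1.comp_ofReal
  · exact (continuous_const.mul hf).intervalIntegrable _ _

lemma cont_horiz {y : ℝ} : Continuous fun x : ℝ => (x : ℂ) + y * I := by fun_prop

lemma cont_vert {x : ℝ} : Continuous fun y : ℝ => (x : ℂ) + y * I := by fun_prop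

lemma rectInt_inv_sq (x₁ x₂ y₁ y₂ : ℝ) (h1 : x₁ ≠ 0) (h2 : x₂ ≠ 0) (h3 : y₁ ≠ 0) (h4 : y₂ ≠ 0) :
    rectInt (fun z => (z ^ 2)⁻¹) x₁ x₂ y₁ y₂ = 0 := by
  have hd : ∀ z : ℂ, z ≠ 0 → HasDerivAt (fun z : ℂ => -z⁻¹) ((z ^ 2)⁻¹) z := by
    intro z hz
    exact (hasDerivAt_inv hz).neg.congr_deriv (by simp)
  unfold rectInt
  rw [horiz_ftc (fun z => (z ^ 2)⁻¹) (fun z : ℂ => -z⁻¹) x₁ x₂ y₁ (fun x => hd _ (ne_zero_of_im h3))
      ((cont_horiz.pow 2).inv₀ fun x => pow_ne_zero _ (ne_zero_of_im h3)),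
    horiz_ftc (fun z => (z ^ 2)⁻¹) (fun z : ℂ => -z⁻¹) x₁ x₂ y₂ (fun x => hd _ (ne_zero_of_im h4))
      ((cont_horiz.pow 2).inv₀ fun x => pow_ne_zero _ (ne_zero_of_im h4)),
    vert_ftc (fun z => (z ^ 2)⁻¹) (fun z : ℂ => -z⁻¹) x₂ y₁ y₂ (fun x => hd _ (ne_zero_of_re h2))
      ((cont_vert.pow 2).inv₀ fun x => pow_ne_zero _ (ne_zero_of_re h2)),
    vert_ftc (fun z => (z ^ 2)⁻¹) (fun z : ℂ => -z⁻¹) x₁ y₁ y₂ (fun x => hd _ (ne_zero_of_re h1))
      ((cont_vert.pow 2).inv₀ fun x => pow_ne_zero _ (ne_zero_of_re h1))]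
  ring

lemma rectInt_inv (x₁ x₂ y₁ y₂ : ℝ) (h1 : x₁ < 0) (h2 : 0 < x₂) (h3 : y₁ < 0) (h4 : 0 < y₂) :
    rectInt (fun z => z⁻¹) x₁ x₂ y₁ y₂ = 2 * Real.pi * I := by
  have hs1 : ∀ x y : ℝ, y ≠ 0 → ((x : ℂ) + y * I) ∈ slitPlane := by
    intro x y hy
    right; simpa using hy
  have hs2 : ∀ x y : ℝ, 0 < x → ((x : ℂ) + y * I) ∈ slitPlane := by
    intro x y hy
    left; simpa using hy
  have hneg : ∀ y : ℝ, HasDerivAt (fun z : ℂ => log (-z)) (((x₁ : ℂ) + y * I)⁻¹) (x₁ + y * I) := by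
    intro y
    have hm : -((x₁ : ℂ) + y * I) ∈ slitPlane := by
      left; simpa using h1
    have := (hasDerivAt_log hm).comp ((x₁ : ℂ) + y * I) (hasDerivAt_neg _)
    exact this.congr_deriv (by rw [inv_neg]; ring)
  unfold rectInt
  rw [horiz_ftc _ log x₁ x₂ y₁ (fun x => hasDerivAt_log (hs1 _ _ h3.ne))
      (cont_horiz.inv₀ fun x => (ne_zero_of_im h3.ne)),
    horiz_ftc _ log x₁ x₂ y₂ (fun x => hasDerivAt_log (hs1 _ _ h4.ne'))
      (cont_horiz.inv₀ fun x => (ne_zero_of_im h4.ne')),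
    vert_ftc _ log x₂ y₁ y₂ (fun x => hasDerivAt_log (hs2 _ _ h2))
      (cont_vert.inv₀ fun x => (ne_zero_of_re h2.ne')),
    vert_ftc _ (fun z : ℂ => log (-z)) x₁ y₁ y₂ hneg
      (cont_vert.inv₀ fun x => (ne_zero_of_re h1.ne))]
  have e1 : log (-((x₁ : ℂ) + y₁ * I)) = log ((x₁ : ℂ) + y₁ * I) + Real.pi * I := by
    unfold Complex.log
    rw [arg_neg_eq_arg_add_pi_of_im_neg (by simpa using h3), norm_neg]
    push_cast; ring
  have e2 : log (-((x₁ : ℂ) + y₂ * I)) = log ((x₁ : ℂ) + y₂ * I) - Real.pi * I := by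
    unfold Complex.log
    rw [arg_neg_eq_arg_sub_pi_of_im_pos (by simpa using h4), norm_neg]
    push_cast; ring
  simp only [e1, e2]
  ring

lemma rectInt_residue (Φ : ℂ → ℂ) (hΦ : Differentiable ℂ Φ) (x₁ x₂ y₁ y₂ : ℝ)
    (h1 : x₁ < 0) (h2 : 0 < x₂) (h3 : y₁ < 0) (h4 : 0 < y₂) :
    rectInt (fun z => Φ z / z ^ 2) x₁ x₂ y₁ y₂ = 2 * Real.pi * I * deriv Φ 0 := by
  set g := dslope (dslope Φ 0) 0 with hg
  have hd1 : Differentiable ℂ (dslope Φ 0) := by
    rw [← differentiableOn_univ, differentiableOn_dslope univ_mem]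
    exact hΦ.differentiableOn
  have hd2 : Differentiable ℂ g := by
    rw [← differentiableOn_univ, hg, differentiableOn_dslope univ_mem]
    exact hd1.differentiableOn
  have key : ∀ z : ℂ, z ≠ 0 → Φ z / z ^ 2 = g z + deriv Φ 0 * z⁻¹ + Φ 0 * (z ^ 2)⁻¹ := by
    intro z hz
    rw [hg, dslope_of_ne _ hz, slope_def_field, dslope_of_ne _ hz, slope_def_field, dslope_same]
    field_simp
    ring
  have hgz := rectInt_eq_zero g x₁ x₂ y₁ y₂ hd2.differentiableOn
  have hA := rectInt_inv x₁ x₂ y₁ y₂ h1 h2 h3 h4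
  have hB := rectInt_inv_sq x₁ x₂ y₁ y₂ h1.ne h2.ne' h3.ne h4.ne'
  have split : ∀ (γ : ℝ → ℂ) (a b : ℝ), Continuous γ → (∀ x, γ x ≠ 0) →
      ∫ x in a..b, Φ (γ x) / (γ x) ^ 2 = (∫ x in a..b, g (γ x)) +
        deriv Φ 0 * (∫ x in a..b, (γ x)⁻¹) + Φ 0 * (∫ x in a..b, ((γ x) ^ 2)⁻¹) := by
    intro γ a b hγ h0
    simp_rw [fun x => key (γ x) (h0 x)]
    have c1 : Continuous fun x => g (γ x) := hd2.continuous.comp hγ
    have c2 : Continuous fun x => deriv Φ 0 * (γ x)⁻¹ := continuous_const.mul (hγ.inv₀ h0)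
    have c3 : Continuous fun x => Φ 0 * ((γ x) ^ 2)⁻¹ :=
      continuous_const.mul ((hγ.pow 2).inv₀ fun x => pow_ne_zero _ (h0 x))
    have c12 : Continuous fun x => g (γ x) + deriv Φ 0 * (γ x)⁻¹ := c1.add c2
    rw [intervalIntegral.integral_add (c12.intervalIntegrable _ _)
      (c3.intervalIntegrable _ _), intervalIntegral.integral_add (c1.intervalIntegrable _ _)
      (c2.intervalIntegrable _ _), intervalIntegral.integral_const_mul,
      intervalIntegral.integral_const_mul]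
  unfold rectInt at hgz hA hB ⊢
  rw [split _ _ _ cont_horiz (fun x => ne_zero_of_im h3.ne),
    split _ _ _ cont_horiz (fun x => ne_zero_of_im h4.ne'),
    split _ _ _ cont_vert (fun x => ne_zero_of_re h2.ne'),
    split _ _ _ cont_vert (fun x => ne_zero_of_re h1.ne)]
  linear_combination hgz + deriv Φ 0 * hA + Φ 0 * hB

lemma norm_sq_xy (x y : ℝ) : ‖((x : ℂ) + y * I) ^ 2‖ = x ^ 2 + y ^ 2 := by
  rw [norm_pow, Complex.sq_norm, Complex.normSq_add_mul_I]

lemma integrable_line (Φ : ℂ → ℂ) (hΦ : Continuous Φ) (c B : ℝ) (hc : c ≠ 0)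
    (hB : ∀ x : ℝ, ‖Φ (x + c * I)‖ ≤ B) :
    Integrable fun x : ℝ => Φ (x + c * I) / ((x : ℂ) + c * I) ^ 2 := by
  have hB0 : 0 ≤ B := (norm_nonneg _).trans (hB 0)
  have hc2 : 0 < c ^ 2 := by positivity
  have hint : Integrable fun x : ℝ => B * (1 + 1 / c ^ 2) * (1 + x ^ 2)⁻¹ :=
    integrable_inv_one_add_sq.const_mul _
  refine hint.mono' ?_ (Eventually.of_forall fun x => ?_)
  · exact ((hΦ.comp cont_horiz).div (cont_horiz.pow 2)
      fun x => pow_ne_zero _ (ne_zero_of_im hc)).aestronglyMeasurable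
  · rw [norm_div, norm_sq_xy, div_le_iff₀ (by positivity)]
    have : 1 ≤ (1 + 1 / c ^ 2) * (1 + x ^ 2)⁻¹ * (x ^ 2 + c ^ 2) := by
      rw [mul_assoc, mul_comm ((1 + x ^ 2)⁻¹), ← mul_assoc, ← div_eq_mul_inv,
        le_div_iff₀ (by positivity)]
      have : (1 + 1 / c ^ 2) * (x ^ 2 + c ^ 2) = x ^ 2 + c ^ 2 + x ^ 2 / c ^ 2 + 1 := by
        field_simp; ring
      rw [this]
      have : 0 ≤ x ^ 2 / c ^ 2 := by positivity
      linarith
    calc ‖Φ (x + c * I)‖ ≤ B * 1 := by simpa using hB x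
      _ ≤ B * ((1 + 1 / c ^ 2) * (1 + x ^ 2)⁻¹ * (x ^ 2 + c ^ 2)) := by gcongr
      _ = _ := by ring

theorem contour_bound (Φ : ℂ → ℂ) (hΦ : Differentiable ℂ Φ) (c η u B V : ℝ) (W : ℝ → ℝ)
    (hη : 0 < η) (hc : η ≤ c) (hu : u ≠ 0)
    (hB1 : ∀ x y : ℝ, x ≤ u → -c ≤ y → y ≤ η → ‖Φ (x + y * I)‖ ≤ B)
    (hB2 : ∀ x y : ℝ, u ≤ x → -c ≤ y → y ≤ -η → ‖Φ (x + y * I)‖ ≤ B)
    (hW : Integrable W) (hW0 : ∀ x, 0 ≤ W x)
    (hW1 : ∀ x : ℝ, x ≤ u → ‖Φ (x + η * I)‖ / (x ^ 2 + η ^ 2) ≤ W x)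
    (hW2 : ∀ x : ℝ, u ≤ x → ‖Φ (x + (-η : ℝ) * I)‖ / (x ^ 2 + η ^ 2) ≤ W x)
    (hV : ∀ y : ℝ, -η ≤ y → y ≤ η → ‖Φ (u + y * I)‖ / u ^ 2 ≤ V) :
    ‖(∫ x : ℝ, Φ (x + (-c : ℝ) * I) / ((x : ℂ) + (-c : ℝ) * I) ^ 2) -
      (if 0 < u then 2 * Real.pi * I * deriv Φ 0 else 0)‖ ≤ (∫ x, W x) + 2 * η * V := by
  set f : ℂ → ℂ := fun z => Φ z / z ^ 2 with hf
  set res : ℂ := (if 0 < u then 2 * Real.pi * I * deriv Φ 0 else 0) with hres
  have hc0 : 0 < c := hη.trans_le hc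
  have hB0 : 0 ≤ B := (norm_nonneg _).trans (hB1 u η le_rfl (by linarith) le_rfl)
  have hint : Integrable fun x : ℝ => f (x + (-c : ℝ) * I) := by
    apply integrable_line Φ hΦ.continuous (-c) B (by linarith)
    intro x
    rcases le_total x u with h | h
    · exact hB1 x _ h le_rfl (by linarith)
    · exact hB2 x _ h le_rfl (by linarith)
  have hfd : ∀ z : ℂ, z ≠ 0 → DifferentiableAt ℂ f z := fun z hz =>
    (hΦ z).div (differentiableAt_id.pow 2) (pow_ne_zero _ hz)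
  have ch : ∀ y : ℝ, y ≠ 0 → Continuous fun x : ℝ => f (x + y * I) := fun y hy =>
    (hΦ.continuous.comp cont_horiz).div (cont_horiz.pow 2) fun x => pow_ne_zero _ (ne_zero_of_im hy)
  have cv : ∀ x : ℝ, x ≠ 0 → Continuous fun y : ℝ => f (x + y * I) := fun x hx =>
    (hΦ.continuous.comp cont_vert).div (cont_vert.pow 2) fun x => pow_ne_zero _ (ne_zero_of_re hx)
  have nf : ∀ x y : ℝ, ‖f (x + y * I)‖ = ‖Φ (x + y * I)‖ / (x ^ 2 + y ^ 2) := by
    intro x y; rw [hf]; simp only []; rw [norm_div, norm_sq_xy]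
  have main : ∀ R : ℝ, |u| < R →
      ‖(∫ x in (-R)..R, f (x + (-c : ℝ) * I)) - res‖ ≤
        (∫ x, W x) + 2 * η * V + 4 * c * B / R ^ 2 := by
    intro R hR
    have hR0 : 0 < R := (abs_nonneg _).trans_lt hR
    have hu1 : -R < u := (abs_lt.mp hR).1
    have hu2 : u < R := (abs_lt.mp hR).2
    have r1 : rectInt f (-R) u (-c) η = res := by
      by_cases h : 0 < u
      · rw [hres, if_pos h]
        exact rectInt_residue Φ hΦ _ _ _ _ (by linarith) h (by linarith) hη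
      · rw [hres, if_neg h]
        apply rectInt_eq_zero
        intro z hz
        apply (hfd z _).differentiableWithinAt
        rintro rfl
        have := hz.1
        rw [uIcc_of_le hu1.le] at this
        have h2 : (0 : ℝ) ≤ u := by simpa using this.2
        exact hu (le_antisymm (not_lt.mp h) h2)
    have r2 : rectInt f u R (-c) (-η) = 0 := by
      apply rectInt_eq_zero
      intro z hz
      apply (hfd z _).differentiableWithinAt
      rintro rfl
      have := hz.2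
      rw [uIcc_of_le (by linarith)] at this
      have h2 : (0 : ℝ) ≤ -η := by simpa using this.2
      linarith
    have s1 := intervalIntegral.integral_add_adjacent_intervals
      ((ch (-c) (by linarith)).intervalIntegrable (μ := volume) (-R) u)
      ((ch (-c) (by linarith)).intervalIntegrable u R)
    have s2 := intervalIntegral.integral_add_adjacent_intervals
      ((cv u hu).intervalIntegrable (μ := volume) (-c) (-η))
      ((cv u hu).intervalIntegrable (-η) η)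
    have e : (∫ x in (-R)..R, f (x + (-c : ℝ) * I)) - res =
        (∫ x in (-R)..u, f (x + η * I)) + (∫ x in u..R, f (x + (-η : ℝ) * I))
          - I * (∫ y in (-η)..η, f (u + y * I)) + I * (∫ y in (-c)..η, f ((-R : ℝ) + y * I))
          - I * (∫ y in (-c)..(-η), f (R + y * I)) := by
      unfold rectInt at r1 r2
      linear_combination -s1 + r1 + r2 + I * s2
    have b1 : ‖∫ x in (-R)..u, f (x + η * I)‖ ≤ ∫ x in (-R)..u, W x := by
      apply intervalIntegral.norm_integral_le_of_norm_le hu1.le _ hW.intervalIntegrable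
      refine Eventually.of_forall fun x hx => ?_
      rw [nf]; exact hW1 x hx.2
    have b2 : ‖∫ x in u..R, f (x + (-η : ℝ) * I)‖ ≤ ∫ x in u..R, W x := by
      apply intervalIntegral.norm_integral_le_of_norm_le hu2.le _ hW.intervalIntegrable
      refine Eventually.of_forall fun x hx => ?_
      rw [nf, neg_sq]; exact hW2 x hx.1.le
    have b12 : (∫ x in (-R)..u, W x) + ∫ x in u..R, W x ≤ ∫ x, W x := by
      rw [intervalIntegral.integral_add_adjacent_intervals hW.intervalIntegrable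
        hW.intervalIntegrable, intervalIntegral.integral_of_le (by linarith)]
      exact setIntegral_le_integral hW (Eventually.of_forall hW0)
    have b3 : ‖∫ y in (-η)..η, f (u + y * I)‖ ≤ V * |η - -η| := by
      apply intervalIntegral.norm_integral_le_of_norm_le_const
      intro y hy
      rw [uIoc_of_le (by linarith)] at hy
      rw [nf]
      refine le_trans ?_ (hV y hy.1.le hy.2)
      have : 0 < u ^ 2 := by positivity
      gcongr
      nlinarith [sq_nonneg y]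
    have b4 : ‖∫ y in (-c)..η, f ((-R : ℝ) + y * I)‖ ≤ B / R ^ 2 * |η - -c| := by
      apply intervalIntegral.norm_integral_le_of_norm_le_const
      intro y hy
      rw [uIoc_of_le (by linarith)] at hy
      rw [nf]
      have := hB1 (-R) y hu1.le hy.1.le hy.2
      have h2 : 0 < R ^ 2 := by positivity
      gcongr
      nlinarith [sq_nonneg y]
    have b5 : ‖∫ y in (-c)..(-η), f (R + y * I)‖ ≤ B / R ^ 2 * |-η - -c| := by
      apply intervalIntegral.norm_integral_le_of_norm_le_const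
      intro y hy
      rw [uIoc_of_le (by linarith)] at hy
      rw [nf]
      have := hB2 R y hu2.le hy.1.le hy.2
      have h2 : 0 < R ^ 2 := by positivity
      gcongr
      nlinarith [sq_nonneg y]
    rw [abs_of_nonneg (by linarith)] at b3 b4 b5
    rw [e]
    have nI : ∀ z : ℂ, ‖I * z‖ = ‖z‖ := by intro z; simp
    have hBR : 0 ≤ B / R ^ 2 := by positivity
    have t1 := norm_sub_le ((∫ x in (-R)..u, f (x + η * I)) + (∫ x in u..R, f (x + (-η : ℝ) * I))
          - I * (∫ y in (-η)..η, f (u + y * I)) + I * (∫ y in (-c)..η, f ((-R : ℝ) + y * I)))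
          (I * (∫ y in (-c)..(-η), f (R + y * I)))
    have t2 := norm_add_le ((∫ x in (-R)..u, f (x + η * I)) + (∫ x in u..R, f (x + (-η : ℝ) * I))
          - I * (∫ y in (-η)..η, f (u + y * I))) (I * (∫ y in (-c)..η, f ((-R : ℝ) + y * I)))
    have t3 := norm_sub_le ((∫ x in (-R)..u, f (x + η * I)) + (∫ x in u..R, f (x + (-η : ℝ) * I)))
          (I * (∫ y in (-η)..η, f (u + y * I)))
    have t4 := norm_add_le (∫ x in (-R)..u, f (x + η * I)) (∫ x in u..R, f (x + (-η : ℝ) * I))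
    rw [nI] at t1 t2 t3
    have : 4 * c * B / R ^ 2 = B / R ^ 2 * (4 * c) := by ring
    rw [this]
    nlinarith
  have lim1 : Tendsto (fun R : ℝ => ‖(∫ x in (-R)..R, f (x + (-c : ℝ) * I)) - res‖) atTop
      (𝓝 ‖(∫ x : ℝ, f (x + (-c : ℝ) * I)) - res‖) :=
    ((intervalIntegral_tendsto_integral hint tendsto_neg_atTop_atBot tendsto_id).sub_const _).norm
  have lim2 : Tendsto (fun R : ℝ => (∫ x, W x) + 2 * η * V + 4 * c * B / R ^ 2) atTop
      (𝓝 ((∫ x, W x) + 2 * η * V + 0)) :=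
    tendsto_const_nhds.add (tendsto_const_nhds.div_atTop (tendsto_pow_atTop two_ne_zero))
  rw [add_zero] at lim2
  exact le_of_tendsto_of_tendsto lim1 lim2 ((eventually_gt_atTop |u|).mono main)

end Pool.Agent.MP_6f2ed2_nt.H1
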