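import Mathlib

namespace Pool.Agent.MP_6f2ed2_nt.H1
open Filter Finset

/-- error bound for an alternating series with antitone terms -/
theorem e_alt_err (f : ℕ → ℝ) (hfa : Antitone f) (l : ℝ)
    (h : Tendsto (fun n => ∑ i ∈ range n, (-1 : ℝ) ^ i * f i) atTop (nhds l)) (n : ℕ) :
    |∑ i ∈ range n, (-1 : ℝ) ^ i * f i - l| ≤ f n := by
  have upper := hfa.alternating_series_le_tendsto h
  have lower := hfa.tendsto_le_alternating_series h
  rcases Nat.even_or_odd' n with ⟨k, rfl | rfl⟩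
  · have h1 := upper k
    have h2 := lower k
    rw [sum_range_succ, pow_mul] at h2
    rw [abs_le]
    constructor
    · norm_num at h2; linarith
    · norm_num at h2; linarith
  · have h1 := upper (k + 1)
    have h2 := lower k
    rw [show 2 * (k + 1) = 2 * k + 1 + 1 by ring, sum_range_succ, pow_succ, pow_mul] at h1
    rw [abs_le]
    constructor
    · norm_num at h1; linarith
    · norm_num at h1; linarith

/-- alternating sums with monotone nonnegative terms -/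
theorem e_alt_mono (e : ℕ → ℝ) (hm : Monotone e) (h0 : 0 ≤ e 0) (n : ℕ) :
    0 ≤ (-1 : ℝ) ^ n * ∑ j ∈ range (n + 1), (-1 : ℝ) ^ j * e j ∧
      (-1 : ℝ) ^ n * ∑ j ∈ range (n + 1), (-1 : ℝ) ^ j * e j ≤ e n := by
  induction n with
  | zero => simpa using h0
  | succ n ih =>
    have hsq : (-1 : ℝ) ^ (n + 1) * (-1 : ℝ) ^ (n + 1) = 1 := by
      rw [← mul_pow]; norm_num
    have key : (-1 : ℝ) ^ (n + 1) * ∑ j ∈ range (n + 1 + 1), (-1 : ℝ) ^ j * e j =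
        e (n + 1) - (-1 : ℝ) ^ n * ∑ j ∈ range (n + 1), (-1 : ℝ) ^ j * e j := by
      rw [sum_range_succ _ (n + 1), mul_add, ← mul_assoc, hsq, pow_succ]; ring
    have hmn : e n ≤ e (n + 1) := hm (Nat.le_succ n)
    rw [key]
    constructor <;> linarith [ih.1, ih.2]

/-- summation by halves -/
theorem e_half (g : ℕ → ℝ) (hg : g 0 = 0) (n : ℕ) :
    ∑ ν ∈ Icc 1 n, (-1 : ℝ) ^ ν * g ν =
      (-1 : ℝ) ^ n * g n / 2 - (1 / 2) * ∑ j ∈ range n, (-1 : ℝ) ^ j * (g (j + 1) - g j) := by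
  induction n with
  | zero => simp [hg]
  | succ n ih =>
    rw [sum_Icc_succ_top (by omega), ih, sum_range_succ, pow_succ]; ring

noncomputable def e_d (j : ℕ) : ℝ := Real.sqrt ((j + 1 : ℕ) : ℝ) - Real.sqrt (j : ℝ)

theorem e_d_eq (j : ℕ) : e_d j = 1 / (Real.sqrt ((j + 1 : ℕ) : ℝ) + Real.sqrt (j : ℝ)) := by
  have h1 : 0 < Real.sqrt ((j + 1 : ℕ) : ℝ) := Real.sqrt_pos.mpr (by positivity)
  have h2 : 0 ≤ Real.sqrt (j : ℝ) := Real.sqrt_nonneg _
  have h3 : Real.sqrt ((j + 1 : ℕ) : ℝ) ^ 2 = ((j + 1 : ℕ) : ℝ) := Real.sq_sqrt (by positivity)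
  have h4 : Real.sqrt (j : ℝ) ^ 2 = (j : ℝ) := Real.sq_sqrt (by positivity)
  rw [eq_div_iff (by positivity), e_d]
  push_cast at *
  nlinarith

theorem e_d_anti : Antitone e_d := by
  refine antitone_nat_of_succ_le fun j => ?_
  rw [e_d_eq, e_d_eq]
  have h1 : 0 < Real.sqrt ((j + 1 : ℕ) : ℝ) := Real.sqrt_pos.mpr (by positivity)
  have h2 : 0 ≤ Real.sqrt (j : ℝ) := Real.sqrt_nonneg _
  apply one_div_le_one_div_of_le (by positivity)
  have h3 : Real.sqrt (j : ℝ) ≤ Real.sqrt ((j + 1 + 1 : ℕ) : ℝ) :=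
    Real.sqrt_le_sqrt (by push_cast; linarith)
  linarith

theorem e_d_le (j : ℕ) : e_d j ≤ 1 / Real.sqrt ((j + 1 : ℕ) : ℝ) := by
  rw [e_d_eq]
  have h1 : 0 < Real.sqrt ((j + 1 : ℕ) : ℝ) := Real.sqrt_pos.mpr (by positivity)
  have h2 : 0 ≤ Real.sqrt (j : ℝ) := Real.sqrt_nonneg _
  exact one_div_le_one_div_of_le h1 (by linarith)

theorem e_d_nonneg (j : ℕ) : 0 ≤ e_d j := by
  rw [e_d_eq]; positivity

theorem e_d_tendsto : Tendsto e_d atTop (nhds 0) := by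
  have h : Tendsto (fun j : ℕ => 1 / Real.sqrt ((j + 1 : ℕ) : ℝ)) atTop (nhds 0) := by
    apply Tendsto.const_div_atTop
    apply Real.tendsto_sqrt_atTop.comp
    exact tendsto_natCast_atTop_atTop.comp (tendsto_add_atTop_nat 1)
  exact squeeze_zero e_d_nonneg e_d_le h

noncomputable def e_g (j : ℕ) : ℝ := Real.sqrt (j : ℝ) * (j : ℝ) ^ 2

theorem e_g_eq (j : ℕ) : e_g j = (j : ℝ) ^ (5 / 2 : ℝ) := by
  rw [e_g, Real.sqrt_eq_rpow, show (5 / 2 : ℝ) = 1 / 2 + (2 : ℕ) by norm_num,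
    Real.rpow_add_natCast' (by positivity) (by norm_num)]

theorem e_g_mono : Monotone fun j => e_g (j + 1) - e_g j := by
  refine monotone_nat_of_le_succ fun j => ?_
  have hc := (convexOn_rpow (p := 5 / 2) (by norm_num)).2
    (show (j : ℝ) ∈ Set.Ici 0 by simp) (show ((j : ℝ) + 2) ∈ Set.Ici 0 by
      simp only [Set.mem_Ici]; positivity)
    (show (0 : ℝ) ≤ 1 / 2 by norm_num) (show (0 : ℝ) ≤ 1 / 2 by norm_num) (by norm_num)
  simp only [smul_eq_mul] at hc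
  rw [show (1 / 2 : ℝ) * j + 1 / 2 * (j + 2) = j + 1 by ring] at hc
  simp only [e_g_eq]
  push_cast
  rw [show (j : ℝ) + 1 + 1 = j + 2 by ring]
  linarith

theorem e_g_diff (j : ℕ) :
    e_g (j + 1) - e_g j ≤ 3 * (Real.sqrt ((j + 1 : ℕ) : ℝ) * ((j + 1 : ℕ) : ℝ)) := by
  have h1 : 0 < Real.sqrt ((j + 1 : ℕ) : ℝ) := Real.sqrt_pos.mpr (by positivity)
  have h2 : 0 ≤ Real.sqrt (j : ℝ) := Real.sqrt_nonneg _
  have h3 : Real.sqrt ((j + 1 : ℕ) : ℝ) ^ 2 = ((j + 1 : ℕ) : ℝ) := Real.sq_sqrt (by positivity)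
  have h5 : Real.sqrt (j : ℝ) ≤ Real.sqrt ((j + 1 : ℕ) : ℝ) :=
    Real.sqrt_le_sqrt (by push_cast; linarith)
  have h6 := e_d_le j
  rw [e_d, le_div_iff₀ h1] at h6
  unfold e_g
  set b := Real.sqrt ((j + 1 : ℕ) : ℝ)
  set a := Real.sqrt (j : ℝ)
  have hj : (0 : ℝ) ≤ j := by positivity
  have h7 : ((j + 1 : ℕ) : ℝ) = j + 1 := by push_cast; ring
  rw [h7] at h3 ⊢
  have h8 : (b - a) * ((j : ℝ) + 1) ^ 2 ≤ b * (j + 1) := by
    have : (b - a) * ((j : ℝ) + 1) ^ 2 = ((b - a) * b) * (b * (j + 1)) := by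
      rw [pow_two ((j : ℝ) + 1)]; nth_rewrite 1 [← h3]; ring
    rw [this]
    have h9 : 0 ≤ b * ((j : ℝ) + 1) := by positivity
    nlinarith
  have h10 : a * (2 * (j : ℝ) + 1) ≤ b * (2 * (j + 1)) :=
    mul_le_mul h5 (by linarith) (by positivity) h1.le
  nlinarith

theorem e_b_bound (n : ℕ) :
    |∑ j ∈ range n, (-1 : ℝ) ^ j * (e_g (j + 1) - e_g j)| ≤ 3 * (Real.sqrt n * n) := by
  cases n with
  | zero => simp
  | succ n =>
    have h := e_alt_mono (fun j => e_g (j + 1) - e_g j) e_g_mono (by simp [e_g]) n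
    have h2 := e_g_diff n
    have h3 : |∑ j ∈ range (n + 1), (-1 : ℝ) ^ j * (e_g (j + 1) - e_g j)| =
        |(-1 : ℝ) ^ n * ∑ j ∈ range (n + 1), (-1 : ℝ) ^ j * (e_g (j + 1) - e_g j)| := by
      rw [abs_mul, abs_pow, abs_neg, abs_one, one_pow, one_mul]
    rw [h3, abs_of_nonneg h.1]
    exact h.2.trans h2

theorem e_est1 (p N s d r : ℝ) (hp0 : 0 ≤ p) (hp : p ≤ 4) (hs2 : s ^ 2 = N) (hsN : 1 ≤ s * N)
    (hd : d * s ≤ 1) (herr : |r| ≤ d) : |-(p * N ^ 2) * r| ≤ 4 * (s * N) := by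
  rw [abs_mul, abs_neg, abs_of_nonneg (by positivity)]
  have h11 : N ^ 2 * d ≤ s * N := by
    have : N ^ 2 * d = (d * s) * (s * N) := by rw [← hs2]; ring
    rw [this]; nlinarith
  have h12 : N ^ 2 * |r| ≤ N ^ 2 * d := mul_le_mul_of_nonneg_left herr (by positivity)
  have h13 : 0 ≤ N ^ 2 * |r| := by positivity
  calc p * N ^ 2 * |r| = p * (N ^ 2 * |r|) := by ring
    _ ≤ 4 * (s * N) := mul_le_mul hp (h12.trans h11) h13 (by norm_num)

theorem e_est2 (p N s n a σ : ℝ) (hp0 : 0 ≤ p) (hp : p ≤ 4) (hσ : |σ| = 1) (hn0 : 0 ≤ n)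
    (hn1 : n ≤ N) (hn2 : N ≤ n + 1) (ha0 : 0 ≤ a) (ha : a ≤ s) :
    |σ * (a * (p * (N ^ 2 - n ^ 2)))| ≤ 8 * (s * N) := by
  have h21 : 0 ≤ N ^ 2 - n ^ 2 := by nlinarith
  have h22 : N ^ 2 - n ^ 2 ≤ 2 * N := by nlinarith
  rw [abs_mul, hσ, one_mul, abs_of_nonneg (by positivity)]
  have h23 : p * (N ^ 2 - n ^ 2) ≤ 4 * (2 * N) := mul_le_mul hp h22 h21 (by norm_num)
  calc a * (p * (N ^ 2 - n ^ 2)) ≤ s * (4 * (2 * N)) :=
        mul_le_mul ha h23 (by positivity) (by linarith)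
    _ = 8 * (s * N) := by ring

theorem alt_sums : ∃ κ : ℝ, κ ≤ Real.sqrt 2 - Real.sqrt 3 ∧ ∃ C : ℝ, ∀ T : ℝ, 2 * Real.pi ≤ T →
    |(∑ ν ∈ Finset.Icc 1 ⌊Real.sqrt (T / (2 * Real.pi))⌋₊,
        (-1 : ℝ) ^ ν * Real.sqrt ν * (T - 2 * Real.pi * ν ^ 2)) - κ * T| ≤ C * T ^ (3 / 4 : ℝ) ∧
    |∑ ν ∈ Finset.Icc 1 ⌊Real.sqrt (T / (2 * Real.pi))⌋₊, (-1 : ℝ) ^ ν * Real.sqrt ν|
      ≤ C * T ^ (3 / 4 : ℝ) := by
  obtain ⟨l, hl⟩ := e_d_anti.tendsto_alternating_series_of_tendsto_zero e_d_tendsto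
  refine ⟨-(1 / 2) * l, ?_, 30, fun T hT => ?_⟩
  · have h := e_d_anti.alternating_series_le_tendsto hl 2
    have h4 : Real.sqrt 4 = 2 := by
      rw [show (4 : ℝ) = 2 ^ 2 by norm_num, Real.sqrt_sq (by norm_num)]
    simp only [sum_range_succ, range_zero, sum_empty, e_d] at h
    norm_num at h
    linarith
  have hpi := Real.pi_gt_three
  have hpi4 := Real.pi_lt_four
  have hT0 : 0 < T := by linarith
  set N := Real.sqrt (T / (2 * Real.pi)) with hN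
  have hq : 1 ≤ T / (2 * Real.pi) := by rw [le_div_iff₀ (by linarith)]; linarith
  have hN1 : 1 ≤ N := by rw [hN]; exact Real.one_le_sqrt.mpr hq
  have hN2 : N ^ 2 = T / (2 * Real.pi) := Real.sq_sqrt (by linarith)
  have hTN : T = 2 * Real.pi * N ^ 2 := by rw [hN2]; field_simp
  set n := ⌊N⌋₊ with hn
  have hn1 : (n : ℝ) ≤ N := Nat.floor_le (by linarith)
  have hn2 : N < n + 1 := Nat.lt_floor_add_one N
  set s := Real.sqrt N with hs
  have hs1 : 1 ≤ s := Real.one_le_sqrt.mpr hN1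
  have hs2 : s ^ 2 = N := Real.sq_sqrt (by linarith)
  have hsn : Real.sqrt n ≤ s := Real.sqrt_le_sqrt hn1
  have hsn0 : 0 ≤ Real.sqrt (n : ℝ) := Real.sqrt_nonneg _
  have hn0 : (0 : ℝ) ≤ n := by positivity
  -- N^{3/2} ≤ T^{3/4}
  have hpow : s * N ≤ T ^ (3 / 4 : ℝ) := by
    have h1 : s * N = (N ^ 2) ^ (3 / 4 : ℝ) := by
      rw [← Real.rpow_natCast N 2, ← Real.rpow_mul (by linarith), hs, Real.sqrt_eq_rpow]
      rw [show ((2 : ℕ) : ℝ) * (3 / 4) = 1 / 2 + 1 by norm_num, Real.rpow_add (by linarith),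
        Real.rpow_one]
    rw [h1]
    apply Real.rpow_le_rpow (by positivity) _ (by norm_num)
    rw [hTN]; nlinarith [sq_nonneg N]
  have hA := e_half (fun j => Real.sqrt (j : ℝ)) (by simp) n
  have hB := e_half e_g (by simp [e_g]) n
  have herr := e_alt_err e_d e_d_anti l hl n
  have hb := e_b_bound n
  have hd : e_d n * s ≤ 1 := by
    have h1 := e_d_le n
    have h2 : s ≤ Real.sqrt ((n + 1 : ℕ) : ℝ) := Real.sqrt_le_sqrt (by push_cast; linarith)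
    have h3 : 0 < Real.sqrt ((n + 1 : ℕ) : ℝ) := by linarith
    rw [le_div_iff₀ h3] at h1
    nlinarith [e_d_nonneg n]
  have hA' : ∑ j ∈ range n, (-1 : ℝ) ^ j * (Real.sqrt ((j + 1 : ℕ) : ℝ) - Real.sqrt (j : ℝ)) =
      ∑ j ∈ range n, (-1 : ℝ) ^ j * e_d j := rfl
  rw [hA'] at hA
  set D := ∑ j ∈ range n, (-1 : ℝ) ^ j * e_d j with hD
  set E := ∑ j ∈ range n, (-1 : ℝ) ^ j * (e_g (j + 1) - e_g j) with hE
  have hσ : |(-1 : ℝ) ^ n| = 1 := by rw [abs_pow, abs_neg, abs_one, one_pow]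
  have hsN : 1 ≤ s * N := by nlinarith
  constructor
  · have hsplit : ∑ ν ∈ Finset.Icc 1 n,
        (-1 : ℝ) ^ ν * Real.sqrt ν * (T - 2 * Real.pi * ν ^ 2) =
        T * ∑ ν ∈ Icc 1 n, (-1 : ℝ) ^ ν * Real.sqrt ν -
          2 * Real.pi * ∑ ν ∈ Icc 1 n, (-1 : ℝ) ^ ν * e_g ν := by
      rw [mul_sum, mul_sum, ← sum_sub_distrib]
      refine sum_congr rfl fun ν _ => ?_
      unfold e_g; ring
    rw [hsplit, hA, hB]
    have hid : T * ((-1 : ℝ) ^ n * Real.sqrt n / 2 - 1 / 2 * D) -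
        2 * Real.pi * ((-1 : ℝ) ^ n * e_g n / 2 - 1 / 2 * E) - -(1 / 2) * l * T =
        -(Real.pi * N ^ 2) * (D - l) +
          (-1 : ℝ) ^ n * (Real.sqrt n * (Real.pi * (N ^ 2 - n ^ 2))) + Real.pi * E := by
      unfold e_g
      rw [hTN]; ring
    rw [hid]
    have h1 := e_est1 Real.pi N s (e_d n) (D - l) (by linarith) hpi4.le hs2 hsN hd herr
    have h2 := e_est2 Real.pi N s n (Real.sqrt n) ((-1 : ℝ) ^ n) (by linarith) hpi4.le hσ hn0 hn1
      hn2.le hsn0 hsn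
    have h3 : |Real.pi * E| ≤ 12 * (s * N) := by
      rw [abs_mul, abs_of_nonneg (by linarith)]
      have h31 : Real.sqrt n * n ≤ s * N := mul_le_mul hsn hn1 hn0 (by linarith)
      have h32 : |E| ≤ 3 * (s * N) := by linarith
      calc Real.pi * |E| ≤ 4 * (3 * (s * N)) :=
            mul_le_mul hpi4.le h32 (abs_nonneg E) (by norm_num)
        _ = 12 * (s * N) := by ring
    have h4 := abs_add_three (-(Real.pi * N ^ 2) * (D - l))
      ((-1 : ℝ) ^ n * (Real.sqrt n * (Real.pi * (N ^ 2 - n ^ 2)))) (Real.pi * E)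
    linarith
  · rw [hA]
    have hl0 : 0 ≤ l := by simpa using e_d_anti.alternating_series_le_tendsto hl 0
    have hl1 : l ≤ 1 := by simpa [e_d] using e_d_anti.tendsto_le_alternating_series hl 0
    have hd1 : e_d n ≤ 1 :=
      le_trans (le_mul_of_one_le_right (e_d_nonneg n) hs1) hd
    have hDb : |D| ≤ 2 := by
      rw [abs_le] at herr ⊢; constructor <;> linarith [herr.1, herr.2]
    have h1 : |(-1 : ℝ) ^ n * Real.sqrt n / 2| ≤ s * N := by
      rw [abs_div, abs_mul, hσ, one_mul, abs_of_nonneg hsn0, abs_of_pos (by norm_num : (0 : ℝ) < 2)]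
      have : s ≤ s * N := le_mul_of_one_le_right (by linarith) hN1
      linarith
    have h2 : |1 / 2 * D| ≤ 1 := by
      rw [abs_mul, abs_of_pos (by norm_num : (0 : ℝ) < 1 / 2)]; linarith
    have h3 := abs_sub ((-1 : ℝ) ^ n * Real.sqrt n / 2) (1 / 2 * D)
    linarith

noncomputable def e_h (x : ℝ) : ℝ := (1 + |x|) ^ (-(3 / 2) : ℝ)

theorem e_h_nonneg (x : ℝ) : 0 ≤ e_h x := Real.rpow_nonneg (by positivity) _

theorem e_h_summable_nat : Summable fun k : ℕ => e_h k := by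
  have h := (summable_nat_add_iff 1).mpr
    (Real.summable_nat_rpow.mpr (show (-(3 / 2) : ℝ) < -1 by norm_num))
  refine h.congr fun k => ?_
  simp only [e_h, Nat.abs_cast]
  push_cast
  rw [add_comm]

theorem e_h_summable : Summable fun k : ℤ => e_h k := by
  apply Summable.of_nat_of_neg
  · simpa using e_h_summable_nat
  · simpa [e_h] using e_h_summable_nat

theorem e_h_sum (m : ℤ) (X : ℕ) :
    ∑ ν ∈ Icc 1 X, e_h ((ν : ℝ) - m) ≤ ∑' k : ℤ, e_h k := by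
  have hinj : Set.InjOn (fun ν : ℕ => (ν : ℤ) - m) (Icc 1 X : Finset ℕ) := by
    intro a _ b _ hab
    simp only at hab
    omega
  have h := sum_image (f := fun k : ℤ => e_h k) hinj
  have h2 := e_h_summable.sum_le_tsum (image (fun ν : ℕ => (ν : ℤ) - m) (Icc 1 X))
    (fun k _ => e_h_nonneg k)
  rw [h] at h2
  simpa using h2

theorem e_h_eq (x : ℝ) : e_h x = Real.sqrt (1 + |x|) / (1 + |x|) ^ 2 := by
  have h : 0 < 1 + |x| := by positivity
  rw [e_h, Real.sqrt_eq_rpow, ← Real.rpow_natCast, ← Real.rpow_sub h]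
  norm_num

theorem e_h_shift (x y : ℝ) (h : 1 + |y| ≤ 2 * (1 + |x|)) : e_h x ≤ 4 * e_h y := by
  have hx : 0 < 1 + |x| := by positivity
  have hy : 0 < 1 + |y| := by positivity
  have h1 : (2 * (1 + |x|)) ^ (-(3 / 2) : ℝ) ≤ e_h y :=
    Real.rpow_le_rpow_of_nonpos hy h (by norm_num)
  rw [Real.mul_rpow (by norm_num) hx.le] at h1
  have h2 : (1 / 4 : ℝ) ≤ 2 ^ (-(3 / 2) : ℝ) := by
    have : (2 : ℝ) ^ (-2 : ℝ) ≤ 2 ^ (-(3 / 2) : ℝ) :=
      Real.rpow_le_rpow_of_exponent_le (by norm_num) (by norm_num)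
    refine le_trans (le_of_eq ?_) this
    rw [Real.rpow_neg (by norm_num)]; norm_num
  have h3 : 0 ≤ e_h x := e_h_nonneg x
  change _ * e_h x ≤ _ at h1
  nlinarith

theorem err_sum : ∃ C : ℝ, 0 ≤ C ∧ ∀ N : ℝ, 1 ≤ N → ∀ X : ℕ,
    ∑ ν ∈ Finset.Icc 1 X, Real.sqrt ν * (1 / (1 + ((ν : ℝ) - N) ^ 2) + 1 / (ν : ℝ) ^ 2)
      ≤ C * Real.sqrt N := by
  have hS : 0 ≤ ∑' k : ℤ, e_h k := tsum_nonneg fun k => e_h_nonneg k
  refine ⟨16 * ∑' k : ℤ, e_h k, by positivity, fun N hN X => ?_⟩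
  have hs1 : 1 ≤ Real.sqrt N := Real.one_le_sqrt.mpr hN
  have hterm : ∀ ν ∈ Icc 1 X, Real.sqrt ν * (1 / (1 + ((ν : ℝ) - N) ^ 2) + 1 / (ν : ℝ) ^ 2) ≤
      8 * Real.sqrt N * e_h ((ν : ℝ) - (⌊N⌋ : ℤ)) + 4 * e_h ((ν : ℝ) - (0 : ℤ)) := by
    intro ν hν
    have hν1 : (1 : ℝ) ≤ ν := by exact_mod_cast (mem_Icc.mp hν).1
    rw [mul_add]
    apply add_le_add
    · set x := (ν : ℝ) - N with hx
      have h1 : Real.sqrt ν ≤ Real.sqrt N * Real.sqrt (1 + |x|) := by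
        rw [← Real.sqrt_mul (by linarith)]
        apply Real.sqrt_le_sqrt
        have := le_abs_self x
        have h0 := abs_nonneg x
        nlinarith
      have h2 : 1 / (1 + x ^ 2) ≤ 2 / (1 + |x|) ^ 2 := by
        rw [div_le_div_iff₀ (by positivity) (by positivity), ← sq_abs x]
        nlinarith [sq_nonneg (|x| - 1)]
      have h3 : e_h x ≤ 4 * e_h ((ν : ℝ) - (⌊N⌋ : ℤ)) := by
        apply e_h_shift
        have h31 := Int.floor_le N
        have h32 := Int.lt_floor_add_one N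
        have h33 : |(ν : ℝ) - (⌊N⌋ : ℤ)| ≤ |x| + 1 := by
          rw [abs_le]; constructor <;> linarith [le_abs_self x, neg_abs_le x]
        linarith [abs_nonneg x]
      calc Real.sqrt ν * (1 / (1 + x ^ 2))
          ≤ (Real.sqrt N * Real.sqrt (1 + |x|)) * (2 / (1 + |x|) ^ 2) :=
            mul_le_mul h1 h2 (by positivity) (by positivity)
        _ = 2 * Real.sqrt N * e_h x := by rw [e_h_eq]; ring
        _ ≤ 2 * Real.sqrt N * (4 * e_h ((ν : ℝ) - (⌊N⌋ : ℤ))) :=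
            mul_le_mul_of_nonneg_left h3 (by positivity)
        _ = _ := by ring
    · have h1 : e_h ((ν : ℝ) - 1) ≤ 4 * e_h ((ν : ℝ) - (0 : ℤ)) := by
        apply e_h_shift
        rw [abs_of_nonneg (by push_cast; linarith), abs_of_nonneg (by linarith)]
        push_cast; linarith
      refine le_trans (le_of_eq ?_) h1
      rw [e_h_eq, abs_of_nonneg (by linarith)]
      simp only [add_sub_cancel]
      ring
  refine (sum_le_sum hterm).trans ?_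
  rw [sum_add_distrib, ← mul_sum, ← mul_sum]
  have h1 := e_h_sum ⌊N⌋ X
  have h2 := e_h_sum 0 X
  have h3 := mul_le_mul_of_nonneg_left h1 (show 0 ≤ 8 * Real.sqrt N by positivity)
  nlinarith

theorem const_bound (κ : ℝ) (hκ : κ ≤ Real.sqrt 2 - Real.sqrt 3) :
    2 * Real.sqrt 2 * Real.pi * Real.cos (Real.pi / 8) * κ -
      Real.pi * Real.Gamma (3 / 4) * Real.pi ^ (-(3 / 4) : ℝ) ≤ -3.9 := by
  have hpi := Real.pi_gt_d2
  have h2l : 1.414 ≤ Real.sqrt 2 := Real.le_sqrt_of_sq_le (by norm_num)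
  have h2u : Real.sqrt 2 ≤ 1.4143 := Real.sqrt_le_iff.mpr ⟨by norm_num, by norm_num⟩
  have h3l : 1.732 ≤ Real.sqrt 3 := Real.le_sqrt_of_sq_le (by norm_num)
  have hc : 0.9238 ≤ Real.cos (Real.pi / 8) := by
    rw [Real.cos_pi_div_eight]
    have : 1.8476 ≤ Real.sqrt (2 + Real.sqrt 2) := Real.le_sqrt_of_sq_le (by linarith)
    linarith
  have hG : 1 ≤ Real.Gamma (3 / 4) := by
    have := Real.Gamma_strictAntiOn_Ioc.antitoneOn (a := 3 / 4) (b := 1)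
      ⟨by norm_num, by norm_num⟩ ⟨by norm_num, by norm_num⟩ (by norm_num)
    simpa using this
  have hp : 1.33 ≤ Real.pi * Real.pi ^ (-(3 / 4) : ℝ) := by
    have h1 : Real.pi * Real.pi ^ (-(3 / 4) : ℝ) = Real.pi ^ (1 / 4 : ℝ) := by
      nth_rewrite 1 [← Real.rpow_one Real.pi]
      rw [← Real.rpow_add Real.pi_pos]; norm_num
    rw [h1]
    have h2 : (1.33 : ℝ) = (1.33 ^ 4) ^ (1 / 4 : ℝ) := by
      rw [← Real.rpow_natCast, ← Real.rpow_mul (by norm_num)]; norm_num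
    rw [h2]
    exact Real.rpow_le_rpow (by norm_num) (by linarith) (by norm_num)
  have hA : 8.2 ≤ 2 * Real.sqrt 2 * Real.pi * Real.cos (Real.pi / 8) := by
    have h1 : 4.439 ≤ Real.sqrt 2 * Real.pi := by nlinarith
    nlinarith
  have hk : κ ≤ -0.3177 := by linarith
  have hB : 2 * Real.sqrt 2 * Real.pi * Real.cos (Real.pi / 8) * κ ≤ -2.6 := by nlinarith
  have hC : 1.33 ≤ Real.pi * Real.Gamma (3 / 4) * Real.pi ^ (-(3 / 4) : ℝ) := by nlinarith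
  linarith

end Pool.Agent.MP_6f2ed2_nt.H1
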