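import Pool.Agent.MP_6f2ed2_nt.H1.Objs

/-! Gamma ratio estimates for the analytic substitute of the phase. -/

namespace Pool.Agent.MP_6f2ed2_nt.H1

open Complex Filter Topology

theorem b_re (c t : ℝ) : ((c : ℂ) + I * t / 2).re = c := by
  simp

theorem b_im (c t : ℝ) : ((c : ℂ) + I * t / 2).im = t / 2 := by
  simp

theorem b_ne_neg (s : ℂ) (hs : 0 < s.re) (m : ℕ) : s ≠ -m := by
  intro h
  rw [h] at hs
  simp at hs
  have : (0 : ℝ) ≤ m := Nat.cast_nonneg m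
  linarith

theorem b_cont_Gamma (c : ℝ) (hc : 0 < c) : Continuous fun t : ℝ => Gamma ((c : ℂ) + I * t / 2) := by
  rw [continuous_iff_continuousAt]
  intro t
  have h1 : ContinuousAt (fun t : ℝ => (c : ℂ) + I * t / 2) t := by fun_prop
  exact ContinuousAt.comp (f := fun t : ℝ => (c : ℂ) + I * t / 2)
    (continuousAt_Gamma _ (b_ne_neg _ (by rw [b_re]; exact hc))) h1

theorem b_cont_half : Continuous fun t : ℝ => Gamma (1 / 2 + I * t / 2) := by
  have := b_cont_Gamma (1 / 2) (by norm_num)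
  simpa using this

theorem b_cont_quarter : Continuous fun t : ℝ => Gamma (1 / 4 + I * t / 2) := by
  have := b_cont_Gamma (1 / 4) (by norm_num)
  simpa using this

theorem b_ne_half (t : ℝ) : Gamma (1 / 2 + I * t / 2) ≠ 0 :=
  Gamma_ne_zero_of_re_pos (by simp)

theorem b_ne_quarter (t : ℝ) : Gamma (1 / 4 + I * t / 2) ≠ 0 :=
  Gamma_ne_zero_of_re_pos (by simp)

theorem b_ne_three (t : ℝ) : Gamma (3 / 4 + I * t / 2) ≠ 0 :=
  Gamma_ne_zero_of_re_pos (by simp)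

theorem b_pi_ne : (Real.pi : ℂ) ≠ 0 := ofReal_ne_zero.mpr Real.pi_ne_zero

theorem b_cpow (z : ℂ) : (Real.pi : ℂ) ^ z = cexp (Real.log Real.pi * z) := by
  rw [cpow_def_of_ne_zero b_pi_ne, ofReal_log Real.pi_pos.le]

theorem continuous_Mf : Continuous Mf := by
  unfold Mf
  simp_rw [b_cpow]
  have := b_cont_half
  fun_prop

theorem b_continuous_hardyPhase : Continuous hardyPhase := by
  unfold hardyPhase
  simp_rw [b_cpow]
  have h := b_cont_quarter
  refine Continuous.div (by fun_prop) (by fun_prop) ?_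
  intro t
  exact ofReal_ne_zero.mpr (norm_ne_zero_iff.mpr (b_ne_quarter t))

theorem b_norm_hardyPhase (t : ℝ) : ‖hardyPhase t‖ = 1 := by
  unfold hardyPhase
  rw [norm_div, norm_mul, b_cpow, norm_exp, norm_real, norm_norm]
  have : ((Real.log Real.pi : ℂ) * -(I * t / 2)).re = 0 := by
    rw [re_ofReal_mul]; simp
  rw [this, Real.exp_zero, one_mul]
  exact div_self (norm_ne_zero_iff.mpr (b_ne_quarter t))

theorem b_hardy_ne (t : ℝ) : hardyPhase t ≠ 0 := by
  rw [← norm_ne_zero_iff, b_norm_hardyPhase]; norm_num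

theorem b_conj (c t : ℝ) :
    (starRingEnd ℂ) (Gamma ((c : ℂ) + I * t / 2)) = Gamma ((c : ℂ) - I * t / 2) := by
  rw [← Gamma_conj]
  congr 1
  simp [map_ofNat]
  ring

theorem b_normSq_half (t : ℝ) :
    ‖Gamma (1 / 2 + I * t / 2)‖ ^ 2 = Real.pi / Real.cosh (Real.pi * t / 2) := by
  have h1 := Gamma_mul_Gamma_one_sub (1 / 2 + I * t / 2)
  have h2 := b_conj (1 / 2) t
  have e1 : (((1 / 2 : ℝ)) : ℂ) = 1 / 2 := by push_cast; ring
  rw [e1] at h2
  have e2 : (1 : ℂ) - (1 / 2 + I * t / 2) = 1 / 2 - I * t / 2 := by ring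
  rw [e2, ← h2, mul_conj, normSq_eq_norm_sq] at h1
  have e3 : (Real.pi : ℂ) * (1 / 2 + I * t / 2) = ((Real.pi * t / 2 : ℝ) : ℂ) * I + Real.pi / 2 := by
    push_cast; ring
  rw [e3, sin_add_pi_div_two, cos_mul_I, ← ofReal_cosh, ← ofReal_div] at h1
  exact_mod_cast h1

theorem normSq_Mf (t : ℝ) : ‖Mf t‖ ^ 2 = 1 / (1 + Real.exp (-(Real.pi * t))) := by
  unfold Mf
  rw [b_cpow]
  simp only [norm_mul, norm_inv, norm_exp, norm_real, mul_pow]
  rw [b_normSq_half]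
  have e1 : (-(I * Real.pi / 8) : ℂ).re = 0 := by simp
  have e2 : ((Real.pi : ℂ) * t / 4).re = Real.pi * t / 4 := by
    have : ((Real.pi : ℂ) * t / 4) = ((Real.pi * t / 4 : ℝ) : ℂ) := by push_cast; ring
    rw [this, ofReal_re]
  have e3 : ((Real.log Real.pi : ℂ) * -(1 / 2 + I * t / 2)).re = -(Real.log Real.pi / 2) := by
    rw [re_ofReal_mul]; simp; ring
  rw [e1, e2, e3, Real.norm_eq_abs, inv_pow, sq_abs, Real.sq_sqrt (by norm_num), Real.exp_zero,
    ← Real.exp_nat_mul, ← Real.exp_nat_mul]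
  have e4 : Real.exp (((2 : ℕ) : ℝ) * -(Real.log Real.pi / 2)) = Real.pi⁻¹ := by
    have : ((2 : ℕ) : ℝ) * -(Real.log Real.pi / 2) = -Real.log Real.pi := by push_cast; ring
    rw [this, Real.exp_neg, Real.exp_log Real.pi_pos]
  have e5 : ((2 : ℕ) : ℝ) * (Real.pi * t / 4) = Real.pi * t / 2 := by push_cast; ring
  rw [e4, e5, Real.cosh_eq]
  have e6 : Real.exp (-(Real.pi * t)) = Real.exp (-(Real.pi * t / 2)) ^ 2 := by
    rw [← Real.exp_nat_mul]; congr 1; push_cast; ring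
  rw [e6, Real.exp_neg]
  have hp := Real.exp_pos (Real.pi * t / 2)
  have := Real.pi_pos
  field_simp

/-- the Gamma ratio -/
noncomputable def b_P (t : ℝ) : ℂ :=
  Gamma (1 / 2 + I * t / 2) ^ 2 / (Gamma (1 / 4 + I * t / 2) * Gamma (3 / 4 + I * t / 2))

/-- the factors of the product -/
noncomputable def b_a (t : ℝ) (j : ℕ) : ℂ := -(1 / (16 * (1 / 2 + I * t / 2 + j) ^ 2))

theorem b_fac_ne (c t : ℝ) (hc : 0 < c) (j : ℕ) : (c : ℂ) + I * t / 2 + j ≠ 0 := by
  intro h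
  have := congrArg Complex.re h
  simp at this
  have : (0 : ℝ) ≤ j := Nat.cast_nonneg j
  linarith

theorem b_fac_half (t : ℝ) (j : ℕ) : (1 / 2 : ℂ) + I * t / 2 + j ≠ 0 := by
  simpa using b_fac_ne (1 / 2) t (by norm_num) j

theorem b_fac_quarter (t : ℝ) (j : ℕ) : (1 / 4 : ℂ) + I * t / 2 + j ≠ 0 := by
  simpa using b_fac_ne (1 / 4) t (by norm_num) j

theorem b_fac_three (t : ℝ) (j : ℕ) : (3 / 4 : ℂ) + I * t / 2 + j ≠ 0 := by
  simpa using b_fac_ne (3 / 4) t (by norm_num) j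

theorem b_seq_eq (t : ℝ) (n : ℕ) (hn : 1 ≤ n) :
    GammaSeq (1 / 2 + I * t / 2) n ^ 2 /
      (GammaSeq (1 / 4 + I * t / 2) n * GammaSeq (3 / 4 + I * t / 2) n) =
      ∏ j ∈ Finset.range (n + 1), (1 + b_a t j) := by
  have hn0 : (n : ℂ) ≠ 0 := by exact_mod_cast (by omega : n ≠ 0)
  have hf : ((n.factorial : ℕ) : ℂ) ≠ 0 := by exact_mod_cast n.factorial_ne_zero
  have hA : ∏ j ∈ Finset.range (n + 1), ((1 / 2 : ℂ) + I * t / 2 + j) ≠ 0 :=
    Finset.prod_ne_zero_iff.mpr fun j _ => b_fac_half t j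
  have hB : ∏ j ∈ Finset.range (n + 1), ((1 / 4 : ℂ) + I * t / 2 + j) ≠ 0 :=
    Finset.prod_ne_zero_iff.mpr fun j _ => b_fac_quarter t j
  have hC : ∏ j ∈ Finset.range (n + 1), ((3 / 4 : ℂ) + I * t / 2 + j) ≠ 0 :=
    Finset.prod_ne_zero_iff.mpr fun j _ => b_fac_three t j
  have hpow : ((n : ℂ) ^ ((1 / 2 : ℂ) + I * t / 2)) ^ 2 =
      (n : ℂ) ^ ((1 / 4 : ℂ) + I * t / 2) * (n : ℂ) ^ ((3 / 4 : ℂ) + I * t / 2) := by
    rw [sq, ← cpow_add _ _ hn0, ← cpow_add _ _ hn0]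
    congr 1; ring
  have h1 : (n : ℂ) ^ ((1 / 4 : ℂ) + I * t / 2) ≠ 0 := by
    rw [Ne, cpow_eq_zero_iff]; tauto
  have h2 : (n : ℂ) ^ ((3 / 4 : ℂ) + I * t / 2) ≠ 0 := by
    rw [Ne, cpow_eq_zero_iff]; tauto
  have hprod : ∏ j ∈ Finset.range (n + 1), (1 + b_a t j) =
      ((∏ j ∈ Finset.range (n + 1), ((1 / 4 : ℂ) + I * t / 2 + j)) *
        ∏ j ∈ Finset.range (n + 1), ((3 / 4 : ℂ) + I * t / 2 + j)) /
        (∏ j ∈ Finset.range (n + 1), ((1 / 2 : ℂ) + I * t / 2 + j)) ^ 2 := by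
    rw [← Finset.prod_mul_distrib, ← Finset.prod_pow, ← Finset.prod_div_distrib]
    refine Finset.prod_congr rfl fun j _ => ?_
    have := b_fac_half t j
    unfold b_a
    generalize hz : (1 / 2 : ℂ) + I * t / 2 + j = z at this
    have e1 : (1 / 4 : ℂ) + I * t / 2 + j = z - 1 / 4 := by rw [← hz]; ring
    have e2 : (3 / 4 : ℂ) + I * t / 2 + j = z + 1 / 4 := by rw [← hz]; ring
    rw [e1, e2]
    field_simp
    ring
  rw [hprod]
  unfold GammaSeq
  rw [div_pow, mul_pow, hpow]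
  generalize (n : ℂ) ^ ((1 / 4 : ℂ) + I * t / 2) = x at *
  generalize (n : ℂ) ^ ((3 / 4 : ℂ) + I * t / 2) = y at *
  generalize ∏ j ∈ Finset.range (n + 1), ((1 / 2 : ℂ) + I * t / 2 + j) = A at *
  generalize ∏ j ∈ Finset.range (n + 1), ((1 / 4 : ℂ) + I * t / 2 + j) = B at *
  generalize ∏ j ∈ Finset.range (n + 1), ((3 / 4 : ℂ) + I * t / 2 + j) = C at *
  field_simp

theorem b_tendsto (t : ℝ) :
    Tendsto (fun n : ℕ => ∏ j ∈ Finset.range (n + 1), (1 + b_a t j)) atTop (𝓝 (b_P t)) := by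
  have h := ((GammaSeq_tendsto_Gamma (1 / 2 + I * t / 2)).pow 2).div
    ((GammaSeq_tendsto_Gamma (1 / 4 + I * t / 2)).mul (GammaSeq_tendsto_Gamma (3 / 4 + I * t / 2)))
    (mul_ne_zero (b_ne_quarter t) (b_ne_three t))
  refine h.congr' ?_
  filter_upwards [eventually_ge_atTop 1] with n hn
  exact b_seq_eq t n hn

theorem b_norm_a (t : ℝ) (j : ℕ) : ‖b_a t j‖ = 1 / (16 * ((1 / 2 + j) ^ 2 + (t / 2) ^ 2)) := by
  unfold b_a
  rw [norm_neg, norm_div, norm_one, norm_mul, norm_pow, ← normSq_eq_norm_sq, normSq_apply]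
  simp
  ring

theorem b_tele (c α : ℝ) (hc : 0 ≤ c) (hα : 0 < α) (f : ℕ → ℝ)
    (hf : ∀ j : ℕ, f j ≤ c / ((j + α) * (j + 1 + α))) (n : ℕ) :
    ∑ j ∈ Finset.range n, f j ≤ c / α := by
  have key : ∀ n : ℕ, ∑ j ∈ Finset.range n, f j ≤ c / α - c / (n + α) := by
    intro n
    induction n with
    | zero => simp
    | succ n ih =>
      rw [Finset.sum_range_succ]
      have h1 := hf n
      have hn : (0 : ℝ) ≤ n := Nat.cast_nonneg n
      have h2 : c / ((n + α) * (n + 1 + α)) = c / (n + α) - c / ((n + 1 : ℕ) + α) := by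
        push_cast
        field_simp
        ring
      linarith
  have h3 : 0 ≤ c / (n + α) := by positivity
  linarith [key n]

theorem b_P_bound (t S : ℝ) (hS1 : S < 1)
    (h : ∀ n : ℕ, ∑ j ∈ Finset.range n, ‖b_a t j‖ ≤ S) : ‖b_P t - 1‖ ≤ S / (1 - S) := by
  have hS0 : 0 ≤ S := by simpa using h 0
  have h1 : Tendsto (fun n : ℕ => ‖∏ j ∈ Finset.range (n + 1), (1 + b_a t j) - 1‖) atTop
      (𝓝 ‖b_P t - 1‖) := ((b_tendsto t).sub_const 1).norm
  refine le_of_tendsto' h1 fun n => ?_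
  have h2 := Finset.norm_prod_one_add_sub_one_le (Finset.range (n + 1)) (b_a t)
  have h3 := Real.exp_le_exp.mpr (h (n + 1))
  have h4 := Real.exp_bound_div_one_sub_of_interval hS0 hS1
  have h5 : 1 / (1 - S) - 1 = S / (1 - S) := by
    have : 1 - S ≠ 0 := by linarith
    field_simp
    ring
  linarith

theorem b_P_half (t : ℝ) : ‖b_P t - 1‖ ≤ 1 / 2 := by
  have h := b_P_bound t (1 / 3) (by norm_num) fun n => by
    have := b_tele (1 / 12) (1 / 4) (by norm_num) (by norm_num) (fun j => ‖b_a t j‖) (fun j => by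
      rw [b_norm_a]
      have hj : (0 : ℝ) ≤ j := Nat.cast_nonneg j
      rw [div_le_div_iff₀ (by positivity) (by positivity)]
      nlinarith [sq_nonneg ((j : ℝ) - 1 / 4), sq_nonneg t]) n
    linarith
  norm_num at h ⊢
  linarith

theorem b_P_large (t : ℝ) (ht : 1 ≤ t) : ‖b_P t - 1‖ ≤ 1 / (3 * t) := by
  have ht0 : 0 < t := by linarith
  have hS : 1 / (4 * t) ≤ 1 / 4 := by
    rw [div_le_div_iff₀ (by positivity) (by positivity)]; linarith
  have h := b_P_bound t (1 / (4 * t)) (by linarith) fun n => by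
    have := b_tele (1 / 8) (t / 2) (by norm_num) (by positivity) (fun j => ‖b_a t j‖) (fun j => by
      rw [b_norm_a]
      have hj : (0 : ℝ) ≤ j := Nat.cast_nonneg j
      rw [div_le_div_iff₀ (by positivity) (by positivity)]
      nlinarith [sq_nonneg ((j : ℝ) + 1 / 2 - t / 2)]) n
    have e : 1 / 8 / (t / 2) = 1 / (4 * t) := by field_simp; ring
    linarith
  refine h.trans ?_
  rw [div_le_div_iff₀ (by linarith) (by positivity)]
  have e : 1 / (4 * t) * (3 * t) = 3 / 4 := by field_simp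
  linarith

/-- the ratio of the analytic substitute to the phase -/
noncomputable def b_w (t : ℝ) : ℂ := Mf t / hardyPhase t

theorem b_normSq_w (t : ℝ) : ‖b_w t‖ ^ 2 = 1 / (1 + Real.exp (-(Real.pi * t))) := by
  unfold b_w
  rw [norm_div, b_norm_hardyPhase, div_one, normSq_Mf]

theorem b_continuous_w : Continuous b_w :=
  continuous_Mf.div b_continuous_hardyPhase b_hardy_ne

theorem b_w_sq (t : ℝ) :
    b_w t ^ 2 * (1 + I * (Real.exp (-(Real.pi * t)) : ℝ)) = b_P t := by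
  have h1 := Gamma_mul_Gamma_one_sub (1 / 4 - I * t / 2)
  have e2 : (1 : ℂ) - (1 / 4 - I * t / 2) = 3 / 4 + I * t / 2 := by ring
  rw [e2] at h1
  have h2 := b_conj (1 / 4) t
  have e1 : (((1 / 4 : ℝ)) : ℂ) = 1 / 4 := by push_cast; ring
  rw [e1] at h2
  have h3 : ((‖Gamma (1 / 4 + I * t / 2)‖ : ℝ) : ℂ) ^ 2 =
      Gamma (1 / 4 + I * t / 2) * Gamma (1 / 4 - I * t / 2) := by
    rw [← h2, mul_conj, normSq_eq_norm_sq]; push_cast; ring
  -- exponentials
  set u : ℂ := cexp (-(I * Real.pi / 8)) with hu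
  set v : ℂ := cexp (Real.pi * t / 4) with hv
  have hu0 : u ≠ 0 := exp_ne_zero _
  have hv0 : v ≠ 0 := exp_ne_zero _
  have hu4 : u ^ 4 = -I := by
    rw [hu, ← Complex.exp_nat_mul]
    have : ((4 : ℕ) : ℂ) * -(I * Real.pi / 8) = -(Real.pi / 2 * I) := by push_cast; ring
    rw [this, Complex.exp_neg, exp_pi_div_two_mul_I, inv_I]
  have hq : ((Real.exp (-(Real.pi * t)) : ℝ) : ℂ) = (v ^ 4)⁻¹ := by
    rw [hv, ← Complex.exp_nat_mul, ← Complex.exp_neg, ofReal_exp]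
    congr 1; push_cast; ring
  have hsin : sin (Real.pi * (1 / 4 - I * t / 2)) = ((u * v⁻¹) ^ 2 - (u⁻¹ * v) ^ 2) * I / 2 := by
    rw [Complex.sin, hu, hv, ← Complex.exp_neg, ← Complex.exp_neg, ← Complex.exp_add,
      ← Complex.exp_add, ← Complex.exp_nat_mul, ← Complex.exp_nat_mul]
    congr 3
    · congr 1; push_cast; linear_combination (Real.pi * t / 2 : ℂ) * I_mul_I
    · congr 1; push_cast; linear_combination (-(Real.pi * t / 2) : ℂ) * I_mul_I
  have hs2 : ((Real.sqrt 2 : ℝ) : ℂ) ^ 2 = 2 := by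
    rw [← ofReal_pow, Real.sq_sqrt (by norm_num)]; norm_num
  have hpi : ((Real.pi : ℂ) ^ (-(1 / 2 + I * t / 2))) ^ 2 =
      (Real.pi : ℂ)⁻¹ * ((Real.pi : ℂ) ^ (-(I * t / 2))) ^ 2 := by
    rw [sq, sq, ← cpow_add _ _ b_pi_ne, ← cpow_add _ _ b_pi_ne, ← cpow_neg_one,
      ← cpow_add _ _ b_pi_ne]
    congr 1; ring
  have hE : (Real.pi : ℂ) ^ (-(I * t / 2)) ≠ 0 := by
    rw [b_cpow]; exact exp_ne_zero _
  have hA := b_ne_quarter t
  have hB := b_ne_three t
  have hC : Gamma (1 / 4 - I * t / 2) ≠ 0 := Gamma_ne_zero_of_re_pos (by simp)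
  have hsin0 : sin (Real.pi * (1 / 4 - I * t / 2)) ≠ 0 := by
    intro h
    rw [h, div_zero] at h1
    exact mul_ne_zero hC hB h1
  have h4 : Gamma (1 / 4 - I * t / 2) * Gamma (3 / 4 + I * t / 2) *
      sin (Real.pi * (1 / 4 - I * t / 2)) = Real.pi := by
    rw [h1, div_mul_cancel₀ _ hsin0]
  have hsin' : sin (Real.pi * (1 / 4 - I * t / 2)) =
      u ^ 2 * v ^ 2 * (1 + I * (v ^ 4)⁻¹) / 2 := by
    rw [hsin]
    field_simp
    linear_combination (-v ^ 4) * hu4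
  unfold b_w b_P Mf hardyPhase
  rw [← hu, ← hv, hq]
  simp only [div_pow, mul_pow, inv_pow]
  rw [h3, hs2, hpi]
  rw [hsin'] at h4
  have hpi0 := b_pi_ne
  generalize (Real.pi : ℂ) ^ (-(I * t / 2)) = E at hE
  generalize Gamma (1 / 4 - I * t / 2) = C at *
  generalize Gamma (1 / 4 + I * t / 2) = A at *
  generalize Gamma (3 / 4 + I * t / 2) = B at *
  generalize Gamma (1 / 2 + I * t / 2) = G at *
  generalize (1 + I * (v ^ 4)⁻¹) = Q at *
  rw [← h4]
  have hQ : Q ≠ 0 := by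
    intro h
    rw [h] at h4
    apply hpi0
    rw [← h4]; ring
  field_simp

theorem b_re_sq (t : ℝ) (ht : 0 ≤ t) : 1 / 4 ≤ (b_w t).re ^ 2 := by
  have h1 := b_w_sq t
  have h2 := b_normSq_w t
  have h3 := b_P_half t
  set q := Real.exp (-(Real.pi * t)) with hq
  have hq0 : 0 < q := Real.exp_pos _
  have hq1 : q ≤ 1 := by
    rw [hq, Real.exp_le_one_iff]
    have := mul_nonneg Real.pi_pos.le ht
    linarith
  have h4 : |(b_P t - 1).re| ≤ 1 / 2 := (abs_re_le_norm _).trans h3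
  have h5 : |(b_P t - 1).im| ≤ 1 / 2 := (abs_im_le_norm _).trans h3
  rw [← h1] at h4 h5
  rw [← normSq_eq_norm_sq, normSq_apply] at h2
  generalize b_w t = w at *
  simp [sq] at h4 h5
  rw [abs_le] at h4 h5
  obtain ⟨h4, -⟩ := h4
  obtain ⟨h5, -⟩ := h5
  have h6 : 1 / 2 ≤ w.re * w.re + w.im * w.im := by
    rw [h2, div_le_div_iff₀ (by norm_num) (by positivity)]; linarith
  have h7 : 0 ≤ (w.re * w.re - w.im * w.im) * (1 + q ^ 2) := by nlinarith
  have h8 : 0 ≤ w.re * w.re - w.im * w.im := by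
    by_contra hc
    push Not at hc
    have : (w.re * w.re - w.im * w.im) * (1 + q ^ 2) < 0 := mul_neg_of_neg_of_pos hc (by positivity)
    linarith
  nlinarith

theorem b_re_zero : 0 < (b_w 0).re := by
  have hq : Gamma (1 / 4 + I * (0 : ℝ) / 2) = (Real.Gamma (1 / 4) : ℂ) := by
    rw [← Gamma_ofReal]; congr 1; push_cast; ring
  have hh : Gamma (1 / 2 + I * (0 : ℝ) / 2) = (Real.Gamma (1 / 2) : ℂ) := by
    rw [← Gamma_ofReal]; congr 1; push_cast; ring
  have hq0 : 0 < Real.Gamma (1 / 4) := Real.Gamma_pos_of_pos (by norm_num)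
  have hh0 : 0 < Real.Gamma (1 / 2) := Real.Gamma_pos_of_pos (by norm_num)
  have h1 : hardyPhase 0 = 1 := by
    unfold hardyPhase
    rw [hq, norm_real, Real.norm_eq_abs, abs_of_pos hq0]
    have : (-(I * (0 : ℝ) / 2) : ℂ) = 0 := by simp
    rw [this, cpow_zero, one_mul, div_self (ofReal_ne_zero.mpr hq0.ne')]
  have h2 : Mf 0 = (((Real.sqrt 2)⁻¹ * Real.Gamma (1 / 2) *
      Real.exp (-(Real.log Real.pi / 2)) : ℝ) : ℂ) * cexp (((-(Real.pi / 8) : ℝ) : ℂ) * I) := by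
    unfold Mf
    rw [hh, b_cpow]
    have e1 : (Real.log Real.pi : ℂ) * -(1 / 2 + I * (0 : ℝ) / 2) =
        ((-(Real.log Real.pi / 2) : ℝ) : ℂ) := by
      rw [ofReal_neg, ofReal_div]; push_cast; ring
    have e2 : (-(I * Real.pi / 8) : ℂ) = ((-(Real.pi / 8) : ℝ) : ℂ) * I := by push_cast; ring
    have e3 : ((Real.pi : ℂ) * (0 : ℝ) / 4) = 0 := by simp
    rw [e1, e2, e3, Complex.exp_zero, ← ofReal_exp, ofReal_mul, ofReal_mul, ofReal_inv]
    ring
  unfold b_w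
  rw [h1, div_one, h2, re_ofReal_mul, exp_ofReal_mul_I_re]
  have h3 : 0 < Real.cos (-(Real.pi / 8)) := by
    apply Real.cos_pos_of_mem_Ioo
    constructor <;> linarith [Real.pi_pos]
  positivity

theorem b_re_half (t : ℝ) (ht : 0 ≤ t) : 1 / 2 ≤ (b_w t).re := by
  have hc : Continuous fun s : ℝ => (b_w s).re := continuous_re.comp b_continuous_w
  have hpos : 0 < (b_w t).re := by
    by_contra hn
    push Not at hn
    have := intermediate_value_Icc' ht hc.continuousOn (a := 0) (b := t)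
    obtain ⟨s, hs, hs0⟩ := this (show (0 : ℝ) ∈ Set.Icc (b_w t).re (b_w 0).re from
      ⟨hn, b_re_zero.le⟩)
    have h := b_re_sq s hs.1
    simp only at hs0
    rw [hs0] at h
    norm_num at h
  have := b_re_sq t ht
  nlinarith

theorem b_re_le_one (t : ℝ) : (b_w t).re ≤ 1 := by
  have h1 := b_normSq_w t
  have h2 : 1 / (1 + Real.exp (-(Real.pi * t))) ≤ 1 := by
    rw [div_le_one (by positivity)]
    linarith [Real.exp_pos (-(Real.pi * t))]
  have h3 := re_le_norm (b_w t)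
  have h4 := norm_nonneg (b_w t)
  nlinarith

theorem eps_bound_half (t : ℝ) (ht : 0 ≤ t) : |eps t| ≤ 1 / 2 := by
  have h1 := b_re_half t ht
  have h2 := b_re_le_one t
  have h3 : eps t = 1 - (b_w t).re := rfl
  rw [h3, abs_le]
  constructor <;> linarith

theorem b_q_bound (t : ℝ) (ht : 1 ≤ t) : Real.exp (-(Real.pi * t)) ≤ 0.05 / t ^ 2 := by
  have ht0 : 0 < t := by linarith
  have h1 : Real.exp (-(Real.pi * t)) ≤ Real.exp (-(3 * t)) := by
    rw [Real.exp_le_exp]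
    nlinarith [Real.pi_gt_three]
  refine h1.trans ?_
  have h2 : 20 ≤ Real.exp 3 := by
    have h := Real.exp_one_gt_d9
    have e : Real.exp 3 = Real.exp 1 ^ 3 := by rw [← Real.exp_nat_mul]; norm_num
    rw [e]
    have : (2.7182818283 : ℝ) ^ 3 ≤ Real.exp 1 ^ 3 := pow_le_pow_left₀ (by norm_num) h.le 3
    norm_num at this ⊢
    linarith
  have h3 : t ≤ Real.exp (3 / 2 * (t - 1)) := by
    have := Real.add_one_le_exp (3 / 2 * (t - 1))
    linarith
  have h4 : Real.exp (3 * t) = Real.exp 3 * Real.exp (3 / 2 * (t - 1)) ^ 2 := by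
    rw [← Real.exp_nat_mul, ← Real.exp_add]; congr 1; push_cast; ring
  have h5 : t ^ 2 ≤ Real.exp (3 / 2 * (t - 1)) ^ 2 := pow_le_pow_left₀ ht0.le h3 2
  have h6 : 20 * t ^ 2 ≤ Real.exp (3 * t) := by
    rw [h4]
    exact mul_le_mul h2 h5 (by positivity) (by positivity)
  rw [Real.exp_neg, inv_eq_one_div, div_le_div_iff₀ (by positivity) (by positivity)]
  linarith

theorem eps_bound_sq (t : ℝ) (ht : 1 ≤ t) : |eps t| ≤ 0.06 / t ^ 2 := by
  have ht0 : 0 < t := by linarith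
  have h1 := b_re_half t ht0.le
  have h2 := b_re_le_one t
  have h3 : eps t = 1 - (b_w t).re := rfl
  have h4 := b_w_sq t
  have h5 := b_normSq_w t
  have h6 := b_P_large t ht
  have h7 := b_q_bound t ht
  set q := Real.exp (-(Real.pi * t)) with hq
  have hq0 : 0 < q := Real.exp_pos _
  generalize b_w t = w at *
  have hw1 : ‖w‖ ^ 2 ≤ 1 := by
    rw [h5, div_le_one (by positivity)]; linarith
  have hw2 : 1 - q ≤ ‖w‖ ^ 2 := by
    rw [h5, le_div_iff₀ (by positivity)]; nlinarith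
  have hD : ‖w ^ 2 - 1‖ ≤ 1 / (3 * t) + q := by
    have e : w ^ 2 - 1 = (b_P t - 1) - w ^ 2 * (I * q) := by rw [← h4]; ring
    rw [e]
    refine (norm_sub_le _ _).trans (add_le_add h6 ?_)
    rw [norm_mul, norm_mul, norm_pow, norm_I, one_mul, norm_real, Real.norm_eq_abs, abs_of_pos hq0]
    nlinarith
  have hp : 3 / 2 ≤ ‖w + 1‖ := by
    have := re_le_norm (w + 1)
    simp at this
    linarith
  have hm : ‖w - 1‖ * (3 / 2) ≤ 1 / (3 * t) + q := by
    have e : w ^ 2 - 1 = (w - 1) * (w + 1) := by ring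
    rw [e, norm_mul] at hD
    exact (mul_le_mul_of_nonneg_left hp (norm_nonneg _)).trans hD
  have hq2 : q ≤ 0.05 / t := by
    refine h7.trans ?_
    rw [div_le_div_iff₀ (by positivity) (by positivity)]
    nlinarith
  have hm2 : ‖w - 1‖ ≤ 0.256 / t := by
    have e1 : 1 / (3 * t) = 1 / 3 * (1 / t) := by field_simp
    have e2 : 0.05 / t = 0.05 * (1 / t) := by ring
    have e3 : 0.256 / t = 0.256 * (1 / t) := by ring
    have : 0 < 1 / t := by positivity
    rw [e3]; rw [e1] at hm; rw [e2] at hq2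
    linarith
  have hm3 : ‖w - 1‖ ^ 2 ≤ (0.256 / t) ^ 2 := pow_le_pow_left₀ (norm_nonneg _) hm2 2
  have hid : ‖w - 1‖ ^ 2 = ‖w‖ ^ 2 - 2 * w.re + 1 := by
    rw [← normSq_eq_norm_sq, ← normSq_eq_norm_sq, normSq_apply, normSq_apply]
    simp
    ring
  have e4 : (0.256 / t) ^ 2 = 0.065536 * (1 / t ^ 2) := by field_simp; norm_num
  have e5 : 0.05 / t ^ 2 = 0.05 * (1 / t ^ 2) := by ring
  have e6 : 0.06 / t ^ 2 = 0.06 * (1 / t ^ 2) := by ring
  have h8 : 0 < 1 / t ^ 2 := by positivity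
  rw [h3, abs_le, e6]
  rw [e4] at hm3
  rw [e5] at h7
  constructor <;> linarith

end Pool.Agent.MP_6f2ed2_nt.H1
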