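import Pool.Agent.MP_6f2ed2_nt.H1.Zeta
import Pool.Agent.MP_6f2ed2_nt.H1.GammaRatio

/-! Final assembly: from the main estimate to the linear drift of `G`. -/

namespace Pool.Agent.MP_6f2ed2_nt.H1
open Complex Filter Asymptotics MeasureTheory Set

theorem continuous_hardyZ : Continuous hardyZ :=
  Complex.continuous_re.comp (continuous_hardyPhase.mul continuous_zeta_line)

/-- the integrand of the main estimate -/
noncomputable def f_f (t : ℝ) : ℂ := riemannZeta (1 / 2 + I * t) * Mf t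

/-- the defect -/
noncomputable def f_phi (t : ℝ) : ℝ := hardyZ t * eps t - (f_f (-t)).re

theorem f_cont_f : Continuous f_f := continuous_zeta_line.mul continuous_Mf

theorem f_phase_ne (t : ℝ) : hardyPhase t ≠ 0 := by
  intro h
  have := norm_hardyPhase t
  rw [h, norm_zero] at this
  exact zero_ne_one this

theorem f_cont_eps : Continuous eps :=
  continuous_const.sub (Complex.continuous_re.comp
    (continuous_Mf.div continuous_hardyPhase f_phase_ne))

theorem f_cont_phi : Continuous f_phi :=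
  (continuous_hardyZ.mul f_cont_eps).sub
    (Complex.continuous_re.comp (f_cont_f.comp continuous_neg))

theorem f_re (t : ℝ) : (f_f t).re = hardyZ t * (1 - eps t) := by
  have h1 : hardyPhase t * riemannZeta (1 / 2 + I * t) = (hardyZ t : ℂ) := by
    apply Complex.ext
    · simp [hardyZ]
    · rw [phase_zeta_im]; simp
  have h2 : f_f t = (hardyZ t : ℂ) * (Mf t / hardyPhase t) := by
    rw [← h1, f_f]
    field_simp [f_phase_ne t]
  rw [h2, eps, Complex.re_ofReal_mul]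
  ring

theorem f_Z_eq (t : ℝ) : hardyZ t = (f_f t + f_f (-t)).re + f_phi t := by
  rw [Complex.add_re, f_re, f_phi]; ring

theorem f_abs_Z (t : ℝ) : |hardyZ t| ≤ ‖riemannZeta (1 / 2 + I * t)‖ := by
  have h := Complex.abs_re_le_norm (hardyPhase t * riemannZeta (1 / 2 + I * t))
  rw [norm_mul, norm_hardyPhase, one_mul] at h
  exact h

theorem f_G_eq (T : ℝ) : hardyG T = ∫ t in (0 : ℝ)..T, (T - t) * hardyZ t := by
  have hF : ∀ x : ℝ, HasDerivAt hardyF (hardyZ x) x := fun x =>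
    (continuous_hardyZ.integral_hasStrictDerivAt 0 x).hasDerivAt
  have hu : ∀ x ∈ uIcc (0 : ℝ) T, HasDerivAt (fun t : ℝ => T - t) (-1) x := fun x _ => by
    simpa using (hasDerivAt_id x).const_sub T
  have h := intervalIntegral.integral_mul_deriv_eq_deriv_mul hu (fun x _ => hF x)
    (continuous_const.intervalIntegrable _ _) (continuous_hardyZ.intervalIntegrable _ _)
  rw [h]
  have h0 : hardyF 0 = 0 := by simp [hardyF]
  simp [h0, hardyG]

theorem f_G_split (T : ℝ) : hardyG T =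
    (∫ t in (0 : ℝ)..T, ((T - t : ℝ) : ℂ) * (f_f t + f_f (-t))).re +
      ∫ t in (0 : ℝ)..T, (T - t) * f_phi t := by
  have hc : Continuous fun t : ℝ => ((T - t : ℝ) : ℂ) * (f_f t + f_f (-t)) :=
    (Complex.continuous_ofReal.comp (continuous_const.sub continuous_id)).mul
      (f_cont_f.add (f_cont_f.comp continuous_neg))
  have h1 := Complex.reCLM.intervalIntegral_comp_comm (μ := volume) (hc.intervalIntegrable 0 T)
  simp only [Complex.reCLM_apply] at h1
  have hc1 : Continuous fun t : ℝ => (((T - t : ℝ) : ℂ) * (f_f t + f_f (-t))).re :=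
    Complex.continuous_re.comp hc
  have hc2 : Continuous fun t : ℝ => (T - t) * f_phi t :=
    (continuous_const.sub continuous_id).mul f_cont_phi
  rw [← h1, f_G_eq, ← intervalIntegral.integral_add (hc1.intervalIntegrable _ _)
    (hc2.intervalIntegrable _ _)]
  congr 1
  funext t
  rw [Complex.re_ofReal_mul, f_Z_eq t]
  ring

theorem f_norm_Mf_neg (t : ℝ) : ‖Mf (-t)‖ ≤ Real.exp (-(Real.pi * t / 2)) := by
  have h := normSq_Mf (-t)
  have h2 : ‖Mf (-t)‖ ^ 2 ≤ Real.exp (-(Real.pi * t / 2)) ^ 2 := by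
    rw [h, ← Real.exp_nat_mul]
    have e1 : -(Real.pi * -t) = Real.pi * t := by ring
    have e2 : ((2 : ℕ) : ℝ) * -(Real.pi * t / 2) = -(Real.pi * t) := by push_cast; ring
    rw [e1, e2, Real.exp_neg, one_div]
    exact inv_anti₀ (Real.exp_pos _) (by linarith)
  exact (pow_le_pow_iff_left₀ (norm_nonneg _) (Real.exp_pos _).le two_ne_zero).mp h2

theorem f_lin_exp (t : ℝ) (ht : 0 ≤ t) :
    (2 + t) * Real.exp (-(Real.pi * t / 2)) ≤ 2.16 * Real.exp (-1.2 * t) := by
  have h1 : (t - 1) / 3 + 1 ≤ Real.exp ((t - 1) / 3) := Real.add_one_le_exp _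
  have h2 : Real.exp (-(1 / 3)) ≤ 0.72 := by
    have h3 := Real.quadratic_le_exp_of_nonneg (x := 1 / 3) (by norm_num)
    rw [Real.exp_neg, inv_le_comm₀ (Real.exp_pos _) (by norm_num)]
    norm_num at h3 ⊢
    linarith
  have h4 : Real.exp ((t - 1) / 3) * Real.exp (-(Real.pi * t / 2)) ≤
      Real.exp (-(1 / 3)) * Real.exp (-1.2 * t) := by
    rw [← Real.exp_add, ← Real.exp_add]
    apply Real.exp_le_exp.mpr
    have := Real.pi_gt_d2
    nlinarith
  have h5 := Real.exp_pos (-(Real.pi * t / 2))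
  have h6 := Real.exp_pos (-1.2 * t)
  calc (2 + t) * Real.exp (-(Real.pi * t / 2))
      ≤ 3 * Real.exp ((t - 1) / 3) * Real.exp (-(Real.pi * t / 2)) := by
        apply mul_le_mul_of_nonneg_right _ h5.le
        linarith
    _ ≤ 3 * (Real.exp (-(1 / 3)) * Real.exp (-1.2 * t)) := by
        rw [mul_assoc]; linarith
    _ ≤ 2.16 * Real.exp (-1.2 * t) := by nlinarith

theorem f_neg_part (t : ℝ) (ht : 0 ≤ t) : |(f_f (-t)).re| ≤ 2.16 * Real.exp (-1.2 * t) := by
  refine (Complex.abs_re_le_norm _).trans ?_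
  rw [f_f, norm_mul]
  have h1 := zeta_bound_lin (-t)
  rw [abs_neg, abs_of_nonneg ht] at h1
  exact (mul_le_mul h1 (f_norm_Mf_neg t) (norm_nonneg _) (by linarith)).trans (f_lin_exp t ht)

theorem f_small (t : ℝ) (ht : 0 ≤ t) : |hardyZ t * eps t| ≤ (2 + t) / 2 := by
  rw [abs_mul]
  have h1 := (f_abs_Z t).trans (zeta_bound_lin t)
  rw [abs_of_nonneg ht] at h1
  have := mul_le_mul h1 (eps_bound_half t ht) (abs_nonneg _) (by linarith)
  linarith

theorem f_large (t : ℝ) (ht : 1 ≤ t) : |hardyZ t * eps t| ≤ 0.42 * t ^ (-(3 / 2) : ℝ) := by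
  rw [abs_mul]
  have ht0 : 0 < t := by linarith
  have h1 := (f_abs_Z t).trans (zeta_bound_sqrt t (by rw [abs_of_pos ht0]; exact ht))
  rw [abs_of_pos ht0] at h1
  have h2 := mul_le_mul h1 (eps_bound_sq t ht) (abs_nonneg _) (by positivity)
  refine h2.trans (le_of_eq ?_)
  have e : t ^ (-(3 / 2) : ℝ) = Real.sqrt t / t ^ 2 := by
    rw [Real.sqrt_eq_rpow, ← Real.rpow_two, ← Real.rpow_sub ht0]
    norm_num
  rw [e]; ring

theorem f_phi_large (t : ℝ) (ht : 1 ≤ t) : |f_phi t| ≤ 5 * t ^ (-(3 / 2) : ℝ) := by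
  have ht0 : 0 < t := by linarith
  have h1 := f_large t ht
  have h2 := f_neg_part t ht0.le
  have h3 : Real.exp (-1.2 * t) ≤ 2 * t ^ (-(3 / 2) : ℝ) := by
    have h4 := Real.quadratic_le_exp_of_nonneg ht0.le
    have h5 : Real.exp (-1.2 * t) ≤ Real.exp (-t) := Real.exp_le_exp.mpr (by nlinarith)
    have h6 : t ^ (-2 : ℝ) ≤ t ^ (-(3 / 2) : ℝ) :=
      Real.rpow_le_rpow_of_exponent_le ht (by norm_num)
    have h7 : Real.exp (-t) ≤ 2 * t ^ (-2 : ℝ) := by
      rw [Real.exp_neg, Real.rpow_neg ht0.le, Real.rpow_two, ← div_eq_mul_inv,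
        inv_eq_one_div, div_le_div_iff₀ (Real.exp_pos _) (by positivity)]
      nlinarith
    linarith
  have h8 : 0 ≤ t ^ (-(3 / 2) : ℝ) := by positivity
  have := abs_sub (hardyZ t * eps t) (f_f (-t)).re
  rw [f_phi]
  nlinarith

theorem f_union : Ioc (0 : ℝ) 1 ∪ Ioi 1 = Ioi 0 := Ioc_union_Ioi_eq_Ioi zero_le_one

theorem f_int_weight : IntegrableOn (fun t : ℝ => t ^ (1 / 4 : ℝ) * |f_phi t|) (Ioi 0) := by
  have hc : Continuous fun t : ℝ => t ^ (1 / 4 : ℝ) * |f_phi t| :=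
    (Real.continuous_rpow_const (by norm_num)).mul f_cont_phi.abs
  rw [← f_union]
  refine IntegrableOn.union (hc.integrableOn_Icc.mono_set Ioc_subset_Icc_self) ?_
  have hi : IntegrableOn (fun t : ℝ => 5 * t ^ (-(5 / 4) : ℝ)) (Ioi 1) :=
    (integrableOn_Ioi_rpow_of_lt (by norm_num) one_pos).const_mul 5
  refine Integrable.mono' hi hc.aestronglyMeasurable ?_
  refine (ae_restrict_iff' measurableSet_Ioi).mpr (Eventually.of_forall fun t ht => ?_)
  have ht1 : (1 : ℝ) < t := ht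
  have ht0 : 0 < t := by linarith
  rw [Real.norm_eq_abs, abs_of_nonneg (by positivity)]
  have h := f_phi_large t ht1.le
  have e : t ^ (-(5 / 4) : ℝ) = t ^ (1 / 4 : ℝ) * t ^ (-(3 / 2) : ℝ) := by
    rw [← Real.rpow_add ht0]; norm_num
  rw [e]
  have : 0 ≤ t ^ (1 / 4 : ℝ) := by positivity
  nlinarith

theorem f_int_large (g : ℝ → ℝ) (hg : Continuous g) (K : ℝ)
    (h : ∀ t, 1 ≤ t → |g t| ≤ K * t ^ (-(3 / 2) : ℝ)) : IntegrableOn g (Ioi 1) := by
  have hi : IntegrableOn (fun t : ℝ => K * t ^ (-(3 / 2) : ℝ)) (Ioi 1) :=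
    (integrableOn_Ioi_rpow_of_lt (by norm_num) one_pos).const_mul K
  refine Integrable.mono' hi hg.aestronglyMeasurable ?_
  exact (ae_restrict_iff' measurableSet_Ioi).mpr (Eventually.of_forall fun t ht =>
    h t (le_of_lt ht))

theorem f_int_phi : IntegrableOn f_phi (Ioi 0) := by
  rw [← f_union]
  exact IntegrableOn.union (f_cont_phi.integrableOn_Icc.mono_set Ioc_subset_Icc_self)
    (f_int_large _ f_cont_phi 5 f_phi_large)

theorem f_integral_le : ∫ t in Ioi (0 : ℝ), f_phi t ≤ 3.89 := by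
  have hcA : Continuous fun t : ℝ => hardyZ t * eps t := continuous_hardyZ.mul f_cont_eps
  have hA1 : IntegrableOn (fun t : ℝ => hardyZ t * eps t) (Ioc 0 1) :=
    hcA.integrableOn_Icc.mono_set Ioc_subset_Icc_self
  have hA2 : IntegrableOn (fun t : ℝ => hardyZ t * eps t) (Ioi 1) :=
    f_int_large _ hcA 0.42 f_large
  have hA : IntegrableOn (fun t : ℝ => hardyZ t * eps t) (Ioi 0) := by
    rw [← f_union]; exact hA1.union hA2
  have hE : IntegrableOn (fun t : ℝ => 2.16 * Real.exp (-1.2 * t)) (Ioi 0) :=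
    (integrableOn_exp_mul_Ioi (by norm_num) 0).const_mul _
  have h1 : ∫ t in Ioi (0 : ℝ), f_phi t ≤
      ∫ t in Ioi (0 : ℝ), (hardyZ t * eps t + 2.16 * Real.exp (-1.2 * t)) := by
    refine setIntegral_mono_on f_int_phi (hA.add hE) measurableSet_Ioi fun t ht => ?_
    have := f_neg_part t (le_of_lt ht)
    have := neg_abs_le (f_f (-t)).re
    rw [f_phi]
    linarith
  rw [integral_add hA hE, integral_const_mul, integral_exp_mul_Ioi (by norm_num) 0] at h1
  have h2 : ∫ t in Ioi (0 : ℝ), hardyZ t * eps t =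
      (∫ t in Ioc (0 : ℝ) 1, hardyZ t * eps t) + ∫ t in Ioi (1 : ℝ), hardyZ t * eps t := by
    rw [← f_union, setIntegral_union (Ioc_disjoint_Ioi le_rfl) measurableSet_Ioi hA1 hA2]
  have h3 : ∫ t in Ioc (0 : ℝ) 1, hardyZ t * eps t ≤ 1.25 := by
    have hc : Continuous fun t : ℝ => (2 + t) / 2 := by fun_prop
    have h4 : ∫ t in Ioc (0 : ℝ) 1, hardyZ t * eps t ≤ ∫ t in Ioc (0 : ℝ) 1, (2 + t) / 2 :=
      setIntegral_mono_on hA1 (hc.integrableOn_Icc.mono_set Ioc_subset_Icc_self)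
        measurableSet_Ioc fun t ht => (le_abs_self _).trans (f_small t ht.1.le)
    refine h4.trans (le_of_eq ?_)
    rw [← intervalIntegral.integral_of_le zero_le_one, intervalIntegral.integral_div,
      intervalIntegral.integral_add (by simp) (by simp)]
    simp
    norm_num
  have h5 : ∫ t in Ioi (1 : ℝ), hardyZ t * eps t ≤ 0.84 := by
    have hi : IntegrableOn (fun t : ℝ => 0.42 * t ^ (-(3 / 2) : ℝ)) (Ioi 1) :=
      (integrableOn_Ioi_rpow_of_lt (by norm_num) one_pos).const_mul _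
    have h4 : ∫ t in Ioi (1 : ℝ), hardyZ t * eps t ≤
        ∫ t in Ioi (1 : ℝ), 0.42 * t ^ (-(3 / 2) : ℝ) :=
      setIntegral_mono_on hA2 hi measurableSet_Ioi fun t ht =>
        (le_abs_self _).trans (f_large t (le_of_lt ht))
    refine h4.trans (le_of_eq ?_)
    rw [integral_const_mul, integral_Ioi_rpow_of_lt (by norm_num) one_pos]
    norm_num
  norm_num at h1 h2 h3 h5 ⊢
  linarith

theorem f_min_le (t T : ℝ) (ht : 0 < t) (hT : 0 < T) :
    min t T ≤ T ^ (3 / 4 : ℝ) * t ^ (1 / 4 : ℝ) := by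
  have hm : 0 < min t T := lt_min ht hT
  have e : min t T = (min t T) ^ (3 / 4 : ℝ) * (min t T) ^ (1 / 4 : ℝ) := by
    rw [← Real.rpow_add hm]; norm_num
  rw [e]
  exact mul_le_mul (Real.rpow_le_rpow hm.le (min_le_right _ _) (by norm_num))
    (Real.rpow_le_rpow hm.le (min_le_left _ _) (by norm_num)) (by positivity) (by positivity)

theorem f_tail (T : ℝ) (hT : 0 < T) :
    |(∫ t in (0 : ℝ)..T, (T - t) * f_phi t) - (∫ t in Ioi (0 : ℝ), f_phi t) * T| ≤
      (∫ t in Ioi (0 : ℝ), t ^ (1 / 4 : ℝ) * |f_phi t|) * T ^ (3 / 4 : ℝ) := by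
  have hcm : Continuous fun t : ℝ => min t T * f_phi t :=
    (continuous_id.min continuous_const).mul f_cont_phi
  have hW := f_int_weight.const_mul (T ^ (3 / 4 : ℝ))
  have hb : ∀ t ∈ Ioi (0 : ℝ), ‖min t T * f_phi t‖ ≤
      T ^ (3 / 4 : ℝ) * (t ^ (1 / 4 : ℝ) * |f_phi t|) := fun t ht => by
    have ht0 : 0 < t := ht
    rw [Real.norm_eq_abs, abs_mul, abs_of_pos (lt_min ht0 hT), ← mul_assoc]
    exact mul_le_mul_of_nonneg_right (f_min_le t T ht0 hT) (abs_nonneg _)
  have hb' := (ae_restrict_iff' (μ := volume) measurableSet_Ioi).mpr (Eventually.of_forall hb)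
  have hm : IntegrableOn (fun t : ℝ => min t T * f_phi t) (Ioi 0) :=
    Integrable.mono' hW hcm.aestronglyMeasurable hb'
  have hTi : IntegrableOn (fun t : ℝ => T * f_phi t) (Ioi 0) := f_int_phi.const_mul T
  have hD : IntegrableOn (fun t : ℝ => T * f_phi t - min t T * f_phi t) (Ioi 0) := hTi.sub hm
  have hU : Ioc (0 : ℝ) T ∪ Ioi T = Ioi 0 := Ioc_union_Ioi_eq_Ioi hT.le
  have h1 : ∫ t in Ioi (0 : ℝ), (T * f_phi t - min t T * f_phi t) =
      ∫ t in (0 : ℝ)..T, (T - t) * f_phi t := by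
    rw [← hU, setIntegral_union (Ioc_disjoint_Ioi le_rfl) measurableSet_Ioi
      (hD.mono_set (hU ▸ subset_union_left)) (hD.mono_set (hU ▸ subset_union_right)),
      intervalIntegral.integral_of_le hT.le]
    have h2 : ∫ t in Ioi T, (T * f_phi t - min t T * f_phi t) = 0 := by
      refine setIntegral_eq_zero_of_forall_eq_zero fun t ht => ?_
      rw [min_eq_right (le_of_lt ht), sub_self]
    rw [h2, add_zero]
    refine setIntegral_congr_fun measurableSet_Ioc fun t ht => ?_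
    rw [min_eq_left ht.2]; ring
  rw [integral_sub hTi hm, integral_const_mul] at h1
  have h3 := norm_integral_le_of_norm_le hW hb'
  rw [integral_const_mul, Real.norm_eq_abs] at h3
  rw [← h1]
  have e : T * (∫ t in Ioi (0 : ℝ), f_phi t) - (∫ t in Ioi (0 : ℝ), min t T * f_phi t) -
      (∫ t in Ioi (0 : ℝ), f_phi t) * T = -∫ t in Ioi (0 : ℝ), min t T * f_phi t := by ring
  rw [e, abs_neg, mul_comm]
  exact h3

theorem assemble (L C : ℝ) (hL : L ≤ -3.9)
    (hmain : ∀ T : ℝ, 2 * Real.pi ≤ T →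
      |(∫ t in (0 : ℝ)..T, ((T - t : ℝ) : ℂ) *
          (riemannZeta (1 / 2 + I * t) * Mf t +
            riemannZeta (1 / 2 + I * (-t : ℝ)) * Mf (-t))).re - L * T| ≤ C * T ^ (3 / 4 : ℝ)) :
    ∃ c : ℝ, c < 0 ∧ (fun T : ℝ => hardyG T - c * T) =O[atTop] fun T : ℝ => T ^ (3 / 4 : ℝ) := by
  refine ⟨L + ∫ t in Ioi (0 : ℝ), f_phi t, by have := f_integral_le; linarith, ?_⟩
  refine IsBigO.of_bound (C + ∫ t in Ioi (0 : ℝ), t ^ (1 / 4 : ℝ) * |f_phi t|) ?_
  filter_upwards [eventually_ge_atTop (2 * Real.pi)] with T hT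
  have hT0 : 0 < T := lt_of_lt_of_le (by positivity) hT
  have h1 : |(∫ t in (0 : ℝ)..T, ((T - t : ℝ) : ℂ) * (f_f t + f_f (-t))).re - L * T| ≤
      C * T ^ (3 / 4 : ℝ) := hmain T hT
  have h2 := f_tail T hT0
  rw [Real.norm_eq_abs, Real.norm_eq_abs, abs_of_nonneg (by positivity : 0 ≤ T ^ (3 / 4 : ℝ)),
    f_G_split]
  have e : (∫ t in (0 : ℝ)..T, ((T - t : ℝ) : ℂ) * (f_f t + f_f (-t))).re +
      (∫ t in (0 : ℝ)..T, (T - t) * f_phi t) - (L + ∫ t in Ioi (0 : ℝ), f_phi t) * T =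
      ((∫ t in (0 : ℝ)..T, ((T - t : ℝ) : ℂ) * (f_f t + f_f (-t))).re - L * T) +
      ((∫ t in (0 : ℝ)..T, (T - t) * f_phi t) - (∫ t in Ioi (0 : ℝ), f_phi t) * T) := by ring
  rw [e, add_mul]
  exact (abs_add_le _ _).trans (add_le_add h1 h2)

end Pool.Agent.MP_6f2ed2_nt.H1
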