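import Mathlib

/-! Hardy's function and its first two primitives. -/

namespace Pool.Agent.MP_6f2ed2_nt.H1

open Complex

/-- The unimodular factor `exp (i θ(t)) = π^(-i t/2) Γ(1/4 + i t/2) / |Γ(1/4 + i t/2)|`. -/
noncomputable def hardyPhase (t : ℝ) : ℂ :=
  (Real.pi : ℂ) ^ (-(I * t / 2)) * Gamma (1 / 4 + I * t / 2) / (‖Gamma (1 / 4 + I * t / 2)‖ : ℂ)

/-- Hardy's function `Z(t) = exp (i θ(t)) ζ(1/2 + i t)` (a real number). -/
noncomputable def hardyZ (t : ℝ) : ℝ :=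
  (hardyPhase t * riemannZeta (1 / 2 + I * t)).re

/-- `F(T) = ∫_0^T Z(t) dt`. -/
noncomputable def hardyF (T : ℝ) : ℝ := ∫ t in (0 : ℝ)..T, hardyZ t

/-- `G(T) = ∫_0^T F(t) dt`. -/
noncomputable def hardyG (T : ℝ) : ℝ := ∫ t in (0 : ℝ)..T, hardyF t

end Pool.Agent.MP_6f2ed2_nt.H1
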