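import Pool.Agent.MP_6f2ed2_nt.H1.Smooth
import Pool.Agent.MP_6f2ed2_nt.H1.GammaRatio

/-! Integral representation of the smoothed averages. -/

namespace Pool.Agent.MP_6f2ed2_nt.H1

open Complex MeasureTheory Set Filter Topology

/-- `ν ^ (-s)` on the critical line -/
noncomputable def pw (ν t : ℝ) : ℂ := cexp (-(1 / 2 + I * t) * Real.log ν)

/-- constant -/
noncomputable def c1 : ℂ := ((Real.sqrt 2 : ℂ))⁻¹ * cexp (-(I * Real.pi / 8))

/-- real weight -/
noncomputable def Fw (ν u : ℝ) : ℝ := √ν * Real.exp (u / 2 - Real.pi * ν ^ 2 * Real.exp u)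

/-- point on the line -/
noncomputable def zl (u : ℝ) : ℂ := u + (-(Real.pi / 2) : ℝ) * I

/-- smoothed kernel -/
noncomputable def kap (T : ℝ) (z : ℂ) : ℂ := Kt T z * cexp (-z ^ 2)

/-- smoothed average of one Dirichlet term -/
noncomputable def hf (T ν : ℝ) : ℂ := Jf T (fun t => pw ν t * Mf t)

/-- constant -/
noncomputable def g0 : ℝ := Real.pi ^ (-(3 / 4) : ℝ) * (1 / 2) * Real.Gamma (3 / 4)

@[fun_prop] lemma continuous_zl : Continuous zl := by unfold zl; fun_prop

lemma zl_ne (u : ℝ) : zl u ≠ 0 := by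
  intro h
  have := congrArg Complex.im h
  simp [zl] at this

lemma Fw_nonneg (ν u : ℝ) : 0 ≤ Fw ν u := by unfold Fw; positivity

lemma pw_eq {ν : ℝ} (hν : 0 < ν) (t : ℝ) : pw ν t = (ν : ℂ) ^ (-(1 / 2 + I * t)) := by
  rw [pw, cpow_def_of_ne_zero (by exact_mod_cast hν.ne'), ← Complex.ofReal_log hν.le, mul_comm]

lemma norm_pw {ν : ℝ} (hν : 0 < ν) (t : ℝ) : ‖pw ν t‖ = ν ^ (-(1 / 2) : ℝ) := by
  rw [pw_eq hν, Complex.norm_cpow_eq_rpow_re_of_pos hν]; simp

lemma norm_Mf_le (t : ℝ) : ‖Mf t‖ ≤ 1 := by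
  have h := normSq_Mf t
  have h2 : 1 / (1 + Real.exp (-(Real.pi * t))) ≤ 1 := by
    rw [div_le_one (by positivity)]; linarith [Real.exp_pos (-(Real.pi * t))]
  nlinarith [norm_nonneg (Mf t)]

lemma image_exp_univ : Real.exp '' univ = Ioi 0 := by rw [image_univ, Real.range_exp]

lemma integral_comp_exp_univ (g : ℝ → ℂ) :
    ∫ x, Real.exp x • g (Real.exp x) = ∫ y in Ioi (0 : ℝ), g y := by
  symm; rw [← image_exp_univ]
  simpa [abs_of_pos (Real.exp_pos _)] using integral_image_eq_integral_abs_deriv_smul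
      MeasurableSet.univ (fun x _ ↦ (Real.hasDerivAt_exp x).hasDerivWithinAt)
      (fun x _ y _ hxy ↦ Real.exp_injective hxy) g

lemma integrable_Fw {ν : ℝ} (hν : 0 < ν) : Integrable (Fw ν) := by
  have h := integrableOn_rpow_mul_exp_neg_mul_rpow (p := 1) (s := -(1 / 2))
    (b := Real.pi * ν ^ 2) (by norm_num) one_pos (by positivity)
  rw [← image_exp_univ, integrableOn_image_iff_integrableOn_abs_deriv_smul
      MeasurableSet.univ (fun x _ ↦ (Real.hasDerivAt_exp x).hasDerivWithinAt)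
      (fun x _ y _ hxy ↦ Real.exp_injective hxy), integrableOn_univ] at h
  refine (h.const_mul √ν).congr (Eventually.of_forall fun u => ?_)
  simp only [Fw, smul_eq_mul, abs_of_pos (Real.exp_pos _), Real.rpow_one]
  rw [← Real.exp_mul, ← Real.exp_add, ← Real.exp_add]
  congr 2; ring

lemma gamma_rep {ν : ℝ} (hν : 0 < ν) (t : ℝ) :
    pw ν t * Mf t = c1 * ∫ u, (Fw ν u : ℂ) * cexp (I * t * zl u / 2) := by
  set a : ℂ := 1 / 2 + I * t / 2 with ha
  have hr : 0 < Real.pi * ν ^ 2 := by positivity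
  have h := Complex.integral_cpow_mul_exp_neg_mul_Ioi (a := a) (r := Real.pi * ν ^ 2)
    (by rw [ha]; simp) hr
  rw [← integral_comp_exp_univ] at h
  have e : ∀ u : ℝ, (Fw ν u : ℂ) * cexp (I * t * zl u / 2) =
      ((√ν : ℝ) * cexp (Real.pi * t / 4)) * (Real.exp u •
        (((Real.exp u : ℝ) : ℂ) ^ (a - 1) * cexp (-((Real.pi * ν ^ 2 : ℝ) * (Real.exp u : ℝ))))) := by
    intro u
    rw [cpow_def_of_ne_zero (by exact_mod_cast (Real.exp_pos u).ne'),
      ← Complex.ofReal_log (Real.exp_pos u).le, Real.log_exp, Complex.real_smul, Fw, zl, ha]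
    push_cast
    simp only [mul_assoc, ← Complex.exp_add]
    congr 2
    linear_combination (-(t * Real.pi / 4) : ℂ) * I_sq
  simp_rw [e]
  rw [integral_const_mul, h, Mf, c1, b_cpow, pw, ← ha]
  have e2 : (1 / ((Real.pi * ν ^ 2 : ℝ) : ℂ)) ^ a =
      cexp (-(Real.log Real.pi + 2 * Real.log ν) * a) := by
    rw [show (1 / ((Real.pi * ν ^ 2 : ℝ) : ℂ)) = (((Real.pi * ν ^ 2)⁻¹ : ℝ) : ℂ) by simp,
      cpow_def_of_ne_zero (by exact_mod_cast (inv_pos.mpr hr).ne'),
      ← Complex.ofReal_log (inv_pos.mpr hr).le, Real.log_inv,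
      Real.log_mul Real.pi_ne_zero (by positivity), Real.log_pow]
    push_cast; ring_nf
  have e3 : ((√ν : ℝ) : ℂ) = cexp (Real.log ν / 2) := by
    rw [Real.sqrt_eq_rpow, Real.rpow_def_of_pos hν]; push_cast; ring_nf
  rw [e2, e3]
  have e4 : cexp (-(1 / 2 + I * t) * Real.log ν) * cexp (Real.log Real.pi * -a) =
      cexp (Real.log ν / 2) * cexp (-(Real.log Real.pi + 2 * Real.log ν) * a) := by
    rw [← Complex.exp_add, ← Complex.exp_add, ha]; congr 1; ring
  linear_combination ((√2 : ℝ) : ℂ)⁻¹ * cexp (-(I * Real.pi / 8)) * cexp (Real.pi * t / 4) *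
    Gamma a * e4

lemma norm_exp_zl (t u : ℝ) : ‖cexp (I * t * zl u / 2)‖ = Real.exp (Real.pi * t / 4) := by
  rw [Complex.norm_exp]; congr 1; simp [zl]; ring

lemma hf_rep (T : ℝ) {ν : ℝ} (hν : 0 < ν) :
    hf T ν = c1 * ∫ u, (Fw ν u : ℂ) * kap T (zl u) := by
  have hI : Integrable (Function.uncurry fun (p : ℝ × ℝ) (u : ℝ) =>
      ((tent T p.1 * gk p.2 : ℝ) : ℂ) * ((Fw ν u : ℂ) * cexp (I * (p.1 + p.2 : ℝ) * zl u / 2)))
      ((volume.prod volume).prod volume) := by
    refine ((integrable_weight T (Real.pi / 4)).mul_prod (integrable_Fw hν)).mono' ?_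
      (Eventually.of_forall fun q => ?_)
    · apply Continuous.aestronglyMeasurable
      unfold Function.uncurry Fw
      fun_prop
    · simp only [Function.uncurry]
      rw [norm_mul, norm_mul, norm_exp_zl, Complex.norm_real (Fw ν q.2),
        Real.norm_of_nonneg (Fw_nonneg _ _), mul_comm (Fw ν q.2), ← mul_assoc]
      apply mul_le_mul_of_nonneg_right _ (Fw_nonneg _ _)
      refine le_trans ?_ (weight_bound T (Real.pi / 4) (by positivity) q.1)
      gcongr
      rw [mul_div_right_comm]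
      gcongr
      exact le_abs_self _
  have h := integral_integral_swap hI
  simp only [hf, Jf, gamma_rep hν]
  have e1 : ∀ p : ℝ × ℝ, ((tent T p.1 * gk p.2 : ℝ) : ℂ) *
      (c1 * ∫ u, (Fw ν u : ℂ) * cexp (I * (p.1 + p.2 : ℝ) * zl u / 2)) =
      c1 * ∫ u, ((tent T p.1 * gk p.2 : ℝ) : ℂ) *
        ((Fw ν u : ℂ) * cexp (I * (p.1 + p.2 : ℝ) * zl u / 2)) := by
    intro p; rw [integral_const_mul]; ring
  simp_rw [e1]
  rw [integral_const_mul, h]
  congr 2; ext u
  rw [kap, ← Jf_exp, Jf, ← integral_const_mul]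
  congr 1; ext p; ring

lemma one_le_norm_zl_sq (u : ℝ) : 1 ≤ ‖zl u ^ 2‖ := by
  rw [norm_pow, zl, Complex.sq_norm, Complex.normSq_add_mul_I]
  nlinarith [Real.pi_gt_three, sq_nonneg u]

lemma continuous_kap (T : ℝ) (hT : 0 ≤ T) : Continuous fun u => kap T (zl u) := by
  simp only [kap, Kt_eq T hT _ (zl_ne _)]
  refine Continuous.mul (Continuous.div (by fun_prop) (by fun_prop)
    fun u => pow_ne_zero _ (zl_ne u)) (by fun_prop)

lemma norm_exp_neg_zl_sq (u : ℝ) :
    ‖cexp (-zl u ^ 2)‖ = Real.exp (Real.pi ^ 2 / 4) * Real.exp (-u ^ 2) := by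
  rw [Complex.norm_exp, ← Real.exp_add]; congr 1; simp [zl, sq]; ring

lemma kap_bound (T : ℝ) : ∃ C : ℝ, 0 ≤ C ∧ ∀ u, ‖kap T (zl u)‖ ≤ C * Real.exp (-u ^ 2) := by
  refine ⟨(∫ τ, tent T τ * Real.exp (Real.pi * τ / 4)) * Real.exp (Real.pi ^ 2 / 4), ?_, fun u => ?_⟩
  · have : 0 ≤ ∫ τ, tent T τ * Real.exp (Real.pi * τ / 4) :=
      integral_nonneg fun τ => mul_nonneg (tent_nonneg _ _) (Real.exp_pos _).le
    positivity
  rw [kap, norm_mul, norm_exp_neg_zl_sq, ← mul_assoc]
  gcongr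
  refine (norm_integral_le_integral_norm _).trans (le_of_eq ?_)
  congr 1; ext τ
  rw [norm_mul, norm_exp_zl, Complex.norm_real, Real.norm_of_nonneg (tent_nonneg _ _)]

lemma Fw_eq (ν u : ℝ) : Fw ν u = Real.exp (u / 2) *
    (ν ^ (1 / 2 : ℝ) * Real.exp (-(Real.pi * Real.exp u) * ν ^ (2 : ℝ))) := by
  rw [Fw, Real.sqrt_eq_rpow, sub_eq_add_neg, Real.exp_add, Real.rpow_two]
  ring_nf

lemma integrableOn_Fw (u : ℝ) : IntegrableOn (fun ν => Fw ν u) (Ioi 0) := by
  have h := (integrableOn_rpow_mul_exp_neg_mul_rpow (p := 2) (s := 1 / 2)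
    (b := Real.pi * Real.exp u) (by norm_num) two_pos (by positivity)).const_mul (Real.exp (u / 2))
  exact IntegrableOn.congr_fun h (fun ν _ => (Fw_eq ν u).symm) measurableSet_Ioi

lemma integral_Fw (u : ℝ) : ∫ ν in Ioi (0 : ℝ), Fw ν u = g0 * Real.exp (-u / 4) := by
  rw [setIntegral_congr_fun measurableSet_Ioi (fun ν _ => Fw_eq ν u), integral_const_mul,
    _root_.integral_rpow_mul_exp_neg_mul_rpow two_pos (by norm_num) (by positivity),
    Real.mul_rpow Real.pi_pos.le (Real.exp_pos _).le, ← Real.exp_mul, g0]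
  norm_num
  have : Real.exp (u / 2) * Real.exp (-(u * (3 / 4))) = Real.exp (-u / 4) := by
    rw [← Real.exp_add]; congr 1; ring
  rw [← this]; ring

lemma integrable_Fw_kap (T : ℝ) (hT : 0 ≤ T) :
    Integrable (Function.uncurry fun (ν u : ℝ) => (Fw ν u : ℂ) * kap T (zl u))
      ((volume.restrict (Ioi 0)).prod volume) := by
  have hc := continuous_kap T hT
  obtain ⟨C, hC0, hC⟩ := kap_bound T
  rw [integrable_prod_iff']
  · constructor
    · refine Eventually.of_forall fun u => ?_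
      have h : Integrable (fun ν => (Fw ν u : ℂ)) (volume.restrict (Ioi 0)) :=
        (integrableOn_Fw u).ofReal
      exact h.mul_const (kap T (zl u))
    · have e : ∀ u, ∫ ν in Ioi (0 : ℝ), ‖(Fw ν u : ℂ) * kap T (zl u)‖ =
          g0 * Real.exp (-u / 4) * ‖kap T (zl u)‖ := by
        intro u
        simp_rw [norm_mul, Complex.norm_real, Real.norm_of_nonneg (Fw_nonneg _ _)]
        rw [integral_mul_const, integral_Fw]
      simp only [Function.uncurry, e]
      have hg : 0 ≤ g0 := by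
        unfold g0
        have := Real.Gamma_pos_of_pos (show (0 : ℝ) < 3 / 4 by norm_num)
        positivity
      refine ((integrable_exp_neg_mul_sq (b := 1 / 2) (by norm_num)).const_mul
        (g0 * C * Real.exp 1)).mono' (by fun_prop : Continuous _).aestronglyMeasurable
        (Eventually.of_forall fun u => ?_)
      rw [Real.norm_of_nonneg (by positivity)]
      calc _ ≤ g0 * Real.exp (-u / 4) * (C * Real.exp (-u ^ 2)) := by gcongr; exact hC u
        _ = g0 * C * Real.exp (-u / 4 + -u ^ 2) := by rw [Real.exp_add]; ring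
        _ ≤ g0 * C * Real.exp (1 + -(1 / 2) * u ^ 2) := by
          apply mul_le_mul_of_nonneg_left (Real.exp_le_exp.mpr _) (by positivity)
          nlinarith [sq_nonneg (u + 1 / 4)]
        _ = _ := by rw [Real.exp_add]; ring
  · apply Continuous.aestronglyMeasurable
    have h1 : Continuous fun q : ℝ × ℝ => (Fw q.1 q.2 : ℂ) := by unfold Fw; fun_prop
    exact h1.mul (hc.comp continuous_snd)

lemma integrableOn_hf (T : ℝ) (hT : 0 ≤ T) : IntegrableOn (hf T) (Ioi 0) := by
  have h := ((integrable_Fw_kap T hT).integral_prod_left).const_mul c1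
  exact IntegrableOn.congr_fun h (fun ν hν => (hf_rep T hν).symm) measurableSet_Ioi

lemma integral_hf (T : ℝ) (hT : 0 ≤ T) :
    ∫ ν in Ioi (0 : ℝ), hf T ν = c1 * g0 * ∫ u : ℝ, cexp (-u / 4) * kap T (zl u) := by
  rw [setIntegral_congr_fun measurableSet_Ioi (fun ν hν => hf_rep T hν), integral_const_mul,
    integral_integral_swap (integrable_Fw_kap T hT), mul_assoc, ← integral_const_mul (g0 : ℂ)]
  congr 2; ext u
  rw [integral_mul_const, integral_complex_ofReal, integral_Fw]
  push_cast; ring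

/-- Gaussian appearing in the polar term -/
noncomputable def gam (τ : ℝ) : ℂ :=
  (√Real.pi : ℝ) * cexp (-(1 / 16) * (τ : ℂ) ^ 2 + (-(I / 16)) * τ + 1 / 64)

lemma integral_gam : ∫ τ, gam τ = 4 * Real.pi := by
  unfold gam
  rw [integral_const_mul, integral_cexp_quadratic (by norm_num)]
  have e2 : ((Real.pi : ℂ) / - -(1 / 16)) = ((16 * Real.pi : ℝ) : ℂ) := by push_cast; ring
  have e3 : (1 / 64 : ℂ) - (-(I / 16)) ^ 2 / (4 * -(1 / 16)) = 0 := by
    linear_combination (1 / 64 : ℂ) * I_sq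
  rw [e2, e3, sqrt_cpow _ (by positivity), Real.sqrt_mul (by norm_num),
    show (16 : ℝ) = 4 ^ 2 by norm_num, Real.sqrt_sq (by norm_num), Complex.exp_zero, mul_one,
    ← Complex.ofReal_mul, mul_left_comm, Real.mul_self_sqrt Real.pi_pos.le]
  push_cast; ring

lemma norm_gam (τ : ℝ) : ‖gam τ‖ = √Real.pi * Real.exp (1 / 64) * Real.exp (-(1 / 16) * τ ^ 2) := by
  rw [gam, norm_mul, Complex.norm_real, Real.norm_of_nonneg (Real.sqrt_nonneg _), Complex.norm_exp,
    mul_assoc, ← Real.exp_add]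
  congr 2
  simp [sq]; ring

lemma pole_eq (T : ℝ) : ∫ u : ℝ, cexp (-u / 4) * kap T (zl u) =
    cexp (-(I * Real.pi / 8)) * ∫ τ, (tent T τ : ℂ) * gam τ := by
  have hI : Integrable (Function.uncurry fun (u τ : ℝ) =>
      (cexp (-u / 4) * cexp (-zl u ^ 2)) * ((tent T τ : ℂ) * cexp (I * τ * zl u / 2)))
      (volume.prod volume) := by
    have i1 : Integrable fun u : ℝ => ‖cexp (-u / 4) * cexp (-zl u ^ 2)‖ := by
      apply Integrable.norm
      have := integrable_cexp_quadratic' (b := -1) (by simp) (-1 / 4 + Real.pi * I)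
        (Real.pi ^ 2 / 4)
      refine this.congr (Eventually.of_forall fun u => ?_)
      simp only []
      rw [← Complex.exp_add, zl]; congr 1
      push_cast
      linear_combination (Real.pi ^ 2 / 4 : ℂ) * I_sq
    refine (i1.mul_prod (integrable_tent_mul T (fun τ => Real.exp (Real.pi * τ / 4))
      (by fun_prop))).mono' ?_ (Eventually.of_forall fun q => ?_)
    · apply Continuous.aestronglyMeasurable
      unfold Function.uncurry
      fun_prop
    · simp only [Function.uncurry]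
      rw [norm_mul, norm_mul (tent T q.2 : ℂ), norm_exp_zl, Complex.norm_real,
        Real.norm_of_nonneg (tent_nonneg _ _)]
  have h := integral_integral_swap hI
  have e1 : ∀ u : ℝ, cexp (-u / 4) * kap T (zl u) = ∫ τ : ℝ,
      (cexp (-u / 4) * cexp (-zl u ^ 2)) * ((tent T τ : ℂ) * cexp (I * τ * zl u / 2)) := by
    intro u; rw [integral_const_mul, kap, Kt]; ring
  simp_rw [e1]
  rw [h, ← integral_const_mul]
  congr 1; ext τ
  have e2 : ∀ u : ℝ, (cexp (-u / 4) * cexp (-zl u ^ 2)) * ((tent T τ : ℂ) * cexp (I * τ * zl u / 2))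
      = (tent T τ : ℂ) * cexp (-1 * (u : ℂ) ^ 2 + (-1 / 4 + Real.pi * I + I * τ / 2) * u +
        (Real.pi ^ 2 / 4 + Real.pi * τ / 4)) := by
    intro u
    rw [mul_left_comm, ← Complex.exp_add, ← Complex.exp_add, zl]
    congr 2
    push_cast
    linear_combination (-(Real.pi ^ 2 / 4 : ℂ) - Real.pi * τ / 4) * I_sq
  simp_rw [e2]
  rw [integral_const_mul, integral_cexp_quadratic (by simp), gam]
  have e3 : ((Real.pi : ℂ) / - -1) = ((Real.pi : ℝ) : ℂ) := by ring
  rw [e3, sqrt_cpow _ Real.pi_pos.le, mul_left_comm (cexp _), mul_left_comm (cexp _),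
    ← Complex.exp_add]
  congr 3
  linear_combination ((Real.pi ^ 2 / 4 : ℂ) + Real.pi * τ / 4 + τ ^ 2 / 16) * I_sq

lemma pole_bound : ∃ C : ℝ, 0 ≤ C ∧ ∀ T : ℝ, 0 ≤ T →
    ‖(∫ τ, (tent T τ : ℂ) * gam τ) - 4 * Real.pi * T‖ ≤ C := by
  have i1 : Integrable fun τ : ℝ => |τ| * ‖gam τ‖ := by
    have := ((integrable_mul_exp_neg_mul_sq (b := 1 / 16) (by norm_num)).abs).const_mul
      (√Real.pi * Real.exp (1 / 64))
    refine this.congr (Eventually.of_forall fun τ => ?_)
    simp only []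
    rw [norm_gam, abs_mul, abs_of_pos (Real.exp_pos _)]; ring
  have i2 : Integrable gam := by
    unfold gam
    exact (integrable_cexp_quadratic' (by norm_num) _ _).const_mul _
  refine ⟨∫ τ : ℝ, |τ| * ‖gam τ‖, integral_nonneg fun τ => by positivity, fun T hT => ?_⟩
  have hc : Continuous gam := by unfold gam; fun_prop
  rw [← integral_gam, ← integral_mul_const, ← integral_sub (integrable_tent_cmul T gam hc)
    (i2.mul_const _)]
  refine norm_integral_le_of_norm_le i1 (Eventually.of_forall fun τ => ?_)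
  rw [mul_comm (gam τ), ← sub_mul, norm_mul, ← Complex.ofReal_sub, Complex.norm_real,
    Real.norm_eq_abs]
  apply mul_le_mul_of_nonneg_right _ (norm_nonneg _)
  unfold tent
  rcases le_total (T - |τ|) 0 with h | h
  · rw [max_eq_right h, zero_sub, abs_neg, abs_of_nonneg hT]; linarith
  · rw [max_eq_left h]; simp

lemma Jf_polar (T X : ℝ) (hX : 0 < X) :
    Jf T (fun t => (X : ℂ) ^ (1 - (1 / 2 + I * t)) / ((1 / 2 + I * t) - 1) * Mf t) =
      -∫ ν in Ioc 0 X, hf T ν := by
  have hI : Integrable (Function.uncurry fun (p : ℝ × ℝ) (ν : ℝ) =>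
      ((tent T p.1 * gk p.2 : ℝ) : ℂ) * (pw ν (p.1 + p.2) * Mf (p.1 + p.2)))
      ((volume.prod volume).prod (volume.restrict (Ioc 0 X))) := by
    have i1 : IntegrableOn (fun ν : ℝ => ν ^ (-(1 / 2) : ℝ)) (Ioc 0 X) :=
      (intervalIntegral.intervalIntegrable_rpow' (a := 0) (b := X) (by norm_num)).1
    refine ((integrable_weight T 0).mul_prod i1).mono' ?_ ?_
    · apply Measurable.aestronglyMeasurable
      have := continuous_Mf
      unfold Function.uncurry pw
      fun_prop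
    · have : ∀ᵐ q : (ℝ × ℝ) × ℝ ∂((volume.prod volume).prod (volume.restrict (Ioc 0 X))),
          0 < q.2 := by
        apply Measure.quasiMeasurePreserving_snd.ae (p := fun ν : ℝ => 0 < ν)
        exact (ae_restrict_mem measurableSet_Ioc).mono fun ν hν => hν.1
      filter_upwards [this] with q hq
      simp only [Function.uncurry]
      rw [norm_mul, norm_mul (pw _ _), norm_pw hq]
      have h1 := weight_bound T 0 le_rfl q.1
      rw [zero_mul, Real.exp_zero, mul_one] at h1
      have h2 := norm_Mf_le (q.1.1 + q.1.2)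
      calc _ ≤ ‖((tent T q.1.1 * gk q.1.2 : ℝ) : ℂ)‖ * (q.2 ^ (-(1 / 2) : ℝ) * 1) := by gcongr
        _ ≤ _ := by rw [mul_one]; gcongr
  have h := integral_integral_swap hI
  simp only [hf, Jf]
  rw [← h, ← integral_neg]
  congr 1; ext p
  set t := p.1 + p.2 with ht
  rw [integral_const_mul, integral_mul_const,
    setIntegral_congr_fun measurableSet_Ioc (fun ν hν => pw_eq hν.1 t),
    ← intervalIntegral.integral_of_le hX.le, integral_cpow (Or.inl (by simp; norm_num))]
  have h0 : -(1 / 2 + I * t) + 1 ≠ 0 := by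
    intro h
    have := congrArg Complex.re h
    simp at this; norm_num at this
  rw [Complex.ofReal_zero, zero_cpow h0, show (1 : ℂ) - (1 / 2 + I * t) = -(1 / 2 + I * t) + 1 by ring,
    show (1 / 2 + I * t) - 1 = -(-(1 / 2 + I * t) + 1) by ring, div_neg]
  ring

end Pool.Agent.MP_6f2ed2_nt.H1
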