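import Pool.Agent.MP_6f2ed2_nt.H1.Objs

/-! Euler-Maclaurin bound for zeta on the critical line, and reality of Hardy's function. -/

namespace Pool.Agent.MP_6f2ed2_nt.H1

open Complex Filter Topology Set

theorem a_hasDerivAt_cpow {x : ℝ} (hx : 0 < x) (r : ℂ) :
    HasDerivAt (fun y : ℝ => (y : ℂ) ^ r) (r * (x : ℂ) ^ (r - 1)) x := by
  have h : (x : ℂ) ∈ slitPlane := ofReal_mem_slitPlane.mpr hx
  exact (hasStrictDerivAt_cpow_const (c := r) h).hasDerivAt.comp_ofReal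

theorem a_cpow_sub_le {a b : ℝ} (ha : 0 < a) (hab : a ≤ b) {s : ℂ} (hs : 0 < s.re) :
    ‖(a : ℂ) ^ (-s) - (b : ℂ) ^ (-s)‖ ≤ ‖s‖ / s.re * (a ^ (-s.re) - b ^ (-s.re)) := by
  have key := image_norm_le_of_norm_deriv_right_le_deriv_boundary' (a := a) (b := b)
    (f := fun x : ℝ => (a : ℂ) ^ (-s) - (x : ℂ) ^ (-s))
    (f' := fun x : ℝ => -(-s * (x : ℂ) ^ (-s - 1)))
    (B := fun x : ℝ => ‖s‖ / s.re * (a ^ (-s.re) - x ^ (-s.re)))
    (B' := fun x : ℝ => ‖s‖ / s.re * (-(-s.re * x ^ (-s.re - 1)))) ?_ ?_ ?_ ?_ ?_ ?_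
    (right_mem_Icc.mpr hab)
  · exact key
  · intro x hx
    have hx0 : 0 < x := ha.trans_le hx.1
    exact ((a_hasDerivAt_cpow hx0 (-s)).const_sub _).continuousAt.continuousWithinAt
  · intro x hx
    have hx0 : 0 < x := ha.trans_le hx.1
    exact ((a_hasDerivAt_cpow hx0 (-s)).const_sub _).hasDerivWithinAt
  · simp
  · intro x hx
    have hx0 : 0 < x := ha.trans_le hx.1
    exact (((Real.hasDerivAt_rpow_const (p := -s.re) (Or.inl hx0.ne')).const_sub _).const_mul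
      _).continuousAt.continuousWithinAt
  · intro x hx
    have hx0 : 0 < x := ha.trans_le hx.1
    exact (((Real.hasDerivAt_rpow_const (p := -s.re) (Or.inl hx0.ne')).const_sub _).const_mul
      _).hasDerivWithinAt
  · intro x hx
    have hx0 : 0 < x := ha.trans_le hx.1
    rw [norm_neg, norm_mul, norm_neg, norm_cpow_eq_rpow_re_of_pos hx0]
    have : (-s - 1).re = -s.re - 1 := by simp
    rw [this]
    apply le_of_eq
    field_simp

/-- `(s - 1)` times the Euler-Maclaurin approximation; an entire function of `s`. -/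
noncomputable def aB (M : ℕ) (s : ℂ) : ℂ :=
  (s - 1) * ((∑ n ∈ Finset.Icc 1 M, (n : ℂ) ^ (-s)) - (M : ℂ) ^ (-s) / 2) + (M : ℂ) ^ (1 - s)

theorem a_step {M : ℕ} (hM : 1 ≤ M) {s : ℂ} (hs : 0 < s.re) :
    ‖aB (M + 1) s - aB M s‖ ≤
      ‖s - 1‖ * ‖s‖ / (2 * s.re) * ((M : ℝ) ^ (-s.re) - ((M + 1 : ℕ) : ℝ) ^ (-s.re)) := by
  have hM0 : (0 : ℝ) < M := by exact_mod_cast hM
  set c : ℂ := (((M : ℝ) : ℂ) ^ (-s) + (((M : ℝ) + 1 : ℝ) : ℂ) ^ (-s)) / 2 with hc
  have key := norm_image_sub_le_of_norm_deriv_le_segment' (a := (M : ℝ)) (b := (M : ℝ) + 1)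
    (f := fun x : ℝ => (s - 1) * c * (x : ℂ) + (x : ℂ) ^ (1 - s))
    (f' := fun x : ℝ => (s - 1) * c + (1 - s) * (x : ℂ) ^ (1 - s - 1))
    (C := ‖s - 1‖ * ‖s‖ / (2 * s.re) * ((M : ℝ) ^ (-s.re) - ((M : ℝ) + 1) ^ (-s.re))) ?_ ?_
    ((M : ℝ) + 1) (right_mem_Icc.mpr (by linarith))
  · have e : aB (M + 1) s - aB M s =
        ((s - 1) * c * (((M : ℝ) + 1 : ℝ) : ℂ) + (((M : ℝ) + 1 : ℝ) : ℂ) ^ (1 - s)) -
        ((s - 1) * c * ((M : ℝ) : ℂ) + ((M : ℝ) : ℂ) ^ (1 - s)) := by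
      simp only [aB, hc]
      rw [Finset.sum_Icc_succ_top (by omega)]
      push_cast
      ring
    rw [e]
    simpa using key
  · intro x hx
    have hx0 : 0 < x := hM0.trans_le hx.1
    have h1 : HasDerivAt (fun x : ℝ => (s - 1) * c * (x : ℂ)) ((s - 1) * c) x := by
      simpa using (Complex.ofRealCLM.hasDerivAt (x := x)).const_mul ((s - 1) * c)
    exact (h1.add (a_hasDerivAt_cpow hx0 (1 - s))).hasDerivWithinAt
  · intro x hx
    have hx0 : 0 < x := hM0.trans_le hx.1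
    have h1 := a_cpow_sub_le hM0 hx.1 hs
    have h2 := a_cpow_sub_le hx0 hx.2.le hs
    have e : (s - 1) * c + (1 - s) * (x : ℂ) ^ (1 - s - 1) =
        (s - 1) / 2 * ((((M : ℝ) : ℂ) ^ (-s) - (x : ℂ) ^ (-s)) -
          ((x : ℂ) ^ (-s) - (((M : ℝ) + 1 : ℝ) : ℂ) ^ (-s))) := by
      have : 1 - s - 1 = -s := by ring
      rw [this, hc]; ring
    rw [e, norm_mul, norm_div]
    have h3 := (norm_sub_le _ _).trans (add_le_add h1 h2)
    have hn : ‖(2 : ℂ)‖ = 2 := by simp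
    rw [hn]
    calc ‖s - 1‖ / 2 * ‖(((M : ℝ) : ℂ) ^ (-s) - (x : ℂ) ^ (-s)) -
          ((x : ℂ) ^ (-s) - (((M : ℝ) + 1 : ℝ) : ℂ) ^ (-s))‖
        ≤ ‖s - 1‖ / 2 * (‖s‖ / s.re * ((M : ℝ) ^ (-s.re) - x ^ (-s.re)) +
          ‖s‖ / s.re * (x ^ (-s.re) - ((M : ℝ) + 1) ^ (-s.re))) := by gcongr
      _ = _ := by field_simp; ring

theorem a_tele {M : ℕ} (hM : 1 ≤ M) {s : ℂ} (hs : 0 < s.re) (k : ℕ) :
    ‖aB (M + k) s - aB M s‖ ≤
      ‖s - 1‖ * ‖s‖ / (2 * s.re) * ((M : ℝ) ^ (-s.re) - ((M + k : ℕ) : ℝ) ^ (-s.re)) := by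
  induction k with
  | zero => simp
  | succ k ih =>
    have h := a_step (M := M + k) (by omega) hs
    have e : aB (M + (k + 1)) s - aB M s =
        (aB (M + k + 1) s - aB (M + k) s) + (aB (M + k) s - aB M s) := by
      rw [← add_assoc]; ring
    rw [e]
    refine (norm_add_le _ _).trans ((add_le_add h ih).trans (le_of_eq ?_))
    rw [← add_assoc]; ring

theorem a_tele' {M K : ℕ} (hM : 1 ≤ M) (hK : M ≤ K) {s : ℂ} (hs : 0 < s.re) :
    ‖aB K s - aB M s‖ ≤ ‖s - 1‖ * ‖s‖ / (2 * s.re) * (M : ℝ) ^ (-s.re) := by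
  obtain ⟨k, rfl⟩ := Nat.exists_eq_add_of_le hK
  refine (a_tele hM hs k).trans ?_
  have : (0 : ℝ) ≤ ((M + k : ℕ) : ℝ) ^ (-s.re) := by positivity
  gcongr
  linarith

theorem a_rpow_tendsto {σ : ℝ} (hσ : 0 < σ) :
    Tendsto (fun M : ℕ => (M : ℝ) ^ (-σ)) atTop (𝓝 0) :=
  (tendsto_rpow_neg_atTop hσ).comp tendsto_natCast_atTop_atTop

theorem a_cauchy {s : ℂ} (hs : 0 < s.re) : CauchySeq fun M : ℕ => aB (M + 1) s := by
  refine cauchySeq_of_le_tendsto_0'
    (fun M : ℕ => ‖s - 1‖ * ‖s‖ / (2 * s.re) * ((M + 1 : ℕ) : ℝ) ^ (-s.re)) ?_ ?_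
  · intro n m hnm
    rw [dist_comm, dist_eq_norm]
    exact a_tele' (by omega) (by omega) hs
  · have := ((a_rpow_tendsto hs).comp (tendsto_add_atTop_nat 1)).const_mul
      (‖s - 1‖ * ‖s‖ / (2 * s.re))
    simpa using this

/-- the limit function -/
noncomputable def aL (s : ℂ) : ℂ := limUnder atTop fun M : ℕ => aB (M + 1) s

theorem a_tendsto {s : ℂ} (hs : 0 < s.re) :
    Tendsto (fun M : ℕ => aB (M + 1) s) atTop (𝓝 (aL s)) :=
  (a_cauchy hs).tendsto_limUnder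

theorem a_lim_bound {M : ℕ} (hM : 1 ≤ M) {s : ℂ} (hs : 0 < s.re) :
    ‖aL s - aB M s‖ ≤ ‖s - 1‖ * ‖s‖ / (2 * s.re) * (M : ℝ) ^ (-s.re) := by
  have h := ((a_tendsto hs).sub_const (aB M s)).norm
  refine le_of_tendsto h ?_
  filter_upwards [eventually_ge_atTop M] with K hK
  exact a_tele' hM (by omega) hs

theorem a_diff (M : ℕ) (hM : 1 ≤ M) : Differentiable ℂ (aB M) := by
  have h : ∀ n : ℕ, 1 ≤ n → ∀ g : ℂ → ℂ, Differentiable ℂ g →
      Differentiable ℂ fun s => (n : ℂ) ^ (g s) := by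
    intro n hn g hg
    have : (n : ℂ) ≠ 0 := by exact_mod_cast (by omega : n ≠ 0)
    exact hg.const_cpow (Or.inl this)
  unfold aB
  refine Differentiable.add (Differentiable.mul (by fun_prop) (Differentiable.sub ?_ ?_)) ?_
  · refine Differentiable.fun_sum fun n hn => h n (Finset.mem_Icc.mp hn).1 _ (by fun_prop)
  · exact (h M hM _ (by fun_prop)).div_const _
  · exact h M hM _ (by fun_prop)

theorem a_L_diffOn (R : ℝ) :
    DifferentiableOn ℂ aL ({s : ℂ | 1 / 4 < s.re} ∩ Metric.ball 0 R) := by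
  have hU : IsOpen ({s : ℂ | 1 / 4 < s.re} ∩ Metric.ball 0 R) :=
    (isOpen_lt continuous_const continuous_re).inter Metric.isOpen_ball
  refine TendstoLocallyUniformlyOn.differentiableOn (φ := atTop)
    (F := fun M : ℕ => aB (M + 1)) ?_ ?_ hU
  · apply TendstoUniformlyOn.tendstoLocallyUniformlyOn
    rw [Metric.tendstoUniformlyOn_iff]
    intro ε hε
    have h0 := ((a_rpow_tendsto (σ := 1 / 4) (by norm_num)).comp
      (tendsto_add_atTop_nat 1)).const_mul ((R + 1) * R * 2)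
    rw [mul_zero] at h0
    filter_upwards [h0.eventually (gt_mem_nhds hε)] with M hM s hs
    have hs1 : 1 / 4 < s.re := hs.1
    have hs2 : ‖s‖ < R := by simpa using hs.2
    have hs0 : 0 < s.re := by linarith
    rw [dist_eq_norm]
    refine (a_lim_bound (by omega) hs0).trans_lt (lt_of_le_of_lt ?_ hM)
    have h1 : ‖s - 1‖ ≤ R + 1 := (norm_sub_le _ _).trans (by simp; linarith)
    have hR : 0 ≤ R := (norm_nonneg _).trans hs2.le
    have h2 : ((M + 1 : ℕ) : ℝ) ^ (-s.re) ≤ ((M + 1 : ℕ) : ℝ) ^ (-(1 / 4 : ℝ)) :=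
      Real.rpow_le_rpow_of_exponent_le (by exact_mod_cast (by omega : 1 ≤ M + 1)) (by linarith)
    have h3 : ‖s - 1‖ * ‖s‖ / (2 * s.re) ≤ (R + 1) * R * 2 := by
      rw [div_le_iff₀ (by linarith)]
      have : ‖s - 1‖ * ‖s‖ ≤ (R + 1) * R := by gcongr
      nlinarith [mul_nonneg (by linarith : (0 : ℝ) ≤ R + 1) hR]
    exact mul_le_mul h3 h2 (by positivity) (by positivity)
  · exact Eventually.of_forall fun M => (a_diff (M + 1) (by omega)).differentiableOn

theorem a_L_eq_of_one_lt {s : ℂ} (hs : 1 < s.re) : aL s = riemannZeta₁ s := by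
  have hs0 : 0 < s.re := by linarith
  have hs1 : s ≠ 1 := by rintro rfl; simp at hs
  have hz : riemannZeta₁ s = (s - 1) * riemannZeta s := by
    rw [riemannZeta_eq_inv_sub_mul hs1]
    field_simp [sub_ne_zero.mpr hs1]
  refine tendsto_nhds_unique (a_tendsto hs0) ?_
  have hsum : Summable fun n : ℕ => 1 / ((n + 1 : ℕ) : ℂ) ^ s :=
    (summable_nat_add_iff 1).mpr (Complex.summable_one_div_nat_cpow.mpr hs)
  have h1 : Tendsto (fun M : ℕ => ∑ n ∈ Finset.Icc 1 (M + 1), (n : ℂ) ^ (-s)) atTop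
      (𝓝 (riemannZeta s)) := by
    have := hsum.hasSum.tendsto_sum_nat.comp (tendsto_add_atTop_nat 1)
    rw [zeta_eq_tsum_one_div_nat_add_one_cpow hs]
    push_cast at this
    refine this.congr fun M => ?_
    simp only [Function.comp]
    generalize M + 1 = K
    induction K with
    | zero => simp
    | succ K ih =>
      rw [Finset.sum_range_succ, Finset.sum_Icc_succ_top (by omega), ih, cpow_neg, one_div]
      push_cast
      rfl
  have h2 : ∀ w : ℂ, w.re < 0 → Tendsto (fun M : ℕ => ((M + 1 : ℕ) : ℂ) ^ w) atTop (𝓝 0) := by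
    intro w hw
    rw [tendsto_zero_iff_norm_tendsto_zero]
    have := (a_rpow_tendsto (σ := -w.re) (by linarith)).comp (tendsto_add_atTop_nat 1)
    refine this.congr fun M => ?_
    simp only [Function.comp, neg_neg]
    rw [norm_natCast_cpow_of_pos (by omega)]
  have h3 := ((h1.sub ((h2 (-s) (by simpa using hs0)).div_const 2)).const_mul (s - 1)).add
    (h2 (1 - s) (by simpa using hs))
  rw [hz]
  simpa [aB] using h3

theorem a_L_eq {s : ℂ} (hs : 1 / 4 < s.re) : aL s = riemannZeta₁ s := by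
  set U := {z : ℂ | 1 / 4 < z.re} ∩ Metric.ball 0 (‖s‖ + 3) with hU
  have hUo : IsOpen U := (isOpen_lt continuous_const continuous_re).inter Metric.isOpen_ball
  have hUc : Convex ℝ U := (convex_halfSpace_re_gt _).inter (convex_ball _ _)
  have h1 : AnalyticOnNhd ℂ aL U := (a_L_diffOn _).analyticOnNhd hUo
  have h2 : AnalyticOnNhd ℂ riemannZeta₁ U :=
    differentiable_riemannZeta₁.differentiableOn.analyticOnNhd hUo
  have h2U : (2 : ℂ) ∈ U := by
    refine ⟨by simp; norm_num, ?_⟩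
    simp only [Metric.mem_ball, dist_zero_right]
    have : ‖(2 : ℂ)‖ = 2 := by simp
    linarith [norm_nonneg s]
  have hev : aL =ᶠ[𝓝 2] riemannZeta₁ := by
    have : {z : ℂ | 1 < z.re} ∈ 𝓝 (2 : ℂ) :=
      (isOpen_lt continuous_const continuous_re).mem_nhds (by simp)
    filter_upwards [this] with z hz using a_L_eq_of_one_lt hz
  exact h1.eqOn_of_preconnected_of_eventuallyEq h2 hUc.isPreconnected h2U hev
    ⟨hs, by simp⟩

theorem a_re_line (t : ℝ) : (1 / 2 + I * t : ℂ).re = 1 / 2 := by simp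

theorem a_line_ne_one (t : ℝ) : (1 / 2 + I * t : ℂ) ≠ 1 := by
  intro h
  have := congrArg Complex.re h
  rw [a_re_line] at this
  norm_num at this

theorem a_norm_line (t : ℝ) : ‖(1 / 2 + I * t : ℂ)‖ ≤ 1 / 2 + |t| := by
  refine (norm_add_le _ _).trans (le_of_eq ?_)
  simp

theorem zeta_approx (t : ℝ) (X : ℕ) (hX : 1 ≤ X) :
    ‖riemannZeta (1 / 2 + I * t) - zetaApprox X (1 / 2 + I * t)‖ ≤
      (1 / 2 + |t|) / Real.sqrt X := by
  set s : ℂ := 1 / 2 + I * t with hs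
  have hre : s.re = 1 / 2 := a_re_line t
  have h1 : s - 1 ≠ 0 := sub_ne_zero.mpr (a_line_ne_one t)
  have hb := a_lim_bound hX (s := s) (by rw [hre]; norm_num)
  rw [a_L_eq (by rw [hre]; norm_num), hre] at hb
  have e : riemannZeta₁ s - aB X s = (s - 1) * (riemannZeta s - zetaApprox X s) := by
    rw [riemannZeta_eq_inv_sub_mul (a_line_ne_one t)]
    simp only [aB, zetaApprox, ← hs]
    field_simp
  rw [e, norm_mul] at hb
  have hp : 0 < ‖s - 1‖ := norm_pos_iff.mpr h1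
  have hX0 : (0 : ℝ) < X := by exact_mod_cast hX
  have e2 : (X : ℝ) ^ (-(1 / 2 : ℝ)) = 1 / Real.sqrt X := by
    rw [Real.rpow_neg hX0.le, Real.sqrt_eq_rpow, one_div, one_div]
  rw [e2] at hb
  have hb2 : ‖riemannZeta s - zetaApprox X s‖ ≤ ‖s‖ / Real.sqrt X := by
    refine le_of_mul_le_mul_left (hb.trans (le_of_eq ?_)) hp
    field_simp
  refine hb2.trans ?_
  gcongr
  exact a_norm_line t

theorem zeta_bound_lin (t : ℝ) : ‖riemannZeta (1 / 2 + I * t)‖ ≤ 2 + |t| := by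
  have h := zeta_approx t 1 le_rfl
  set s : ℂ := 1 / 2 + I * t with hs
  have h1 : s - 1 ≠ 0 := sub_ne_zero.mpr (a_line_ne_one t)
  have e : zetaApprox 1 s = (s + 1) / (2 * (s - 1)) := by
    simp [zetaApprox]
    field_simp
    ring
  have hn : ‖zetaApprox 1 s‖ ≤ 3 / 2 := by
    rw [e, norm_div, div_le_iff₀ (norm_pos_iff.mpr (mul_ne_zero two_ne_zero h1)), norm_mul]
    have h2 : ‖(2 : ℂ)‖ = 2 := by simp
    rw [h2]
    have : ‖s + 1‖ ≤ ‖3 * (s - 1)‖ := by
      rw [← sq_le_sq₀ (norm_nonneg _) (norm_nonneg _), Complex.sq_norm, Complex.sq_norm,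
        normSq_apply, normSq_apply]
      simp [hs]
      nlinarith [sq_nonneg t]
    rw [norm_mul] at this
    have h3 : ‖(3 : ℂ)‖ = 3 := by simp
    rw [h3] at this
    linarith
  have := norm_le_norm_add_norm_sub' (riemannZeta s) (zetaApprox 1 s)
  simp only [Nat.cast_one, Real.sqrt_one, div_one] at h
  linarith

theorem a_sum_inv_sqrt (M : ℕ) :
    ∑ n ∈ Finset.Icc 1 M, 1 / Real.sqrt n ≤ 2 * Real.sqrt M := by
  induction M with
  | zero => simp
  | succ M ih =>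
    rw [Finset.sum_Icc_succ_top (by omega)]
    have ha : 0 ≤ Real.sqrt M := Real.sqrt_nonneg _
    have hb : 0 < Real.sqrt ((M + 1 : ℕ) : ℝ) := Real.sqrt_pos.mpr (by positivity)
    have ha2 : Real.sqrt M ^ 2 = M := Real.sq_sqrt (by positivity)
    have hb2 : Real.sqrt ((M + 1 : ℕ) : ℝ) ^ 2 = M + 1 := by
      rw [Real.sq_sqrt (by positivity)]; push_cast; ring
    have : 1 / Real.sqrt ((M + 1 : ℕ) : ℝ) ≤
        2 * Real.sqrt ((M + 1 : ℕ) : ℝ) - 2 * Real.sqrt M := by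
      rw [div_le_iff₀ hb]
      nlinarith [sq_nonneg (Real.sqrt ((M + 1 : ℕ) : ℝ) - Real.sqrt M)]
    linarith

theorem a_norm_cpow_line (t : ℝ) {n : ℕ} (hn : 1 ≤ n) :
    ‖(n : ℂ) ^ (-(1 / 2 + I * t : ℂ))‖ = 1 / Real.sqrt n := by
  have hX0 : (0 : ℝ) < n := by exact_mod_cast hn
  rw [norm_natCast_cpow_of_pos hn, neg_re, a_re_line, Real.rpow_neg hX0.le, Real.sqrt_eq_rpow,
    one_div, one_div]

theorem zeta_bound_sqrt (t : ℝ) (ht : 1 ≤ |t|) :
    ‖riemannZeta (1 / 2 + I * t)‖ ≤ 7 * Real.sqrt |t| := by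
  set M := ⌈|t|⌉₊ with hM
  have hM1 : |t| ≤ M := Nat.le_ceil _
  have hM2 : (M : ℝ) ≤ 2 * |t| := by
    have := Nat.ceil_lt_add_one (abs_nonneg t)
    linarith
  have hM0 : 1 ≤ M := by
    have : (1 : ℝ) ≤ M := ht.trans hM1
    exact_mod_cast this
  have h := zeta_approx t M hM0
  set s : ℂ := 1 / 2 + I * t with hs
  set r := Real.sqrt |t| with hr
  have hr1 : 1 ≤ r := Real.one_le_sqrt.mpr ht
  have hr2 : r ^ 2 = |t| := Real.sq_sqrt (abs_nonneg t)
  set q := Real.sqrt M with hq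
  have hq1 : r ≤ q := Real.sqrt_le_sqrt hM1
  have hq2 : q ≤ 3 / 2 * r := by
    rw [hq, Real.sqrt_le_left (by positivity)]
    nlinarith
  have hq0 : 0 < q := by linarith
  have hA : ‖∑ n ∈ Finset.Icc 1 M, (n : ℂ) ^ (-s)‖ ≤ 2 * q := by
    refine (norm_sum_le _ _).trans (le_trans (le_of_eq ?_) (a_sum_inv_sqrt M))
    exact Finset.sum_congr rfl fun n hn => a_norm_cpow_line t (Finset.mem_Icc.mp hn).1
  have hB : ‖(M : ℂ) ^ (-s) / 2‖ ≤ r / 2 := by
    rw [norm_div, a_norm_cpow_line t hM0]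
    have h2 : ‖(2 : ℂ)‖ = 2 := by simp
    rw [h2]
    have : 1 / q ≤ r := by rw [div_le_iff₀ hq0]; nlinarith
    gcongr
  have hC : ‖(M : ℂ) ^ (1 - s) / (s - 1)‖ ≤ 3 / 2 * r := by
    rw [norm_div, norm_natCast_cpow_of_pos hM0]
    have e1 : (1 - s).re = 1 / 2 := by rw [sub_re, a_re_line]; norm_num
    have e2 : |t| ≤ ‖s - 1‖ := by
      have := abs_im_le_norm (s - 1)
      simpa [hs] using this
    rw [e1, ← Real.sqrt_eq_rpow, ← hq]
    refine (div_le_self hq0.le (ht.trans e2)).trans hq2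
  have hD : (1 / 2 + |t|) / q ≤ 3 / 2 * r := by
    rw [div_le_iff₀ hq0]; nlinarith
  have hE : ‖zetaApprox M s‖ ≤ 2 * q + r / 2 + 3 / 2 * r := by
    unfold zetaApprox
    exact (norm_add_le _ _).trans (add_le_add ((norm_sub_le _ _).trans (add_le_add hA hB)) hC)
  have := norm_le_norm_add_norm_sub' (riemannZeta s) (zetaApprox M s)
  linarith

theorem continuous_zeta_line : Continuous fun t : ℝ => riemannZeta (1 / 2 + I * t) := by
  rw [continuous_iff_continuousAt]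
  intro t
  exact ContinuousAt.comp (f := fun t : ℝ => (1 / 2 + I * t : ℂ))
    (differentiableAt_riemannZeta (a_line_ne_one t)).continuousAt (by fun_prop)

theorem a_quarter_re (t : ℝ) : (1 / 4 + I * t / 2 : ℂ).re = 1 / 4 := by simp

theorem a_Gamma_ne (t : ℝ) : Gamma (1 / 4 + I * t / 2) ≠ 0 :=
  Gamma_ne_zero_of_re_pos (by rw [a_quarter_re]; norm_num)

theorem a_continuous_Gamma : Continuous fun t : ℝ => Gamma (1 / 4 + I * t / 2) := by
  rw [continuous_iff_continuousAt]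
  intro t
  refine ContinuousAt.comp (f := fun t : ℝ => (1 / 4 + I * t / 2 : ℂ))
    (continuousAt_Gamma _ fun m h => ?_) (by fun_prop)
  have := congrArg Complex.re h
  rw [a_quarter_re] at this
  simp at this
  have : (0 : ℝ) ≤ m := by positivity
  linarith

theorem continuous_hardyPhase : Continuous hardyPhase := by
  unfold hardyPhase
  refine Continuous.div (Continuous.mul ?_ a_continuous_Gamma)
    (continuous_ofReal.comp a_continuous_Gamma.norm) fun t => ?_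
  · exact Continuous.const_cpow (by fun_prop) (Or.inl (ofReal_ne_zero.mpr Real.pi_ne_zero))
  · exact ofReal_ne_zero.mpr (norm_ne_zero_iff.mpr (a_Gamma_ne t))

theorem norm_hardyPhase (t : ℝ) : ‖hardyPhase t‖ = 1 := by
  unfold hardyPhase
  rw [norm_div, norm_mul, norm_cpow_eq_rpow_re_of_pos Real.pi_pos]
  have : (-(I * t / 2) : ℂ).re = 0 := by simp
  rw [this, Real.rpow_zero, one_mul, norm_real, norm_norm]
  exact div_self (norm_ne_zero_iff.mpr (a_Gamma_ne t))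

theorem phase_zeta_im (t : ℝ) : (hardyPhase t * riemannZeta (1 / 2 + I * t)).im = 0 := by
  set s : ℂ := 1 / 2 + I * t with hs
  have hpi : (Real.pi : ℂ) ≠ 0 := ofReal_ne_zero.mpr Real.pi_ne_zero
  have hL : ∀ z : ℂ, 0 < z.re → completedRiemannZeta z = Gammaℝ z * riemannZeta z := by
    intro z hz
    have hz0 : z ≠ 0 := by rintro rfl; simp at hz
    rw [riemannZeta_def_of_ne_zero hz0]
    field_simp [Gammaℝ_ne_zero_of_re_pos hz]
  have hre : s.re = 1 / 2 := a_re_line t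
  have hconj : (starRingEnd ℂ) s = 1 - s := by
    apply Complex.ext <;> simp [hs]
    norm_num
  have hG : Gammaℝ ((starRingEnd ℂ) s) = (starRingEnd ℂ) (Gammaℝ s) := by
    rw [Gammaℝ_def, Gammaℝ_def, map_mul, ← Gamma_conj]
    have harg : (Real.pi : ℂ).arg ≠ Real.pi := by
      rw [arg_ofReal_of_nonneg Real.pi_pos.le]; exact Real.pi_ne_zero.symm
    have := cpow_conj (Real.pi : ℂ) (-s / 2) harg
    rw [conj_ofReal] at this
    rw [← this]
    simp [map_ofNat]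
  have hreal : (starRingEnd ℂ) (completedRiemannZeta s) = completedRiemannZeta s := by
    conv_rhs => rw [← completedRiemannZeta_one_sub, ← hconj]
    rw [hL s (by rw [hre]; norm_num), hL _ (by rw [conj_re, hre]; norm_num), hG,
      riemannZeta_conj, map_mul]
  have him : (completedRiemannZeta s).im = 0 := conj_eq_iff_im.mp hreal
  have e : hardyPhase t * riemannZeta s =
      ((Real.pi ^ (1 / 4 : ℝ) / ‖Gamma (1 / 4 + I * t / 2)‖ : ℝ) : ℂ) *
        completedRiemannZeta s := by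
    rw [hL s (by rw [hre]; norm_num), Gammaℝ_def]
    have e1 : s / 2 = 1 / 4 + I * t / 2 := by rw [hs]; ring
    have e2 : (Real.pi : ℂ) ^ (-(I * t / 2)) =
        (Real.pi : ℂ) ^ ((1 / 4 : ℝ) : ℂ) * (Real.pi : ℂ) ^ (-s / 2) := by
      rw [← cpow_add _ _ hpi]
      congr 1
      rw [hs]; push_cast; ring
    rw [e1, ofReal_div, ofReal_cpow Real.pi_pos.le, hardyPhase, e2]
    ring
  rw [e, im_ofReal_mul, him, mul_zero]

end Pool.Agent.MP_6f2ed2_nt.H1
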