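import Pool.Agent.MP_6f2ed2_nt.H1.Terms
import Pool.Agent.MP_6f2ed2_nt.H1.Zeta
import Pool.Agent.MP_6f2ed2_nt.H1.AltSums

/-! The main estimate. -/

namespace Pool.Agent.MP_6f2ed2_nt.H1

open Complex MeasureTheory Set Filter Topology

lemma norm_Jf_le (T : ℝ) : ∃ D : ℝ, 0 ≤ D ∧ ∀ (B : ℝ) (f : ℝ → ℂ), 0 ≤ B →
    (∀ t, ‖f t‖ ≤ B * Real.exp (1 * |t|)) → ‖Jf T f‖ ≤ B * D := by
  refine ⟨∫ p : ℝ × ℝ, (tent T p.1 * Real.exp (1 * |p.1|)) * (gk p.2 * Real.exp (1 * |p.2|))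
    ∂(volume.prod volume), integral_nonneg fun p => ?_, fun B f hB0 hB => ?_⟩
  · have := tent_nonneg T p.1
    have := gk_nonneg p.2
    positivity
  rw [← integral_const_mul]
  refine norm_integral_le_of_norm_le ((integrable_weight T 1).const_mul B)
    (Eventually.of_forall fun p => ?_)
  rw [norm_mul]
  calc _ ≤ ‖((tent T p.1 * gk p.2 : ℝ) : ℂ)‖ * (B * Real.exp (1 * |p.1 + p.2|)) := by
        gcongr; exact hB _
    _ = B * (‖((tent T p.1 * gk p.2 : ℝ) : ℂ)‖ * Real.exp (1 * |p.1 + p.2|)) := by ring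
    _ ≤ _ := mul_le_mul_of_nonneg_left (weight_bound T 1 zero_le_one p) hB0

lemma one_le_exp_abs (t : ℝ) : 1 ≤ Real.exp (1 * |t|) := Real.one_le_exp (by positivity)

lemma line_sub_one_ne (t : ℝ) : (1 / 2 + I * t : ℂ) - 1 ≠ 0 := by
  intro h
  have := congrArg Complex.re h
  simp at this; norm_num at this

lemma Jf_zeta (T : ℝ) : ∃ D : ℝ, ∀ X : ℕ, 1 ≤ X →
    ‖Jf T (fun t => riemannZeta (1 / 2 + I * t) * Mf t) -
      ((∑ n ∈ Finset.Icc 1 X, hf T n) - hf T X / 2 - ∫ ν in Ioc (0 : ℝ) X, hf T ν)‖ ≤ D / √X := by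
  obtain ⟨D, hD0, hD⟩ := norm_Jf_le T
  refine ⟨D, fun X hX => ?_⟩
  have hX0 : (0 : ℝ) < X := by exact_mod_cast hX
  have hM := continuous_Mf
  have hZ := continuous_zeta_line
  have ipw : ∀ ν : ℝ, 0 < ν → Integrable (fun p : ℝ × ℝ => ((tent T p.1 * gk p.2 : ℝ) : ℂ) *
      (pw ν (p.1 + p.2 : ℝ) * Mf (p.1 + p.2))) (volume.prod volume) := by
    intro ν hν
    apply integrable_Jf T 1 (ν ^ (-(1 / 2) : ℝ)) zero_le_one (fun t => pw ν t * Mf t)
      (by unfold pw; fun_prop)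
    intro t
    rw [norm_mul, norm_pw hν]
    gcongr
    exact (norm_Mf_le t).trans (one_le_exp_abs t)
  have ipol : Integrable (fun p : ℝ × ℝ => ((tent T p.1 * gk p.2 : ℝ) : ℂ) *
      (((X : ℝ) : ℂ) ^ (1 - (1 / 2 + I * (p.1 + p.2 : ℝ))) / ((1 / 2 + I * (p.1 + p.2 : ℝ)) - 1) *
        Mf (p.1 + p.2))) (volume.prod volume) := by
    apply integrable_Jf T 1 ((X : ℝ) ^ (1 / 2 : ℝ) / (1 / 2)) zero_le_one
      (fun t => ((X : ℝ) : ℂ) ^ (1 - (1 / 2 + I * t)) / ((1 / 2 + I * t) - 1) * Mf t)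
    · refine Continuous.mul (Continuous.div ?_ (by fun_prop) line_sub_one_ne) hM
      exact Continuous.const_cpow (by fun_prop) (Or.inl (by exact_mod_cast hX0.ne'))
    · intro t
      rw [norm_mul, norm_div, Complex.norm_cpow_eq_rpow_re_of_pos hX0]
      have e : ((1 : ℂ) - (1 / 2 + I * t)).re = 1 / 2 := by simp; norm_num
      have h1 : 1 / 2 ≤ ‖(1 / 2 + I * t : ℂ) - 1‖ := by
        refine le_trans ?_ (Complex.abs_re_le_norm _)
        simp; norm_num [abs_of_pos]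
      rw [e]
      gcongr
      exact (norm_Mf_le t).trans (one_le_exp_abs t)
  have iz : Integrable (fun p : ℝ × ℝ => ((tent T p.1 * gk p.2 : ℝ) : ℂ) *
      (riemannZeta (1 / 2 + I * (p.1 + p.2 : ℝ)) * Mf (p.1 + p.2))) (volume.prod volume) := by
    apply integrable_Jf T 1 2 zero_le_one (fun t => riemannZeta (1 / 2 + I * t) * Mf t) (hZ.mul hM)
    intro t
    rw [norm_mul]
    have h1 := zeta_bound_lin t
    have h2 := Real.add_one_le_exp |t|
    have h3 := abs_nonneg t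
    calc _ ≤ (2 + |t|) * 1 := by gcongr; exact norm_Mf_le t
      _ ≤ _ := by rw [one_mul]; linarith
  have isum : Integrable (fun p : ℝ × ℝ => ∑ n ∈ Finset.Icc 1 X, ((tent T p.1 * gk p.2 : ℝ) : ℂ) *
      (pw n (p.1 + p.2 : ℝ) * Mf (p.1 + p.2))) (volume.prod volume) :=
    integrable_finsetSum _ fun n hn => ipw n (by exact_mod_cast (Finset.mem_Icc.mp hn).1)
  have e : Jf T (fun t => riemannZeta (1 / 2 + I * t) * Mf t) -
      ((∑ n ∈ Finset.Icc 1 X, hf T n) - hf T X / 2 - ∫ ν in Ioc (0 : ℝ) X, hf T ν) =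
      Jf T (fun t => (riemannZeta (1 / 2 + I * t) - zetaApprox X (1 / 2 + I * t)) * Mf t) := by
    rw [sub_eq_add_neg (_ - _), ← Jf_polar T X hX0]
    simp only [hf, Jf]
    have i1 := (ipw X hX0).div_const 2
    have i2 : Integrable (fun p : ℝ × ℝ => (∑ n ∈ Finset.Icc 1 X, ((tent T p.1 * gk p.2 : ℝ) : ℂ) *
      (pw n (p.1 + p.2 : ℝ) * Mf (p.1 + p.2))) - ((tent T p.1 * gk p.2 : ℝ) : ℂ) *
      (pw X (p.1 + p.2 : ℝ) * Mf (p.1 + p.2)) / 2) (volume.prod volume) := isum.sub i1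
    rw [← integral_finsetSum (Finset.Icc 1 X) fun (n : ℕ) hn => ipw n (by exact_mod_cast (Finset.mem_Icc.mp hn).1),
      ← integral_div, ← integral_sub isum i1, ← integral_add i2 ipol,
      ← integral_sub iz (i2.fun_add ipol)]
    congr 1; ext p
    rw [← Finset.mul_sum, ← Finset.sum_mul, zetaApprox, pw_eq hX0,
      Finset.sum_congr (rfl : Finset.Icc 1 X = _) fun (n : ℕ) hn =>
        pw_eq (ν := n) (by exact_mod_cast (Finset.mem_Icc.mp hn).1) (p.1 + p.2)]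
    simp only [Complex.ofReal_natCast]
    ring
  rw [e, div_eq_inv_mul D]
  apply hD _ _ (by positivity)
  intro t
  rw [norm_mul]
  have h1 := zeta_approx t X hX
  have h2 := Real.add_one_le_exp |t|
  calc _ ≤ (1 / 2 + |t|) / √X * 1 := by gcongr; exact norm_Mf_le t
    _ ≤ _ := by
      rw [mul_one, div_eq_inv_mul (1 / 2 + |t|), one_mul]; gcongr; linarith

lemma sqrt_mul_le (T N : ℝ) (hT : 0 ≤ T) (hN : N ≤ √T) : √T * √N ≤ T ^ (3 / 4 : ℝ) := by
  calc √T * √N ≤ √T * √√T := by gcongr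
    _ = _ := by
      rw [Real.sqrt_eq_rpow, Real.sqrt_eq_rpow, ← Real.rpow_mul hT, ← Real.rpow_add' hT (by norm_num)]
      norm_num

lemma Jf_main : ∃ C : ℝ, ∀ T : ℝ, 2 * Real.pi ≤ T →
    ‖Jf T (fun t => riemannZeta (1 / 2 + I * t) * Mf t) -
      ((∑ ν ∈ Finset.Icc 1 ⌊√(T / (2 * Real.pi))⌋₊, mainTerm T ν) - ∫ ν in Ioi (0 : ℝ), hf T ν)‖
      ≤ C * T ^ (3 / 4 : ℝ) := by
  obtain ⟨C1, hC1, h1⟩ := hf_approx
  obtain ⟨C2, hC2, h2⟩ := err_sum
  refine ⟨2 * C1 * C2, fun T hT => ?_⟩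
  have hpi := Real.pi_gt_three
  have hT0 : 0 ≤ T := by linarith
  obtain ⟨D, hD⟩ := Jf_zeta T
  set N := √(T / (2 * Real.pi)) with hN
  have hN1 : 1 ≤ N := Real.one_le_sqrt.mpr (by rw [one_le_div (by positivity)]; exact hT)
  have hNT : N ≤ √T := Real.sqrt_le_sqrt (div_le_self hT0 (by linarith))
  set J := Jf T (fun t => riemannZeta (1 / 2 + I * t) * Mf t) with hJ
  set S := ∑ ν ∈ Finset.Icc 1 ⌊N⌋₊, mainTerm T ν with hS
  have main : ∀ X : ℕ, ⌊N⌋₊ + 1 ≤ X → ‖J - (S - ∫ ν in (0 : ℝ)..X, hf T ν)‖ ≤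
      2 * C1 * C2 * T ^ (3 / 4 : ℝ) + D / √X := by
    intro X hX
    have hX1 : 1 ≤ X := by omega
    set e : ℕ → ℝ := fun ν => √ν * (1 / (1 + ((ν : ℝ) - N) ^ 2) + 1 / (ν : ℝ) ^ 2) with he
    have hS' : S = ∑ ν ∈ Finset.Icc 1 X, (if ν ≤ ⌊N⌋₊ then mainTerm T ν else 0) := by
      rw [← Finset.sum_filter, hS]
      congr 1; ext ν
      simp only [Finset.mem_Icc, Finset.mem_filter]
      omega
    have b0 : C1 * √T * ∑ ν ∈ Finset.Icc 1 X, e ν ≤ C1 * C2 * T ^ (3 / 4 : ℝ) := by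
      calc _ ≤ C1 * √T * (C2 * √N) := by gcongr; exact h2 N hN1 X
        _ = C1 * C2 * (√T * √N) := by ring
        _ ≤ _ := by gcongr; exact sqrt_mul_le T N hT0 hNT
    have b1 : ‖(∑ n ∈ Finset.Icc 1 X, hf T n) - S‖ ≤ C1 * C2 * T ^ (3 / 4 : ℝ) := by
      rw [hS', ← Finset.sum_sub_distrib]
      refine (norm_sum_le _ _).trans (le_trans ?_ b0)
      rw [Finset.mul_sum]
      exact Finset.sum_le_sum fun ν hν => h1 T ν hT (Finset.mem_Icc.mp hν).1
    have b2 : ‖hf T X‖ ≤ C1 * C2 * T ^ (3 / 4 : ℝ) := by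
      have := h1 T X hT hX1
      rw [if_neg (by rw [← hN]; omega), sub_zero] at this
      refine this.trans (le_trans ?_ b0)
      gcongr
      exact Finset.single_le_sum (f := e) (fun ν _ => by positivity)
        (Finset.mem_Icc.mpr ⟨hX1, le_rfl⟩)
    have b3 := hD X hX1
    rw [intervalIntegral.integral_of_le (by positivity)]
    have e1 : J - (S - ∫ ν in Ioc (0 : ℝ) X, hf T ν) =
        (J - ((∑ n ∈ Finset.Icc 1 X, hf T n) - hf T X / 2 - ∫ ν in Ioc (0 : ℝ) X, hf T ν)) +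
          ((∑ n ∈ Finset.Icc 1 X, hf T n) - S) - hf T X / 2 := by ring
    rw [e1]
    refine (norm_sub_le _ _).trans ?_
    have := norm_add_le
      (J - ((∑ n ∈ Finset.Icc 1 X, hf T n) - hf T X / 2 - ∫ ν in Ioc (0 : ℝ) X, hf T ν))
      ((∑ n ∈ Finset.Icc 1 X, hf T n) - S)
    rw [norm_div, Complex.norm_ofNat]
    linarith [norm_nonneg (hf T X)]
  have lim1 : Tendsto (fun X : ℕ => ‖J - (S - ∫ ν in (0 : ℝ)..X, hf T ν)‖) atTop
      (𝓝 ‖J - (S - ∫ ν in Ioi (0 : ℝ), hf T ν)‖) :=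
    (((intervalIntegral_tendsto_integral_Ioi 0 (integrableOn_hf T hT0)
      tendsto_natCast_atTop_atTop).const_sub S).const_sub J).norm
  have lim2 : Tendsto (fun X : ℕ => 2 * C1 * C2 * T ^ (3 / 4 : ℝ) + D / √X) atTop
      (𝓝 (2 * C1 * C2 * T ^ (3 / 4 : ℝ) + 0)) :=
    tendsto_const_nhds.add (tendsto_const_nhds.div_atTop
      (Real.tendsto_sqrt_atTop.comp tendsto_natCast_atTop_atTop))
  rw [add_zero] at lim2
  exact le_of_tendsto_of_tendsto lim1 lim2 ((eventually_ge_atTop _).mono main)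

theorem main_estimate : ∃ L C : ℝ, L ≤ -3.9 ∧ ∀ T : ℝ, 2 * Real.pi ≤ T →
      |(∫ t in (0 : ℝ)..T, ((T - t : ℝ) : ℂ) *
          (riemannZeta (1 / 2 + I * t) * Mf t +
            riemannZeta (1 / 2 + I * (-t : ℝ)) * Mf (-t))).re - L * T| ≤ C * T ^ (3 / 4 : ℝ) := by
  obtain ⟨κ, hκ, C1, h1⟩ := alt_sums
  obtain ⟨C2, h2⟩ := Jf_main
  obtain ⟨C3, hC3, h3⟩ := smooth_error
  obtain ⟨C4, hC4, h4⟩ := pole_bound
  set a : ℂ := (2 * √2 * Real.pi : ℝ) * cexp (I * Real.pi / 8) with ha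
  set b : ℂ := c1 * g0 * cexp (-(I * Real.pi / 8)) with hb
  refine ⟨_, C3 * 7 * 2 + C2 + ‖a‖ * (C1 + C1) + ‖b‖ * C4, const_bound κ hκ, fun T hT => ?_⟩
  have hpi := Real.pi_gt_three
  have hT0 : 0 ≤ T := by linarith
  have hT1 : 1 ≤ T := by linarith
  set f : ℝ → ℂ := fun t => riemannZeta (1 / 2 + I * t) * Mf t with hf'
  have hfc : Continuous f := continuous_zeta_line.mul continuous_Mf
  have hfb : ∀ t, ‖f t‖ ≤ 7 * √(1 + |t|) := by
    intro t
    have h0 := abs_nonneg t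
    have h5 : ‖riemannZeta (1 / 2 + I * t)‖ ≤ 7 * √(1 + |t|) := by
      rcases le_total 1 |t| with h | h
      · refine (zeta_bound_sqrt t h).trans ?_
        gcongr; linarith
      · have : 1 ≤ √(1 + |t|) := Real.one_le_sqrt.mpr (by linarith)
        linarith [zeta_bound_lin t]
    rw [hf']; simp only []
    rw [norm_mul]
    calc _ ≤ 7 * √(1 + |t|) * 1 := by gcongr; exact norm_Mf_le t
      _ = _ := mul_one _
  have e0 := tent_split T hT0 f hfc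
  simp only [Complex.real_smul] at e0
  set V := ∫ τ, (tent T τ : ℂ) * f τ with hV
  have e1 : (∫ t in (0 : ℝ)..T, ((T - t : ℝ) : ℂ) *
          (riemannZeta (1 / 2 + I * t) * Mf t +
            riemannZeta (1 / 2 + I * (-t : ℝ)) * Mf (-t))) = V := e0.symm
  rw [e1]
  set P := T ^ (3 / 4 : ℝ) with hP
  have hP1 : 1 ≤ P := Real.one_le_rpow hT1 (by norm_num)
  have hP2 : √(1 + T) ≤ 2 * P := by
    have a1 : √(1 + T) ≤ 2 * √T := by
      rw [Real.sqrt_le_iff, mul_pow, Real.sq_sqrt hT0]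
      exact ⟨by positivity, by linarith⟩
    have a2 : √T ≤ P := by
      rw [Real.sqrt_eq_rpow, hP]
      exact Real.rpow_le_rpow_of_exponent_le hT1 (by norm_num)
    linarith
  have b1 : ‖Jf T f - V‖ ≤ C3 * 7 * 2 * P := by
    refine (h3 T 7 f hT0 hfc hfb).trans ?_
    rw [mul_assoc (C3 * 7)]; gcongr
  have b2 := h2 T hT
  obtain ⟨b3, b4⟩ := h1 T hT
  have b5 := h4 T hT0
  set n := ⌊√(T / (2 * Real.pi))⌋₊ with hn
  set S1 := ∑ ν ∈ Finset.Icc 1 n, (-1 : ℝ) ^ ν * √ν * (T - 2 * Real.pi * ν ^ 2) with hS1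
  set S2 := ∑ ν ∈ Finset.Icc 1 n, (-1 : ℝ) ^ ν * √ν with hS2
  have e2 : ∑ ν ∈ Finset.Icc 1 n, mainTerm T ν = a * (S1 - I * S2) := by
    rw [hS1, hS2, Complex.ofReal_sum, Complex.ofReal_sum, Finset.mul_sum, ← Finset.sum_sub_distrib,
      Finset.mul_sum]
    rfl
  set G := ∫ τ, (tent T τ : ℂ) * gam τ with hG
  have e3 : ∫ ν in Ioi (0 : ℝ), hf T ν = b * G := by
    rw [integral_hf T hT0, pole_eq, hb]; ring
  rw [e2, e3] at b2
  have e4 : V - (a * κ - b * (4 * Real.pi)) * T =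
      -(Jf T f - V) + (Jf T f - (a * (S1 - I * S2) - b * G)) +
        a * (((S1 - κ * T : ℝ) : ℂ) - I * S2) - b * (G - 4 * Real.pi * T) := by
    push_cast; ring
  have b6 : ‖((S1 - κ * T : ℝ) : ℂ) - I * S2‖ ≤ (C1 + C1) * P := by
    refine (norm_sub_le _ _).trans ?_
    rw [norm_mul, Complex.norm_I, one_mul, Complex.norm_real, Complex.norm_real, Real.norm_eq_abs,
      Real.norm_eq_abs]
    linarith
  have b7 : ‖V - (a * κ - b * (4 * Real.pi)) * T‖ ≤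
      (C3 * 7 * 2 + C2 + ‖a‖ * (C1 + C1) + ‖b‖ * C4) * P := by
    rw [e4]
    refine (norm_sub_le _ _).trans ?_
    have t1 := norm_add_le (-(Jf T f - V) + (Jf T f - (a * (S1 - I * S2) - b * G)))
      (a * (((S1 - κ * T : ℝ) : ℂ) - I * S2))
    have t2 := norm_add_le (-(Jf T f - V)) (Jf T f - (a * (S1 - I * S2) - b * G))
    rw [norm_neg] at t2
    rw [norm_mul] at t1 ⊢
    have t3 : ‖a‖ * ‖((S1 - κ * T : ℝ) : ℂ) - I * S2‖ ≤ ‖a‖ * ((C1 + C1) * P) := by gcongr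
    have t4 : ‖b‖ * ‖G - 4 * Real.pi * T‖ ≤ ‖b‖ * (C4 * P) := by
      gcongr; exact b5.trans (le_mul_of_one_le_right hC4 hP1)
    linarith
  refine le_trans (le_of_eq ?_) ((Complex.abs_re_le_norm _).trans b7)
  congr 1
  have ea : a.re = 2 * √2 * Real.pi * Real.cos (Real.pi / 8) := by
    rw [ha, Complex.re_ofReal_mul, show I * Real.pi / 8 = ((Real.pi / 8 : ℝ) : ℂ) * I by
      push_cast; ring, Complex.exp_ofReal_mul_I_re]
  have eb : b.re = g0 / 2 := by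
    have : b = ((√2)⁻¹ * g0 : ℝ) * cexp (((-(Real.pi / 4) : ℝ) : ℂ) * I) := by
      rw [hb, c1, show ((-(Real.pi / 4) : ℝ) : ℂ) * I = -(I * Real.pi / 8) + -(I * Real.pi / 8) by
        push_cast; ring, Complex.exp_add]
      push_cast; ring
    rw [this, Complex.re_ofReal_mul, Complex.exp_ofReal_mul_I_re, Real.cos_neg,
      Real.cos_pi_div_four]
    field_simp
  have ec : ((a * κ - b * (4 * Real.pi)) * T).re = (a.re * κ - b.re * (4 * Real.pi)) * T := by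
    simp
  rw [Complex.sub_re, ec, ea, eb, g0]
  ring

end Pool.Agent.MP_6f2ed2_nt.H1
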