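import Pool.Agent.MP_6f2ed2_nt.H1.Defs

/-! Auxiliary objects for the proof. -/

namespace Pool.Agent.MP_6f2ed2_nt.H1

open Complex

/-- analytic substitute of the phase -/
noncomputable def Mf (t : ℝ) : ℂ :=
  ((Real.sqrt 2 : ℂ))⁻¹ * cexp (-(I * Real.pi / 8)) * cexp (Real.pi * t / 4) *
    Gamma (1 / 2 + I * t / 2) * (Real.pi : ℂ) ^ (-(1 / 2 + I * t / 2))

/-- relative defect -/
noncomputable def eps (t : ℝ) : ℝ := 1 - (Mf t / hardyPhase t).re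

/-- Euler-Maclaurin approximation of zeta -/
noncomputable def zetaApprox (X : ℕ) (s : ℂ) : ℂ :=
  (∑ n ∈ Finset.Icc 1 X, (n : ℂ) ^ (-s)) - (X : ℂ) ^ (-s) / 2 + (X : ℂ) ^ (1 - s) / (s - 1)

end Pool.Agent.MP_6f2ed2_nt.H1
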