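import Pool.Agent.MP_6f2ed2_nt.H1.Contour

/-! Saddle point estimate. -/

namespace Pool.Agent.MP_6f2ed2_nt.H1

open Complex MeasureTheory Set Filter Topology

/-- the oscillating factor -/
noncomputable def Phi (r T : ℝ) (z : ℂ) : ℂ := cexp (z / 2 - z ^ 2 - I * r * cexp z + I * T * z / 2)

lemma differentiable_Phi (r T : ℝ) : Differentiable ℂ (Phi r T) := by
  unfold Phi; fun_prop

lemma deriv_Phi (r T : ℝ) : deriv (Phi r T) 0 = cexp (-(I * r)) * (1 / 2 - I * r + I * T / 2) := by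
  have h : HasDerivAt (fun z : ℂ => z / 2 - z ^ 2 - I * r * cexp z + I * T * z / 2)
      (1 / 2 - I * r + I * T / 2) 0 := by
    have h1 := ((((hasDerivAt_id (0 : ℂ)).div_const 2).sub (hasDerivAt_pow 2 (0 : ℂ))).sub
      ((Complex.hasDerivAt_exp 0).const_mul (I * r))).add
      (((hasDerivAt_id (0 : ℂ)).const_mul (I * T)).div_const 2)
    exact h1.congr_deriv (by simp)
  have := h.cexp.deriv
  unfold Phi
  rw [this]; simp

lemma norm_Phi (r T x y : ℝ) : ‖Phi r T (x + y * I)‖ =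
    Real.exp (x / 2 - x ^ 2 + y ^ 2 + r * Real.exp x * Real.sin y - T * y / 2) := by
  unfold Phi
  rw [Complex.norm_exp]
  congr 1
  simp [Complex.exp_re, Complex.exp_im, sq]
  ring

lemma gauss_aux (θ x : ℝ) (hθ : θ = 0 ∨ θ = 1) :
    Real.exp ((1 / 2 - θ) * x - x ^ 2) * (1 + |x|) ^ 2 ≤ Real.exp 2 := by
  have h1 : 1 + |x| ≤ Real.exp |x| := by linarith [Real.add_one_le_exp |x|]
  have h2 : (1 + |x|) ^ 2 ≤ Real.exp (2 * |x|) := by
    rw [show 2 * |x| = |x| + |x| by ring, Real.exp_add, sq]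
    have := abs_nonneg x
    gcongr
  have h3 : (1 / 2 - θ) * x ≤ |x| / 2 := by
    rcases hθ with rfl | rfl
    · linarith [le_abs_self x]
    · linarith [neg_abs_le x]
  calc _ ≤ Real.exp ((1 / 2 - θ) * x - x ^ 2) * Real.exp (2 * |x|) := by gcongr
    _ = Real.exp ((1 / 2 - θ) * x - x ^ 2 + 2 * |x|) := (Real.exp_add _ _).symm
    _ ≤ Real.exp 2 := by
      gcongr
      nlinarith [sq_abs x, sq_nonneg (|x| - 5 / 4)]

lemma upper_aux (l d : ℝ) (hl : 1 ≤ l) (hd : l * d ≤ 1) :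
    Real.exp (l / 2 * (Real.exp d - 1)) * (1 + l ^ 2 * d ^ 2) ≤ 8 * (1 + |d|) ^ 2 := by
  rcases le_total d 0 with h | h
  · set p := l * (1 - Real.exp d) with hp
    have he : Real.exp d ≤ 1 := Real.exp_le_one_iff.mpr h
    have hp0 : 0 ≤ p := by rw [hp]; have : 0 ≤ 1 - Real.exp d := by linarith
                           positivity
    have h1 : Real.exp d * (1 - d) ≤ 1 := by
      have := Real.add_one_le_exp (-d)
      calc Real.exp d * (1 - d) ≤ Real.exp d * Real.exp (-d) := by gcongr; linarith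
        _ = 1 := by rw [← Real.exp_add]; simp
    have h2 : l * (-d) ≤ p * (1 - d) := by
      rw [hp, mul_assoc]; gcongr; nlinarith
    have h3 : 1 + l ^ 2 * d ^ 2 ≤ (1 + p ^ 2) * (1 - d) ^ 2 := by
      have : (l * (-d)) ^ 2 ≤ (p * (1 - d)) ^ 2 := by
        apply pow_le_pow_left₀ _ h2
        have : 0 ≤ -d := by linarith
        positivity
      nlinarith
    have h4 : 1 + p ^ 2 ≤ 8 * Real.exp (p / 2) := by
      have := Real.quadratic_le_exp_of_nonneg (show 0 ≤ p / 2 by positivity)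
      nlinarith
    rw [abs_of_nonpos h, show l / 2 * (Real.exp d - 1) = -(p / 2) by rw [hp]; ring]
    calc _ ≤ Real.exp (-(p / 2)) * ((8 * Real.exp (p / 2)) * (1 - d) ^ 2) := by
          gcongr; exact h3.trans (by gcongr)
      _ = 8 * (1 - d) ^ 2 * (Real.exp (-(p / 2)) * Real.exp (p / 2)) := by ring
      _ = _ := by rw [← Real.exp_add]; simp; ring
  · have hd1 : d ≤ 1 := by nlinarith
    have h1 : Real.exp d - 1 ≤ 2 * d := by
      have := Real.abs_exp_sub_one_le (x := d) (by rw [abs_of_nonneg h]; exact hd1)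
      rw [abs_of_nonneg h] at this
      exact (le_abs_self _).trans this
    have h2 : l / 2 * (Real.exp d - 1) ≤ 1 := by nlinarith
    have h3 : Real.exp (l / 2 * (Real.exp d - 1)) ≤ 3 :=
      (Real.exp_le_exp.mpr h2).trans (by linarith [Real.exp_one_lt_d9])
    have h4 : 1 + l ^ 2 * d ^ 2 ≤ 2 := by
      have : 0 ≤ l * d := by positivity
      nlinarith
    have h5 : 1 ≤ (1 + |d|) ^ 2 := by nlinarith [abs_nonneg d]
    calc _ ≤ (3 : ℝ) * 2 := by gcongr
      _ ≤ _ := by linarith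

lemma lower_aux (l d θ : ℝ) (hl : 1 ≤ l) (hd : -1 ≤ l * d) (hθ : θ = 0 ∨ θ = 1) :
    Real.exp (θ * d - (l / 2 * (Real.exp d - 1) - Real.exp d / (8 * l))) * (1 + l ^ 2 * d ^ 2)
      ≤ 800 := by
  have hl0 : 0 < l := by linarith
  have hil : 1 / (8 * l) ≤ 1 / 8 := by gcongr; linarith
  have hil0 : 0 < 1 / (8 * l) := by positivity
  have e1 : Real.exp d / (8 * l) = 1 / (8 * l) * (Real.exp d - 1) + 1 / (8 * l) := by ring
  have h3 : Real.exp 1 ≤ 3 := by linarith [Real.exp_one_lt_d9]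
  rcases le_total 0 d with h | h
  · set φ := Real.exp d - 1 with hφ
    have hφd : d ≤ φ := by linarith [Real.add_one_le_exp d]
    have hφ0 : 0 ≤ φ := h.trans hφd
    set p := l * φ with hp
    have hp0 : 0 ≤ p := by positivity
    have hφp : φ ≤ p := by nlinarith
    have h1 : θ * d - (l / 2 * φ - Real.exp d / (8 * l)) ≤ d + 1 - 3 * p / 8 := by
      have : θ * d ≤ d := by rcases hθ with rfl | rfl <;> linarith
      rw [e1]
      have : 1 / (8 * l) * φ ≤ 1 / 8 * p := by gcongr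
      nlinarith
    have h2 : Real.exp d ≤ 8 * Real.exp (p / 8) := by
      have := Real.add_one_le_exp (p / 8)
      linarith
    have h4 : 1 + l ^ 2 * d ^ 2 ≤ 32 * Real.exp (p / 4) := by
      have := Real.quadratic_le_exp_of_nonneg (show 0 ≤ p / 4 by positivity)
      have h5 : (l * d) ^ 2 ≤ p ^ 2 := by
        apply pow_le_pow_left₀ (by positivity); rw [hp]; gcongr
      nlinarith
    calc _ ≤ Real.exp (d + 1 - 3 * p / 8) * (32 * Real.exp (p / 4)) := by gcongr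
      _ = Real.exp d * Real.exp 1 * 32 * (Real.exp (-(3 * p / 8)) * Real.exp (p / 4)) := by
        rw [sub_eq_add_neg, Real.exp_add, Real.exp_add]; ring
      _ ≤ (8 * Real.exp (p / 8)) * 3 * 32 * (Real.exp (-(3 * p / 8)) * Real.exp (p / 4)) := by
        gcongr
      _ = 768 * (Real.exp (p / 8) * Real.exp (-(3 * p / 8)) * Real.exp (p / 4)) := by ring
      _ = 768 := by rw [← Real.exp_add, ← Real.exp_add]; ring_nf; simp
      _ ≤ 800 := by norm_num
  · have he : Real.exp d ≤ 1 := Real.exp_le_one_iff.mpr h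
    have h0 : d ≤ Real.exp d - 1 := by linarith [Real.add_one_le_exp d]
    have h1 : θ * d - (l / 2 * (Real.exp d - 1) - Real.exp d / (8 * l)) ≤ 1 := by
      have : θ * d ≤ 0 := by rcases hθ with rfl | rfl <;> linarith
      rw [e1]
      have h6 : 1 / (8 * l) * (Real.exp d - 1) ≤ 0 :=
        mul_nonpos_of_nonneg_of_nonpos hil0.le (by linarith)
      have h7 : l / 2 * d ≤ l / 2 * (Real.exp d - 1) := by gcongr
      nlinarith
    have h4 : 1 + l ^ 2 * d ^ 2 ≤ 2 := by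
      have : l * d ≤ 0 := mul_nonpos_of_nonneg_of_nonpos hl0.le h
      nlinarith
    calc _ ≤ Real.exp 1 * 2 := by gcongr
      _ ≤ 800 := by linarith

lemma integral_inv_scaled (l u : ℝ) (hl : 0 < l) :
    Integrable (fun x : ℝ => (1 + l ^ 2 * (x - u) ^ 2)⁻¹) ∧
    ∫ x : ℝ, (1 + l ^ 2 * (x - u) ^ 2)⁻¹ = Real.pi / l := by
  have e : (fun x : ℝ => (1 + l ^ 2 * (x - u) ^ 2)⁻¹) =
      fun x => (fun y : ℝ => (fun z : ℝ => (1 + z ^ 2)⁻¹) (l * y)) (x - u) := by
    ext x; simp [mul_pow]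
  rw [e]
  constructor
  · exact (integrable_inv_one_add_sq.comp_mul_left' hl.ne').comp_sub_right u
  · rw [integral_sub_right_eq_self (fun y : ℝ => (fun z : ℝ => (1 + z ^ 2)⁻¹) (l * y)) u,
      Measure.integral_comp_mul_left (fun z : ℝ => (1 + z ^ 2)⁻¹), integral_univ_inv_one_add_sq,
      abs_of_pos (inv_pos.mpr hl)]
    simp [div_eq_mul_inv, mul_comm]

theorem saddle_bound : ∃ C : ℝ, 0 ≤ C ∧ ∀ (T r θ : ℝ), 1 ≤ T → 0 < r → (θ = 0 ∨ θ = 1) →
    ‖(∫ x : ℝ, Phi r T (x + (-(Real.pi / 2) : ℝ) * I) / ((x : ℂ) + (-(Real.pi / 2) : ℝ) * I) ^ 2) -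
      (if 2 * r ≤ T then 2 * Real.pi * I * (cexp (-(I * r)) * (1 / 2 - I * r + I * T / 2)) else 0)‖
      ≤ C * √T * (Real.exp (θ * Real.log (T / (2 * r))) * (1 + Real.log (T / (2 * r)) ^ 2) /
        (1 + T * Real.log (T / (2 * r)) ^ 2)) := by
  set K : ℝ := 800 * Real.exp 4 with hK
  refine ⟨K * 4 * Real.pi + 2 * Real.exp 6, by positivity, fun T r θ hT hr hθ => ?_⟩
  set u₀ := Real.log (T / (2 * r)) with hu₀
  set l := √T with hl
  have hT0 : 0 < T := by linarith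
  have hl1 : 1 ≤ l := Real.one_le_sqrt.mpr hT
  have hl0 : 0 < l := by linarith
  have hl2 : l ^ 2 = T := Real.sq_sqrt hT0.le
  set η := l⁻¹ with hη
  have hη0 : 0 < η := by positivity
  have hη1 : η ≤ 1 := inv_le_one_of_one_le₀ hl1
  have hlη : l * η = 1 := mul_inv_cancel₀ hl0.ne'
  have hTη : T * η = l := by rw [← hl2, sq, mul_assoc, hlη, mul_one]
  have hTη2 : T * η ^ 2 = 1 := by rw [sq, ← mul_assoc, hTη, hlη]
  set m := Real.exp (θ * u₀) with hm
  have hm0 : 0 < m := Real.exp_pos _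
  have hrx : ∀ x : ℝ, r * Real.exp x = T / 2 * Real.exp (x - u₀) := by
    intro x
    rw [Real.exp_sub, hu₀, Real.exp_log (by positivity)]
    field_simp
  set u₁ : ℝ := if 2 * r ≤ T then u₀ + η else u₀ - η with hu₁
  have hsign : (2 * r ≤ T ↔ 0 ≤ u₀) := by
    rw [hu₀, Real.log_nonneg_iff (by positivity), one_le_div (by positivity)]
  have hu₁a : u₁ ≤ u₀ + η := by rw [hu₁]; split_ifs <;> linarith
  have hu₁b : u₀ - η ≤ u₁ := by rw [hu₁]; split_ifs <;> linarith
  have hu₁pos : (0 < u₁ ↔ 2 * r ≤ T) := by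
    rw [hu₁]; split_ifs with h
    · simp only [h, iff_true]; linarith [hsign.mp h]
    · simp only [h, iff_false, not_lt]
      have := mt hsign.mpr h
      linarith [not_le.mp this]
  have hu₁sq : u₀ ^ 2 + η ^ 2 ≤ u₁ ^ 2 := by
    rw [hu₁]; split_ifs with h
    · linarith only [mul_nonneg (hsign.mp h) hη0.le]
    · have := not_le.mp (mt hsign.mpr h)
      linarith only [mul_nonneg (neg_nonneg.mpr this.le) hη0.le]
  have hu₁ne : u₁ ≠ 0 := by
    intro h; rw [h] at hu₁sq; linarith only [hu₁sq, sq_nonneg u₀, sq_pos_of_pos hη0]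
  have hθ1 : ∀ d : ℝ, d ≤ 1 → θ * d ≤ 1 := by
    intro d hd; rcases hθ with rfl | rfl <;> linarith
  have hpi : Real.pi / 2 ≤ 2 := by linarith [Real.pi_le_four]
  have hpi1 : 1 ≤ Real.pi / 2 := by linarith [Real.pi_gt_three]
  set Q : ℝ := m * (1 + u₀ ^ 2) / (1 + T * u₀ ^ 2) with hQ
  have hQ0 : 0 ≤ Q := by positivity
  have iA := integral_inv_scaled l u₀ hl0
  have iB := integral_inv_scaled l 0 hl0
  -- reduction of the pointwise bound
  have red : ∀ x N : ℝ, N * (1 + l ^ 2 * (x - u₀) ^ 2) ≤ K * (m * (1 + u₀ ^ 2)) →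
      N / (x ^ 2 + η ^ 2) ≤ K * Q * 2 * T *
        ((1 + l ^ 2 * (x - u₀) ^ 2)⁻¹ + (1 + l ^ 2 * (x - 0) ^ 2)⁻¹) := by
    intro x N hN
    set A := 1 + l ^ 2 * (x - u₀) ^ 2 with hA
    set B := 1 + l ^ 2 * (x - 0) ^ 2 with hB
    have hA0 : 0 < A := by positivity
    have hB0 : 0 < B := by positivity
    have e1 : x ^ 2 + η ^ 2 = B / T := by
      rw [hB, hl2]; field_simp; linarith
    have e2 : 1 + T * u₀ ^ 2 ≤ 2 * (A + B) := by
      rw [hA, hB, hl2]; linarith only [mul_nonneg hT0.le (sq_nonneg (2 * x - u₀))]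
    have hN' : N ≤ K * (m * (1 + u₀ ^ 2)) / A := by rwa [le_div_iff₀ hA0]
    calc N / (x ^ 2 + η ^ 2) ≤ K * (m * (1 + u₀ ^ 2)) / A / (B / T) := by rw [e1]; gcongr
      _ = K * (m * (1 + u₀ ^ 2) / (2 * (A + B))) * 2 * T * (A⁻¹ + B⁻¹) := by field_simp; ring
      _ ≤ _ := by rw [hQ]; gcongr
  have key := contour_bound (Phi r T) (differentiable_Phi r T) (Real.pi / 2) η u₁
    (Real.exp (5 + r * Real.exp u₁ + T)) (Real.exp 6 * T * Q)
    (fun x => K * Q * 2 * T * ((1 + l ^ 2 * (x - u₀) ^ 2)⁻¹ + (1 + l ^ 2 * (x - 0) ^ 2)⁻¹))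
    hη0 (by linarith) hu₁ne ?_ ?_ ((iA.1.add iB.1).const_mul _) (fun x => by positivity) ?_ ?_ ?_
  · rw [deriv_Phi] at key
    simp only [hu₁pos] at key
    refine key.trans (le_of_eq ?_)
    rw [integral_const_mul, integral_add iA.1 iB.1, iA.2, iB.2, ← hl2, hη]
    field_simp
    ring
  · intro x y hx hy1 hy2
    rw [norm_Phi]
    gcongr
    have h1 : r * Real.exp x * Real.sin y ≤ r * Real.exp u₁ := by
      calc _ ≤ r * Real.exp x * 1 := by gcongr; exact Real.sin_le_one y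
        _ ≤ _ := by rw [mul_one]; gcongr
    have h2 : y ^ 2 ≤ 4 := by nlinarith only [hy1, hy2, hη1, hη0, hpi, hpi1]
    nlinarith only [sq_nonneg (x - 1 / 4), h1, h2, hy1, hy2, hη1, hη0, hpi, hpi1, hT0]
  · intro x y hx hy1 hy2
    rw [norm_Phi]
    gcongr
    have h0 : Real.sin y ≤ 0 :=
      Real.sin_nonpos_of_nonpos_of_neg_pi_le (by linarith) (by linarith [Real.pi_pos])
    have h1 : r * Real.exp x * Real.sin y ≤ r * Real.exp u₁ :=
      (mul_nonpos_of_nonneg_of_nonpos (by positivity) h0).trans (by positivity)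
    have h2 : y ^ 2 ≤ 4 := by nlinarith only [hy1, hy2, hη1, hη0, hpi, hpi1]
    nlinarith only [sq_nonneg (x - 1 / 4), h1, h2, hy1, hy2, hη1, hη0, hpi, hpi1, hT0]
  · intro x hx
    apply red
    rw [norm_Phi, hrx]
    set d := x - u₀ with hd
    have hdη : d ≤ η := by linarith
    have h1 : x / 2 - x ^ 2 + η ^ 2 + T / 2 * Real.exp d * Real.sin η - T * η / 2 ≤
        θ * u₀ + 2 + ((1 / 2 - θ) * x - x ^ 2) + l / 2 * (Real.exp d - 1) := by
      have a1 : T / 2 * Real.exp d * Real.sin η ≤ T / 2 * Real.exp d * η := by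
        gcongr; exact Real.sin_le hη0.le
      have a2 : T / 2 * Real.exp d * η = l / 2 * Real.exp d := by rw [← hTη]; ring
      have a3 := hθ1 d (by linarith)
      have a4 : θ * x = θ * u₀ + θ * d := by rw [hd]; ring
      have a5 : η ^ 2 ≤ 1 := pow_le_one₀ hη0.le hη1
      linarith only [a1, a2, a3, a4, a5, hTη]
    have h2 := upper_aux l d hl1 ((mul_le_mul_of_nonneg_left hdη hl0.le).trans hlη.le)
    have h3 := gauss_aux θ x hθ
    have h4 : (1 + |d|) ^ 2 ≤ (1 + |x|) ^ 2 * (2 * (1 + u₀ ^ 2)) := by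
      have b1 : |d| ≤ |x| + |u₀| := abs_sub x u₀
      have b2 : 1 + |d| ≤ (1 + |x|) * (1 + |u₀|) := by
        linarith only [b1, mul_nonneg (abs_nonneg x) (abs_nonneg u₀)]
      have b3 : (1 + |u₀|) ^ 2 ≤ 2 * (1 + u₀ ^ 2) := by
        linarith only [sq_abs u₀, sq_nonneg (|u₀| - 1)]
      calc _ ≤ ((1 + |x|) * (1 + |u₀|)) ^ 2 := by gcongr
        _ = (1 + |x|) ^ 2 * (1 + |u₀|) ^ 2 := by ring
        _ ≤ _ := by gcongr
    calc _ ≤ Real.exp (θ * u₀ + 2 + ((1 / 2 - θ) * x - x ^ 2) + l / 2 * (Real.exp d - 1)) *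
          (1 + l ^ 2 * d ^ 2) := by gcongr
      _ = m * Real.exp 2 * Real.exp ((1 / 2 - θ) * x - x ^ 2) *
          (Real.exp (l / 2 * (Real.exp d - 1)) * (1 + l ^ 2 * d ^ 2)) := by
        rw [Real.exp_add, Real.exp_add, Real.exp_add]; ring
      _ ≤ m * Real.exp 2 * Real.exp ((1 / 2 - θ) * x - x ^ 2) *
          (8 * ((1 + |x|) ^ 2 * (2 * (1 + u₀ ^ 2)))) :=
        mul_le_mul_of_nonneg_left (h2.trans (by gcongr)) (by positivity)
      _ = 16 * Real.exp 2 * (Real.exp ((1 / 2 - θ) * x - x ^ 2) * (1 + |x|) ^ 2) *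
          (m * (1 + u₀ ^ 2)) := by ring
      _ ≤ 800 * Real.exp 2 * Real.exp 2 * (m * (1 + u₀ ^ 2)) := by gcongr; norm_num
      _ = _ := by rw [hK, mul_assoc 800, ← Real.exp_add]; norm_num
  · intro x hx
    apply red
    rw [norm_Phi, hrx]
    set d := x - u₀ with hd
    have hdη : -η ≤ d := by linarith
    have h1 : x / 2 - x ^ 2 + (-η) ^ 2 + T / 2 * Real.exp d * Real.sin (-η) - T * (-η) / 2 ≤
        θ * u₀ + 2 + ((1 / 2 - θ) * x - x ^ 2) +
          (θ * d - (l / 2 * (Real.exp d - 1) - Real.exp d / (8 * l))) := by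
      have a0 : η - η ^ 3 / 4 ≤ Real.sin η := by
        have := (Real.sin_gt_sub_cube hη0).le
        have h3 : 0 ≤ η ^ 3 := by positivity
        linarith
      have a1 : T / 2 * Real.exp d * (η - η ^ 3 / 4) ≤ T / 2 * Real.exp d * Real.sin η := by
        gcongr
      have a2 : T / 2 * Real.exp d * (η - η ^ 3 / 4) = l / 2 * Real.exp d - Real.exp d / (8 * l) := by
        rw [← hl2, hη]; field_simp; ring
      have a4 : θ * x = θ * u₀ + θ * d := by rw [hd]; ring
      rw [Real.sin_neg]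
      have a5 : η ^ 2 ≤ 1 := pow_le_one₀ hη0.le hη1
      linarith only [a1, a2, a4, a5, hTη]
    have h2 := lower_aux l d θ hl1
      (by linarith only [mul_le_mul_of_nonneg_left hdη hl0.le, hlη]) hθ
    have h3 := gauss_aux θ x hθ
    have h4 : Real.exp ((1 / 2 - θ) * x - x ^ 2) ≤ Real.exp 2 := by
      refine le_trans ?_ h3
      have : 1 ≤ (1 + |x|) ^ 2 := by linarith only [abs_nonneg x, sq_nonneg |x|]
      exact le_mul_of_one_le_right (Real.exp_pos _).le this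
    calc _ ≤ Real.exp (θ * u₀ + 2 + ((1 / 2 - θ) * x - x ^ 2) +
          (θ * d - (l / 2 * (Real.exp d - 1) - Real.exp d / (8 * l)))) *
          (1 + l ^ 2 * d ^ 2) := by gcongr
      _ = m * Real.exp 2 * Real.exp ((1 / 2 - θ) * x - x ^ 2) *
          (Real.exp (θ * d - (l / 2 * (Real.exp d - 1) - Real.exp d / (8 * l))) *
            (1 + l ^ 2 * d ^ 2)) := by
        rw [Real.exp_add, Real.exp_add, Real.exp_add]; ring
      _ ≤ m * Real.exp 2 * Real.exp 2 * 800 := by gcongr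
      _ = K * (m * 1) := by rw [hK, show (4 : ℝ) = 2 + 2 by norm_num, Real.exp_add]; ring
      _ ≤ _ := by gcongr; linarith only [sq_nonneg u₀]
  · intro y hy1 hy2
    rw [norm_Phi, hrx]
    set d := u₁ - u₀ with hd
    have hda : |d| ≤ η := abs_le.mpr ⟨by linarith, by linarith⟩
    have hya : |y| ≤ η := abs_le.mpr ⟨hy1, hy2⟩
    have a1 : |Real.exp d - 1| ≤ 2 * η :=
      (Real.abs_exp_sub_one_le (hda.trans hη1)).trans (by gcongr)
    have a2 : |Real.sin y| ≤ η := Real.abs_sin_le_abs.trans hya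
    have a3 : (Real.exp d - 1) * Real.sin y ≤ 2 * η * η := by
      refine (le_abs_self _).trans ?_
      rw [abs_mul]; gcongr
    have a4 : Real.sin y - y ≤ η ^ 2 := by
      have b1 := (abs_le.mp (Real.sin_bound (hya.trans hη1))).2
      have b2 : |y| ^ 5 ≤ η ^ 2 := by
        calc |y| ^ 5 ≤ η ^ 5 := by gcongr
          _ ≤ η ^ 2 := pow_le_pow_of_le_one hη0.le hη1 (by norm_num)
      have b3 : -(y ^ 3) ≤ η ^ 2 := by
        calc -(y ^ 3) ≤ |y ^ 3| := neg_le_abs _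
          _ = |y| ^ 3 := abs_pow _ _
          _ ≤ η ^ 3 := by gcongr
          _ ≤ η ^ 2 := pow_le_pow_of_le_one hη0.le hη1 (by norm_num)
      linarith [sq_nonneg η]
    have a5 : T / 2 * Real.exp d * Real.sin y - T * y / 2 ≤ 3 / 2 := by
      have : T / 2 * Real.exp d * Real.sin y - T * y / 2 =
        T / 2 * ((Real.exp d - 1) * Real.sin y + (Real.sin y - y)) := by ring
      rw [this]
      calc _ ≤ T / 2 * (2 * η * η + η ^ 2) := by gcongr
        _ = 3 / 2 * (T * η ^ 2) := by ring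
        _ = _ := by rw [hTη2]; ring
    have a6 : y ^ 2 ≤ 1 := by nlinarith only [hy1, hy2, hη1, hη0]
    have a7 := hθ1 d ((le_abs_self _).trans (hda.trans hη1))
    have a8 : (1 / 2 - θ) * u₁ - u₁ ^ 2 ≤ 1 := by
      rcases hθ with rfl | rfl <;>
        linarith only [sq_nonneg (u₁ - 1 / 4), sq_nonneg (u₁ + 1 / 4)]
    have h1 : u₁ / 2 - u₁ ^ 2 + y ^ 2 + T / 2 * Real.exp d * Real.sin y - T * y / 2 ≤
        6 + θ * u₀ := by
      have a9 : θ * u₁ = θ * u₀ + θ * d := by rw [hd]; ring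
      linarith only [a5, a6, a7, a8, a9]
    have h2 : u₀ ^ 2 + η ^ 2 = (1 + T * u₀ ^ 2) / T := by field_simp; linarith
    calc _ ≤ Real.exp (6 + θ * u₀) / (u₀ ^ 2 + η ^ 2) := by gcongr
      _ = Real.exp 6 * T * (m * 1 / (1 + T * u₀ ^ 2)) := by
        rw [h2, Real.exp_add]; field_simp; rfl
      _ ≤ _ := by rw [hQ]; gcongr; linarith only [sq_nonneg u₀]

end Pool.Agent.MP_6f2ed2_nt.H1
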