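import Mathlib

/-! Tent function, Gaussian smoothing. -/

namespace Pool.Agent.MP_6f2ed2_nt.H1

open Complex MeasureTheory Set Filter Topology

/-- tent function -/
noncomputable def tent (T τ : ℝ) : ℝ := max (T - |τ|) 0

/-- Gaussian kernel -/
noncomputable def gk (v : ℝ) : ℝ := (√(16 * Real.pi))⁻¹ * Real.exp (-(1 / 16) * v ^ 2)

/-- smoothed tent average -/
noncomputable def Jf (T : ℝ) (f : ℝ → ℂ) : ℂ :=
  ∫ p : ℝ × ℝ, ((tent T p.1 * gk p.2 : ℝ) : ℂ) * f (p.1 + p.2) ∂(volume.prod volume)

/-- Fourier-Laplace transform of the tent -/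
noncomputable def Kt (T : ℝ) (z : ℂ) : ℂ := ∫ τ : ℝ, (tent T τ : ℂ) * cexp (I * τ * z / 2)

lemma tent_nonneg (T τ : ℝ) : 0 ≤ tent T τ := le_max_right _ _

lemma gk_nonneg (v : ℝ) : 0 ≤ gk v := by unfold gk; positivity

@[fun_prop] lemma continuous_tent (T : ℝ) : Continuous (tent T) := by unfold tent; fun_prop

@[fun_prop] lemma continuous_gk : Continuous gk := by unfold gk; fun_prop

lemma tent_eq_zero {T τ : ℝ} (h : T ≤ |τ|) : tent T τ = 0 := max_eq_right (by linarith)

lemma tent_of_le {T τ : ℝ} (h : |τ| ≤ T) : tent T τ = T - |τ| := max_eq_left (by linarith)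

lemma integrable_tent_smul {E : Type*} [NormedAddCommGroup E] [NormedSpace ℝ E] (T c : ℝ)
    (f : ℝ → E) (hf : Continuous f) : Integrable fun τ => tent T (τ - c) • f τ := by
  apply Continuous.integrable_of_hasCompactSupport (by fun_prop)
  apply HasCompactSupport.intro (isCompact_Icc (a := c - T) (b := c + T))
  intro x hx
  rw [tent_eq_zero, zero_smul]
  by_contra h
  have := abs_lt.mp (not_le.mp h)
  exact hx ⟨by linarith, by linarith⟩

lemma integrable_tent_mul (T : ℝ) (f : ℝ → ℝ) (hf : Continuous f) :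
    Integrable fun τ => tent T τ * f τ := by
  simpa using integrable_tent_smul T 0 f hf

lemma integrable_tent_cmul (T : ℝ) (f : ℝ → ℂ) (hf : Continuous f) :
    Integrable fun τ => (tent T τ : ℂ) * f τ := by
  simpa using integrable_tent_smul T 0 f hf

lemma integrable_gk_exp (a : ℝ) : Integrable fun v => gk v * Real.exp (a * |v|) := by
  have h := (integrable_exp_neg_mul_sq (b := 1 / 32) (by norm_num)).const_mul
    ((√(16 * Real.pi))⁻¹ * Real.exp (8 * a ^ 2))
  refine h.mono' (by fun_prop : Continuous _).aestronglyMeasurable (Eventually.of_forall fun v => ?_)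
  rw [Real.norm_of_nonneg (mul_nonneg (gk_nonneg v) (Real.exp_pos _).le), gk, mul_assoc, mul_assoc,
    ← Real.exp_add, ← Real.exp_add]
  apply mul_le_mul_of_nonneg_left (Real.exp_le_exp.mpr _) (by positivity)
  nlinarith [sq_nonneg (|v| - 16 * a), sq_abs v]

lemma integrable_weight (T a : ℝ) : Integrable (fun p : ℝ × ℝ =>
    (tent T p.1 * Real.exp (a * |p.1|)) * (gk p.2 * Real.exp (a * |p.2|))) (volume.prod volume) :=
  (integrable_tent_mul T (fun τ => Real.exp (a * |τ|)) (by fun_prop)).mul_prod (integrable_gk_exp a)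

lemma weight_bound (T a : ℝ) (ha : 0 ≤ a) (p : ℝ × ℝ) :
    ‖((tent T p.1 * gk p.2 : ℝ) : ℂ)‖ * Real.exp (a * |p.1 + p.2|) ≤
      (tent T p.1 * Real.exp (a * |p.1|)) * (gk p.2 * Real.exp (a * |p.2|)) := by
  have h1 := tent_nonneg T p.1
  have h2 := gk_nonneg p.2
  rw [Complex.norm_real, Real.norm_of_nonneg (by positivity)]
  calc _ ≤ tent T p.1 * gk p.2 * Real.exp (a * |p.1| + a * |p.2|) := by
        gcongr
        rw [← mul_add]; gcongr; exact abs_add_le _ _
    _ = _ := by rw [Real.exp_add]; ring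

lemma integrable_Jf (T a B : ℝ) (ha : 0 ≤ a) (f : ℝ → ℂ) (hf : Continuous f)
    (hB : ∀ t, ‖f t‖ ≤ B * Real.exp (a * |t|)) :
    Integrable (fun p : ℝ × ℝ => ((tent T p.1 * gk p.2 : ℝ) : ℂ) * f (p.1 + p.2))
      (volume.prod volume) := by
  have hB0 : 0 ≤ B := by
    have := (norm_nonneg _).trans (hB 0)
    simpa using this
  refine ((integrable_weight T a).const_mul B).mono'
    (by fun_prop : Continuous _).aestronglyMeasurable (Eventually.of_forall fun p => ?_)
  rw [norm_mul]
  calc _ ≤ ‖((tent T p.1 * gk p.2 : ℝ) : ℂ)‖ * (B * Real.exp (a * |p.1 + p.2|)) := by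
        gcongr; exact hB _
    _ = B * (‖((tent T p.1 * gk p.2 : ℝ) : ℂ)‖ * Real.exp (a * |p.1 + p.2|)) := by ring
    _ ≤ _ := mul_le_mul_of_nonneg_left (weight_bound T a ha p) hB0

lemma sqrt_cpow (x : ℝ) (hx : 0 ≤ x) : (x : ℂ) ^ (1 / 2 : ℂ) = (√x : ℝ) := by
  rw [Real.sqrt_eq_rpow, Complex.ofReal_cpow hx]; norm_num

lemma gk_fourier (z : ℂ) : ∫ v : ℝ, (gk v : ℂ) * cexp (I * v * z / 2) = cexp (-z ^ 2) := by
  have h := integral_cexp_quadratic (b := -(1 / 16)) (by norm_num) (I * z / 2) 0
  have e : ∀ v : ℝ, (gk v : ℂ) * cexp (I * v * z / 2) =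
      ((√(16 * Real.pi))⁻¹ : ℝ) * cexp (-(1 / 16) * (v : ℂ) ^ 2 + I * z / 2 * v + 0) := by
    intro v
    rw [gk]; push_cast
    rw [mul_assoc, ← Complex.exp_add]; congr 2; ring
  simp_rw [e]
  rw [integral_const_mul, h]
  have e2 : ((Real.pi : ℂ) / - -(1 / 16)) = ((16 * Real.pi : ℝ) : ℂ) := by push_cast; ring
  rw [e2, sqrt_cpow _ (by positivity), ← mul_assoc, ← Complex.ofReal_mul,
    inv_mul_cancel₀ (by positivity)]
  simp only [ofReal_one, one_mul]
  congr 1
  linear_combination (z ^ 2) * I_sq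

lemma Jf_exp (T : ℝ) (z : ℂ) :
    Jf T (fun t => cexp (I * t * z / 2)) = Kt T z * cexp (-z ^ 2) := by
  rw [← gk_fourier, Kt, ← integral_prod_mul, Jf]
  congr 1; ext p
  push_cast
  rw [show I * (p.1 + p.2) * z / 2 = I * p.1 * z / 2 + I * p.2 * z / 2 by ring, Complex.exp_add]
  ring

lemma tent_split {E : Type*} [NormedAddCommGroup E] [NormedSpace ℝ E] (T : ℝ) (hT : 0 ≤ T)
    (f : ℝ → E) (hf : Continuous f) :
    ∫ τ, tent T τ • f τ = ∫ t in (0 : ℝ)..T, (T - t) • (f t + f (-t)) := by
  have hc : Continuous fun τ => tent T τ • f τ := by fun_prop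
  have h1 : ∫ τ in (-T)..T, tent T τ • f τ = ∫ τ, tent T τ • f τ := by
    apply intervalIntegral.integral_eq_integral_of_support_subset
    intro x hx
    by_contra h
    apply hx
    simp only []
    rw [tent_eq_zero, zero_smul]
    by_contra h2
    have := abs_lt.mp (not_le.mp h2)
    exact h ⟨this.1, this.2.le⟩
  rw [← h1, ← intervalIntegral.integral_add_adjacent_intervals (b := 0)
    (hc.intervalIntegrable _ _) (hc.intervalIntegrable _ _)]
  have h2 : ∫ τ in (-T)..0, tent T τ • f τ = ∫ τ in (0 : ℝ)..T, tent T (-τ) • f (-τ) := by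
    rw [intervalIntegral.integral_comp_neg (fun τ => tent T τ • f τ)]; simp
  have hc2 : Continuous fun τ => tent T (-τ) • f (-τ) := by fun_prop
  rw [h2, ← intervalIntegral.integral_add (hc2.intervalIntegrable _ _) (hc.intervalIntegrable _ _)]
  apply intervalIntegral.integral_congr
  intro x hx
  rw [uIcc_of_le hT] at hx
  simp only []
  rw [tent_of_le (by rw [abs_neg, abs_of_nonneg hx.1]; exact hx.2),
    tent_of_le (by rw [abs_of_nonneg hx.1]; exact hx.2), abs_neg, abs_of_nonneg hx.1, smul_add,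
    add_comm]

lemma integral_tent (a c : ℝ) (ha : 0 ≤ a) : ∫ τ, tent a (τ - c) = a ^ 2 := by
  rw [integral_sub_right_eq_self (fun τ => tent a τ) c]
  have := tent_split a ha (fun _ => (1 : ℝ)) continuous_const
  simp only [smul_eq_mul, mul_one] at this
  rw [this, intervalIntegral.integral_mul_const, intervalIntegral.integral_sub (by simp) (by simp)]
  simp; ring

lemma Kt_eq (T : ℝ) (hT : 0 ≤ T) (z : ℂ) (hz : z ≠ 0) :
    Kt T z = 4 * (2 - cexp (I * T * z / 2) - cexp (-(I * T * z / 2))) / z ^ 2 := by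
  have h := tent_split T hT (fun τ : ℝ => cexp (I * τ * z / 2)) (by fun_prop)
  simp only [Complex.real_smul] at h
  rw [Kt, h]
  set w : ℂ := I * z / 2 with hw
  have hw0 : w ≠ 0 := by rw [hw]; simp [hz]
  have hd : ∀ t ∈ uIcc (0 : ℝ) T, HasDerivAt (fun t : ℝ => (T - t) * (cexp (w * t) - cexp (-(w * t))) / w
      + (cexp (w * t) + cexp (-(w * t))) / w ^ 2)
      (((T - t : ℝ) : ℂ) * (cexp (I * t * z / 2) + cexp (I * (-t : ℝ) * z / 2))) t := by
    intro t _
    have e1 : HasDerivAt (fun s : ℂ => cexp (w * s)) (cexp (w * t) * w) t := by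
      simpa using ((hasDerivAt_id (t : ℂ)).const_mul w).cexp
    have e2 : HasDerivAt (fun s : ℂ => cexp (-(w * s))) (cexp (-(w * t)) * (-w)) t := by
      simpa using ((hasDerivAt_id (t : ℂ)).const_mul w).neg.cexp
    have e3 := ((((hasDerivAt_id (t : ℂ)).const_sub (T : ℂ)).mul (e1.sub e2)).div_const w).add
      ((e1.add e2).div_const (w ^ 2))
    refine e3.comp_ofReal.congr_deriv ?_
    have a1 : I * t * z / 2 = w * t := by rw [hw]; ring
    have a2 : I * (-t : ℝ) * z / 2 = -(w * t) := by rw [hw]; push_cast; ring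
    rw [a1, a2]
    simp only [id, Pi.sub_apply]
    push_cast
    field_simp
    ring
  rw [intervalIntegral.integral_eq_sub_of_hasDerivAt hd
    ((by fun_prop : Continuous _).intervalIntegrable _ _)]
  have a1 : I * T * z / 2 = w * T := by rw [hw]; ring
  have a2 : z ^ 2 = -4 * w ^ 2 := by rw [hw]; linear_combination (z ^ 2) * I_sq
  rw [a1, a2]
  simp
  field_simp
  ring

lemma tent_abs (T x : ℝ) (hT : 0 ≤ T) : tent T x = (|x + T| + |x - T| - 2 * |x|) / 2 := by
  unfold tent
  rcases le_total (T - |x|) 0 with h | h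
  · rw [max_eq_right h]
    cases abs_cases (x + T) <;> cases abs_cases (x - T) <;> cases abs_cases x <;> linarith
  · rw [max_eq_left h]
    cases abs_cases (x + T) <;> cases abs_cases (x - T) <;> cases abs_cases x <;> linarith

lemma tent_second_diff (T τ v : ℝ) (hT : 0 ≤ T) :
    tent T (τ - v) + tent T (τ - -v) - 2 * tent T (τ - 0) =
      tent |v| (τ - -T) + tent |v| (τ - T) - 2 * tent |v| (τ - 0) := by
  have h : ∀ x : ℝ, |x + (|v|)| + |x - (|v|)| = |x + v| + |x - v| := by
    intro x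
    rcases abs_cases v with ⟨h, _⟩ | ⟨h, _⟩
    · rw [h]
    · rw [h, ← sub_eq_add_neg, sub_neg_eq_add, add_comm]
  simp only [tent_abs _ _ hT, tent_abs _ _ (abs_nonneg v), sub_zero, sub_neg_eq_add]
  rw [h, h, h]
  ring_nf

theorem smooth_error : ∃ C : ℝ, 0 ≤ C ∧ ∀ (T B : ℝ) (f : ℝ → ℂ), 0 ≤ T → Continuous f →
    (∀ t, ‖f t‖ ≤ B * √(1 + |t|)) →
    ‖Jf T f - ∫ τ, (tent T τ : ℂ) * f τ‖ ≤ C * B * √(1 + T) := by
  refine ⟨2 * ∫ v, gk v * Real.exp (3 * |v|), ?_, fun T B f hT hf hB => ?_⟩
  · have : 0 ≤ ∫ v, gk v * Real.exp (3 * |v|) :=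
      integral_nonneg fun v => mul_nonneg (gk_nonneg v) (Real.exp_pos _).le
    positivity
  have hB0 : 0 ≤ B := by
    have := (norm_nonneg _).trans (hB 0)
    simpa using this
  have hB' : ∀ t, ‖f t‖ ≤ B * Real.exp (1 * |t|) := by
    intro t
    refine (hB t).trans ?_
    gcongr
    rw [Real.sqrt_le_iff]
    have := Real.add_one_le_exp |t|
    have := abs_nonneg t
    constructor
    · positivity
    · rw [one_mul]; nlinarith
  have hI := integrable_Jf T 1 B zero_le_one f hf hB'
  set P : ℝ → ℂ := fun v => ∫ τ, tent T (τ - v) • f τ with hP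
  have e1 : ∀ v : ℝ, ∫ τ : ℝ, ((tent T τ * gk v : ℝ) : ℂ) * f (τ + v) = gk v * P v := by
    intro v
    rw [hP]; simp only []
    rw [← integral_add_right_eq_self (fun τ => tent T (τ - v) • f τ) v, ← integral_const_mul]
    congr 1; ext τ
    simp; ring
  have hJ : Jf T f = ∫ v, gk v * P v := by
    rw [Jf, integral_prod_symm _ hI]; simp_rw [e1]
  have hI1 : Integrable fun v => gk v * P v := by
    have := hI.integral_prod_right
    simp_rw [e1] at this
    exact this
  have gk_neg : ∀ v, gk (-v) = gk v := by intro v; simp [gk]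
  have hI2 : Integrable fun v => gk v * P (-v) := by
    have := hI1.comp_neg
    simpa [gk_neg] using this
  have hJ2 : Jf T f = ∫ v, gk v * P (-v) := by
    rw [hJ, ← integral_neg_eq_self]; simp [gk_neg]
  have hg : Integrable fun v : ℝ => (gk v : ℂ) := by
    have := integrable_gk_exp 0
    simp only [zero_mul, Real.exp_zero, mul_one] at this
    exact this.ofReal
  have hg1 : ∫ v : ℝ, (gk v : ℂ) = 1 := by simpa using gk_fourier 0
  have hP0 : ∫ τ, (tent T τ : ℂ) * f τ = P 0 := by rw [hP]; simp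
  have e2 : 2 * (Jf T f - P 0) = ∫ v, gk v * (P v + P (-v) - 2 * P 0) := by
    simp_rw [mul_sub, mul_add]
    rw [integral_sub (hI1.fun_add hI2) (hg.mul_const _), integral_add hI1 hI2, integral_mul_const, hg1,
      ← hJ, ← hJ2]
    ring
  have b1 : ∀ v, ‖P v + P (-v) - 2 * P 0‖ ≤ 4 * B * √(1 + T) * Real.exp (3 * |v|) := by
    intro v
    set Bv := B * √(1 + (T + |v|)) with hBv
    have hBv0 : 0 ≤ Bv := by positivity
    have i := fun c => integrable_tent_smul T c f hf
    have j := fun c => integrable_tent_smul |v| c f hf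
    have e3 : P v + P (-v) - 2 * P 0 = (∫ τ, tent |v| (τ - -T) • f τ) + (∫ τ, tent |v| (τ - T) • f τ)
        - 2 * ∫ τ, tent |v| (τ - 0) • f τ := by
      rw [hP]; simp only []
      rw [← integral_const_mul, ← integral_const_mul, ← integral_add (i _) (i _),
        ← integral_add (j _) (j _), ← integral_sub ((i _).fun_add (i _)) ((i _).const_mul _),
        ← integral_sub ((j _).fun_add (j _)) ((j _).const_mul _)]
      congr 1; ext τ
      have := congrArg (fun x : ℝ => (x : ℂ) * f τ) (tent_second_diff T τ v hT)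
      simp only [Complex.real_smul]
      push_cast at this
      linear_combination this
    have b2 : ∀ c : ℝ, |c| ≤ T → ‖∫ τ, tent |v| (τ - c) • f τ‖ ≤ v ^ 2 * Bv := by
      intro c hc
      have k : Integrable fun τ => tent |v| (τ - c) * Bv := by
        simpa using integrable_tent_smul |v| c (fun _ => Bv) continuous_const
      refine (norm_integral_le_of_norm_le k (Eventually.of_forall fun τ => ?_)).trans (le_of_eq ?_)
      · rw [norm_smul, Real.norm_of_nonneg (tent_nonneg _ _)]
        rcases le_total |v| |τ - c| with h | h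
        · rw [tent_eq_zero h]; simp
        · have := tent_nonneg |v| (τ - c)
          gcongr
          refine (hB τ).trans ?_
          rw [hBv]
          gcongr
          have := abs_add_le (τ - c) c
          rw [sub_add_cancel] at this
          linarith
      · rw [integral_mul_const, integral_tent _ _ (abs_nonneg v), sq_abs]
    have b3 : v ^ 2 * Bv ≤ B * √(1 + T) * Real.exp (3 * |v|) := by
      have a0 := abs_nonneg v
      have a1 : |v| ≤ Real.exp |v| := by linarith [Real.add_one_le_exp |v|]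
      have a2 : √(1 + (T + |v|)) ≤ √(1 + T) * Real.exp |v| := by
        rw [Real.sqrt_le_iff, mul_pow, Real.sq_sqrt (by linarith)]
        refine ⟨by positivity, ?_⟩
        have := Real.add_one_le_exp |v|
        have a3 : 1 + |v| ≤ Real.exp |v| ^ 2 := by nlinarith
        nlinarith
      calc v ^ 2 * Bv = |v| * |v| * (B * √(1 + (T + |v|))) := by rw [hBv, ← sq, sq_abs]
        _ ≤ Real.exp |v| * Real.exp |v| * (B * (√(1 + T) * Real.exp |v|)) := by gcongr
        _ = _ := by rw [show 3 * |v| = |v| + |v| + |v| by ring, Real.exp_add, Real.exp_add]; ring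
    rw [e3]
    have t1 := b2 (-T) (by rw [abs_neg, abs_of_nonneg hT])
    have t2 := b2 T (by rw [abs_of_nonneg hT])
    have t3 := b2 0 (by simpa using hT)
    refine (norm_sub_le _ _).trans ?_
    rw [norm_mul]
    have t4 := norm_add_le (∫ τ, tent |v| (τ - -T) • f τ) (∫ τ, tent |v| (τ - T) • f τ)
    simp only [Complex.norm_ofNat]
    linarith
  have b4 : ‖∫ v, gk v * (P v + P (-v) - 2 * P 0)‖ ≤
      ∫ v, 4 * B * √(1 + T) * (gk v * Real.exp (3 * |v|)) := by
    refine norm_integral_le_of_norm_le ((integrable_gk_exp 3).const_mul _)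
      (Eventually.of_forall fun v => ?_)
    rw [norm_mul, Complex.norm_real, Real.norm_of_nonneg (gk_nonneg v)]
    have := gk_nonneg v
    calc _ ≤ gk v * (4 * B * √(1 + T) * Real.exp (3 * |v|)) := by gcongr; exact b1 v
      _ = _ := by ring
  rw [← e2, norm_mul, integral_const_mul] at b4
  rw [hP0]
  simp only [Complex.norm_ofNat] at b4
  linarith

end Pool.Agent.MP_6f2ed2_nt.H1
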