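import Pool.Agent.MP_6f2ed2_nt.H1.Hrep
import Pool.Agent.MP_6f2ed2_nt.H1.Saddle

/-! Evaluation of the single terms. -/

namespace Pool.Agent.MP_6f2ed2_nt.H1

open Complex MeasureTheory Set Filter Topology

/-- integral over the line -/
noncomputable def Il (r S : ℝ) : ℂ := ∫ x : ℝ, Phi r S (zl x) / zl x ^ 2

lemma norm_Phi_zl (r S x : ℝ) : ‖Phi r S (zl x)‖ =
    Real.exp (x / 2 - x ^ 2 + Real.pi ^ 2 / 4 - r * Real.exp x + S * Real.pi / 4) := by
  rw [zl, norm_Phi, Real.sin_neg, Real.sin_pi_div_two]; congr 1; ring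

lemma integrable_Il (r S : ℝ) (hr : 0 ≤ r) : Integrable fun x : ℝ => Phi r S (zl x) / zl x ^ 2 := by
  apply integrable_line (Phi r S) (differentiable_Phi r S).continuous (-(Real.pi / 2))
    (Real.exp (1 + Real.pi ^ 2 / 4 + S * Real.pi / 4)) (by linarith [Real.pi_pos])
  intro x
  change ‖Phi r S (zl x)‖ ≤ _
  rw [norm_Phi_zl]
  apply Real.exp_le_exp.mpr
  have : 0 ≤ r * Real.exp x := by positivity
  nlinarith [sq_nonneg (x - 1 / 4)]

lemma Il_bound : ∃ C : ℝ, 0 ≤ C ∧ ∀ r S : ℝ, 0 < r → S ≤ 0 → ‖Il r S‖ ≤ C / r := by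
  refine ⟨Real.exp (Real.pi ^ 2 / 4) * Real.exp 2 * Real.pi, by positivity, fun r S hr hS => ?_⟩
  have hi := integrable_inv_one_add_sq.const_mul (Real.exp (Real.pi ^ 2 / 4) * Real.exp 2 / r)
  refine (norm_integral_le_of_norm_le hi (Eventually.of_forall fun x => ?_)).trans (le_of_eq ?_)
  · rw [norm_div]
    refine (div_le_self (norm_nonneg _) (one_le_norm_zl_sq x)).trans ?_
    rw [norm_Phi_zl]
    have h1 := gauss_aux 1 x (Or.inr rfl)
    have h2 : Real.exp (-(r * Real.exp x)) ≤ (r * Real.exp x)⁻¹ := by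
      rw [Real.exp_neg]
      apply inv_anti₀ (by positivity)
      linarith [Real.add_one_le_exp (r * Real.exp x)]
    have h3 : Real.exp ((1 / 2 - 1) * x - x ^ 2) ≤ Real.exp 2 * (1 + x ^ 2)⁻¹ := by
      rw [← div_eq_mul_inv, le_div_iff₀ (by positivity)]
      refine le_trans ?_ h1
      gcongr
      nlinarith [abs_nonneg x, sq_abs x]
    have h4 : S * Real.pi / 4 ≤ 0 := by nlinarith [Real.pi_pos]
    calc _ ≤ Real.exp (Real.pi ^ 2 / 4 + ((1 / 2 - 1) * x - x ^ 2) + x + -(r * Real.exp x)) := by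
          apply Real.exp_le_exp.mpr; linarith
      _ = Real.exp (Real.pi ^ 2 / 4) * Real.exp ((1 / 2 - 1) * x - x ^ 2) * Real.exp x *
          Real.exp (-(r * Real.exp x)) := by rw [Real.exp_add, Real.exp_add, Real.exp_add]
      _ ≤ Real.exp (Real.pi ^ 2 / 4) * (Real.exp 2 * (1 + x ^ 2)⁻¹) * Real.exp x *
          (r * Real.exp x)⁻¹ := by gcongr
      _ = _ := by field_simp
  · rw [integral_const_mul, integral_univ_inv_one_add_sq]; ring

lemma hf_contour (T : ℝ) (hT : 0 ≤ T) {ν : ℝ} (hν : 0 < ν) :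
    hf T ν = c1 * cexp (I * Real.pi / 4) * (√ν : ℝ) * 4 *
      (2 * Il (Real.pi * ν ^ 2) 0 - Il (Real.pi * ν ^ 2) T - Il (Real.pi * ν ^ 2) (-T)) := by
  set r := Real.pi * ν ^ 2 with hr
  have hr0 : 0 ≤ r := by positivity
  have hi : Integrable fun x => 2 * (Phi r 0 (zl x) / zl x ^ 2) - Phi r T (zl x) / zl x ^ 2 :=
    ((integrable_Il r 0 hr0).const_mul 2).sub (integrable_Il r T hr0)
  rw [hf_rep T hν, Il, Il, Il, ← integral_const_mul (2 : ℂ),
    ← integral_sub ((integrable_Il r 0 hr0).const_mul 2) (integrable_Il r T hr0),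
    ← integral_sub hi
      (integrable_Il r (-T) hr0), mul_assoc, mul_assoc, mul_assoc, ← integral_const_mul (4 : ℂ),
    ← integral_const_mul ((√ν : ℝ) : ℂ), ← integral_const_mul (cexp (I * Real.pi / 4))]
  congr 2; ext u
  have hz : cexp (zl u) = -I * cexp u := by
    rw [zl, Complex.exp_add]
    push_cast
    rw [← neg_div, Complex.exp_neg_pi_div_two_mul_I]; ring
  have e : ∀ S : ℝ, cexp (I * Real.pi / 4) * Phi r S (zl u) =
      cexp (u / 2 - r * cexp u) * cexp (-zl u ^ 2) * cexp (I * S * zl u / 2) := by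
    intro S
    rw [Phi, hz, ← Complex.exp_add, ← Complex.exp_add, ← Complex.exp_add]
    congr 1
    have : zl u / 2 = u / 2 - I * Real.pi / 4 := by rw [zl]; push_cast; ring
    rw [this]
    linear_combination (r * cexp u : ℂ) * I_sq
  have e0 := e 0
  have e1 := e T
  have e2 := e (-T)
  rw [kap, Kt_eq T hT _ (zl_ne u), Fw, ← hr]
  push_cast at e0 e1 e2 ⊢
  simp only [mul_zero, zero_mul, zero_div, Complex.exp_zero, mul_one] at e0
  rw [show I * -(T : ℂ) * zl u / 2 = -(I * T * zl u / 2) by ring] at e2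
  linear_combination (-(√ν : ℝ) * 8 / zl u ^ 2 : ℂ) * e0 + ((√ν : ℝ) * 4 / zl u ^ 2 : ℂ) * e1
    + ((√ν : ℝ) * 4 / zl u ^ 2 : ℂ) * e2

lemma Q_split (m u T : ℝ) (hm : 0 ≤ m) (hT : 0 < T) :
    m * (1 + u ^ 2) / (1 + T * u ^ 2) ≤ m / (1 + T * u ^ 2) + m / T := by
  have h : u ^ 2 / (1 + T * u ^ 2) ≤ 1 / T := by
    rw [div_le_div_iff₀ (by positivity) hT]; nlinarith
  calc _ = m / (1 + T * u ^ 2) + m * (u ^ 2 / (1 + T * u ^ 2)) := by ring
    _ ≤ m / (1 + T * u ^ 2) + m * (1 / T) := by gcongr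
    _ = _ := by ring

lemma Q_bound (N ν : ℝ) (hN : 0 < N) (hν : 0 < ν) : ∃ θ : ℝ, (θ = 0 ∨ θ = 1) ∧
    Real.exp (θ * Real.log (N ^ 2 / ν ^ 2)) * (1 + Real.log (N ^ 2 / ν ^ 2) ^ 2) /
      (1 + 2 * Real.pi * N ^ 2 * Real.log (N ^ 2 / ν ^ 2) ^ 2) ≤
      1 / (1 + (ν - N) ^ 2) + 1 / ν ^ 2 := by
  have hpi := Real.pi_gt_three
  set u := Real.log (N ^ 2 / ν ^ 2) with hu
  have hu2 : u = 2 * Real.log (N / ν) := by rw [hu, ← div_pow, Real.log_pow]; norm_num
  rcases le_total ν N with h | h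
  · refine ⟨0, Or.inl rfl, ?_⟩
    refine (Q_split _ u _ (Real.exp_pos _).le (by positivity)).trans ?_
    rw [zero_mul, Real.exp_zero]
    have h1 := Real.one_sub_inv_le_log_of_pos (show 0 < N / ν by positivity)
    rw [inv_div] at h1
    have h2 : N - ν ≤ N * Real.log (N / ν) := by
      have : N * (1 - ν / N) = N - ν := by field_simp
      rw [← this]; gcongr
    have h3 : (N - ν) ^ 2 ≤ (N * Real.log (N / ν)) ^ 2 := pow_le_pow_left₀ (by linarith) h2 2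
    have h4 : (ν - N) ^ 2 ≤ 2 * Real.pi * N ^ 2 * u ^ 2 := by
      rw [hu2]; nlinarith [sq_nonneg (N * Real.log (N / ν))]
    have h5 : ν ^ 2 ≤ 2 * Real.pi * N ^ 2 := by nlinarith
    gcongr
  · refine ⟨1, Or.inr rfl, ?_⟩
    refine (Q_split _ u _ (Real.exp_pos _).le (by positivity)).trans ?_
    rw [one_mul, hu, Real.exp_log (by positivity), ← hu]
    have h1 := Real.one_sub_inv_le_log_of_pos (show 0 < ν / N by positivity)
    rw [inv_div] at h1
    have h1' : Real.log (N / ν) = -Real.log (ν / N) := by rw [← Real.log_inv, inv_div]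
    have h2 : ν - N ≤ ν * Real.log (ν / N) := by
      have : ν * (1 - N / ν) = ν - N := by field_simp
      rw [← this]; gcongr
    have h3 : (ν - N) ^ 2 ≤ (ν * Real.log (ν / N)) ^ 2 := pow_le_pow_left₀ (by linarith) h2 2
    have h4 : (ν - N) ^ 2 ≤ ν ^ 2 * (2 * Real.pi * u ^ 2) := by
      rw [hu2, h1']; nlinarith [sq_nonneg (ν * Real.log (ν / N))]
    apply add_le_add
    · rw [div_div, div_le_div_iff₀ (by positivity) (by positivity)]
      have h5 : N ^ 2 ≤ ν ^ 2 := by gcongr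
      have h6 : N ^ 2 * (ν - N) ^ 2 ≤ N ^ 2 * (ν ^ 2 * (2 * Real.pi * u ^ 2)) := by gcongr
      nlinarith
    · rw [div_div, div_le_div_iff₀ (by positivity) (by positivity)]
      have : 0 ≤ N ^ 2 * ν ^ 2 := by positivity
      nlinarith

/-- main term -/
noncomputable def mainTerm (T : ℝ) (ν : ℕ) : ℂ :=
  (2 * √2 * Real.pi : ℝ) * cexp (I * Real.pi / 8) *
    ((((-1 : ℝ) ^ ν * √ν * (T - 2 * Real.pi * ν ^ 2) : ℝ) : ℂ) - I * (((-1 : ℝ) ^ ν * √ν : ℝ) : ℂ))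

lemma exp_neg_pi_sq (ν : ℕ) : cexp (-(I * ((Real.pi * (ν : ℝ) ^ 2 : ℝ) : ℂ))) = (-1) ^ ν := by
  have h : cexp (-(I * ((Real.pi * (ν : ℝ) ^ 2 : ℝ) : ℂ))) = (-1) ^ (ν ^ 2) := by
    rw [← Complex.exp_neg_pi_mul_I, ← Complex.exp_nat_mul]; congr 1; push_cast; ring
  rw [h]
  rcases Nat.even_or_odd ν with h | h
  · rw [h.neg_one_pow, (h.pow_of_ne_zero two_ne_zero).neg_one_pow]
  · rw [h.neg_one_pow, h.pow.neg_one_pow]

lemma norm_c1 : ‖c1‖ ≤ 1 := by
  rw [c1, norm_mul, norm_inv, Complex.norm_real, Real.norm_of_nonneg (Real.sqrt_nonneg _),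
    Complex.norm_exp]
  simp only [neg_re, div_ofNat_re, mul_re, I_re, ofReal_re, zero_mul, I_im, ofReal_im, mul_zero,
    sub_self, zero_div, neg_zero, Real.exp_zero, mul_one]
  exact inv_le_one_of_one_le₀ (Real.one_le_sqrt.mpr (by norm_num))

theorem hf_approx : ∃ C : ℝ, 0 ≤ C ∧ ∀ (T : ℝ) (ν : ℕ), 2 * Real.pi ≤ T → 1 ≤ ν →
    ‖hf T ν - (if ν ≤ ⌊√(T / (2 * Real.pi))⌋₊ then mainTerm T ν else 0)‖ ≤
      C * √T * (√ν * (1 / (1 + ((ν : ℝ) - √(T / (2 * Real.pi))) ^ 2) + 1 / (ν : ℝ) ^ 2)) := by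
  obtain ⟨C1, hC1, h1⟩ := saddle_bound
  obtain ⟨C2, hC2, h2⟩ := Il_bound
  refine ⟨4 * (C1 + C2), by positivity, fun T ν hT hν => ?_⟩
  have hpi := Real.pi_gt_three
  have hν0 : (0 : ℝ) < ν := by exact_mod_cast hν
  have hT1 : 1 ≤ T := by linarith
  set N := √(T / (2 * Real.pi)) with hN
  have hN2 : N ^ 2 = T / (2 * Real.pi) := Real.sq_sqrt (by positivity)
  have hN0 : 0 < N := Real.sqrt_pos.mpr (by positivity)
  have hTN : T = 2 * Real.pi * N ^ 2 := by rw [hN2]; field_simp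
  set r := Real.pi * (ν : ℝ) ^ 2 with hr
  have hr0 : 0 < r := by positivity
  obtain ⟨θ, hθ, hQ⟩ := Q_bound N ν hN0 hν0
  have s := h1 T r θ hT1 hr0 hθ
  have e1 : T / (2 * r) = N ^ 2 / (ν : ℝ) ^ 2 := by rw [hN2, hr]; field_simp
  rw [e1] at s
  rw [← hTN] at hQ
  set E : ℝ := 1 / (1 + ((ν : ℝ) - N) ^ 2) + 1 / (ν : ℝ) ^ 2 with hE
  have hiff : (ν ≤ ⌊N⌋₊) ↔ 2 * r ≤ T := by
    rw [Nat.le_floor_iff hN0.le, hTN, hr, mul_assoc, mul_le_mul_iff_right₀ two_pos,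
      mul_le_mul_iff_right₀ Real.pi_pos, pow_le_pow_iff_left₀ hν0.le hN0.le two_ne_zero]
  set R : ℂ := (if 2 * r ≤ T then
    2 * Real.pi * I * (cexp (-(I * r)) * (1 / 2 - I * r + I * T / 2)) else 0) with hR
  have s' : ‖Il r T - R‖ ≤ C1 * √T * E := s.trans (by gcongr)
  have e2 : (if ν ≤ ⌊N⌋₊ then mainTerm T ν else 0) =
      c1 * cexp (I * Real.pi / 4) * (√ν : ℝ) * 4 * (-R) := by
    simp only [hiff, hR]
    split_ifs with h
    · rw [hr, exp_neg_pi_sq, mainTerm, c1]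
      have a1 : cexp (-(I * Real.pi / 8)) * cexp (I * Real.pi / 4) = cexp (I * Real.pi / 8) := by
        rw [← Complex.exp_add]; congr 1; ring
      have a2 : ((√2 : ℝ) : ℂ)⁻¹ = (√2 : ℝ) / 2 := by
        have : ((√2 : ℝ) : ℂ) * (√2 : ℝ) = 2 := by
          rw [← Complex.ofReal_mul, Real.mul_self_sqrt (by norm_num)]; norm_num
        have h0 : ((√2 : ℝ) : ℂ) ≠ 0 := by simp
        field_simp
        linear_combination -this
      rw [mul_assoc _ (cexp _) (cexp _), a1, a2]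
      push_cast
      linear_combination (4 * (√2 : ℝ) * Real.pi * cexp (I * Real.pi / 8) * (√ν : ℝ) * (-1) ^ ν *
        (T / 2 - Real.pi * ν ^ 2) : ℂ) * I_sq
    · simp
  rw [e2, hf_contour T (by linarith) hν0, ← mul_sub, ← hr]
  have b0 := h2 r 0 hr0 le_rfl
  have b1 := h2 r (-T) hr0 (by linarith)
  have hsT : 1 ≤ √T := Real.one_le_sqrt.mpr hT1
  have b2 : 3 * (C2 / r) ≤ C2 * √T * E := by
    have : 3 * (C2 / r) ≤ C2 * 1 * (1 / (ν : ℝ) ^ 2) := by
      rw [hr, mul_one, mul_one_div, ← div_div, mul_div_assoc', mul_div_assoc']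
      gcongr
      rw [div_le_iff₀ (by positivity)]; nlinarith
    refine this.trans ?_
    gcongr
    rw [hE]
    have : 0 ≤ 1 / (1 + ((ν : ℝ) - N) ^ 2) := by positivity
    linarith
  have b3 : ‖2 * Il r 0 - Il r T - Il r (-T) - -R‖ ≤ (C1 + C2) * √T * E := by
    rw [show 2 * Il r 0 - Il r T - Il r (-T) - -R = 2 * Il r 0 - Il r (-T) - (Il r T - R) by ring]
    refine (norm_sub_le _ _).trans ?_
    have := norm_sub_le (2 * Il r 0) (Il r (-T))
    rw [norm_mul, Complex.norm_ofNat] at this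
    linarith
  have b4 : ‖c1 * cexp (I * Real.pi / 4) * (√ν : ℝ) * 4‖ ≤ √ν * 4 := by
    rw [norm_mul, norm_mul, norm_mul, Complex.norm_exp, Complex.norm_real,
      Real.norm_of_nonneg (Real.sqrt_nonneg _), Complex.norm_ofNat]
    have := norm_c1
    simp only [div_ofNat_re, mul_re, I_re, ofReal_re, zero_mul, I_im, ofReal_im, mul_zero,
      sub_self, zero_div, Real.exp_zero, mul_one]
    calc _ ≤ 1 * √ν * 4 := by gcongr
      _ = _ := by ring
  rw [norm_mul]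
  calc _ ≤ √ν * 4 * ((C1 + C2) * √T * E) := by gcongr
    _ = _ := by ring

end Pool.Agent.MP_6f2ed2_nt.H1
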